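import Pool.Agent.Lib.MP_3e25b1_lc.RelLemmas

/-!
# The `D_st`-topos as a category
-/

set_option autoImplicit false

namespace Pool.Agent.Lib.MP_3e25b1_lc

open CategoryTheory

/-- The identity functional relation. -/
def FunRel.id (X : Dst) : FunRel X X where
  rel := X.eq
  strict := id_strict X
  ext := id_ext X
  single := id_single X
  total := id_total X

/-- Composition of functional relations: `(F.comp G)(x, z)` is `∃ y, F(x, y) ∧ G(y, z)`. -/
def FunRel.comp {X Y Z : Dst} (F : FunRel X Y) (G : FunRel Y Z) : FunRel X Z where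
  rel x z := Sig.ex (fun y => (F.rel x y).and (G.rel y z))
  strict := comp_strict F G
  ext := comp_ext F G
  single := comp_single F G
  total := comp_total F G

/-- Two functional relations are identified when they entail each other. -/
def FunRel.Equiv {X Y : Dst} (F G : FunRel X Y) : Prop :=
  Ent (fun p : X.carrier × Y.carrier => F.rel p.1 p.2) (fun p => G.rel p.1 p.2) ∧
    Ent (fun p : X.carrier × Y.carrier => G.rel p.1 p.2) (fun p => F.rel p.1 p.2)

theorem FunRel.equiv_of_ent {X Y : Dst} {F G : FunRel X Y}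
    (h : Ent (fun p : X.carrier × Y.carrier => F.rel p.1 p.2) (fun p => G.rel p.1 p.2)) :
    F.Equiv G := ⟨h, ent_symm_of_ent h⟩

theorem FunRel.comp_congr {X Y Z : Dst} {F F' : FunRel X Y} {G G' : FunRel Y Z}
    (h : F.Equiv F') (h' : G.Equiv G') : (F.comp G).Equiv (F'.comp G') :=
  ⟨comp_congr_ent h.1 h'.1, comp_congr_ent h.2 h'.2⟩

instance FunRel.setoid (X Y : Dst) : Setoid (FunRel X Y) where
  r := FunRel.Equiv
  iseqv := ⟨fun _ => ⟨Ent.refl _, Ent.refl _⟩, fun h => ⟨h.2, h.1⟩,
    fun h h' => ⟨h.1.trans h'.1, h'.2.trans h.2⟩⟩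

/-- The `D_st`-topos as a category: morphisms are functional relations, up to mutual
entailment. -/
instance : Category Dst where
  Hom X Y := Quotient (FunRel.setoid X Y)
  id X := Quotient.mk _ (FunRel.id X)
  comp F G := Quotient.map₂ FunRel.comp (fun _ _ h _ _ h' => FunRel.comp_congr h h') F G
  id_comp := by
    rintro X Y ⟨F⟩
    exact Quotient.sound (FunRel.equiv_of_ent (id_comp_ent F))
  comp_id := by
    rintro X Y ⟨F⟩
    exact Quotient.sound (FunRel.equiv_of_ent (comp_id_ent F))
  assoc := by
    rintro W X Y Z ⟨F⟩ ⟨G⟩ ⟨H⟩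
    exact Quotient.sound (FunRel.equiv_of_ent (assoc_ent F G H))

/-- The morphism given by a functional relation. -/
def FunRel.hom {X Y : Dst} (F : FunRel X Y) : X ⟶ Y := Quotient.mk _ F

end Pool.Agent.Lib.MP_3e25b1_lc
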