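import Pool.Agent.Lib.MP_3e25b1_lc.Sig

/-!
# Lemmas on codes of finite sets
-/

set_option autoImplicit false

namespace Pool.Agent.Lib.MP_3e25b1_lc

theorem mem_part {i a x : ℕ} : x ∈ elts (part i a) ↔ Nat.pair i x ∈ elts a := by
  simp only [part, elts_mk, List.mem_filterMap]
  constructor
  · rintro ⟨n, hn, h⟩
    split_ifs at h with hi
    · simp only [Option.some.injEq] at h
      rw [← hi, ← h, Nat.pair_unpair]
      exact hn
  · intro h
    exact ⟨_, h, by simp⟩

/-- A code of `{(0, x) | x ∈ a} ∪ {(1, y) | y ∈ b}`. -/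
def join (a b : ℕ) : ℕ :=
  mk ((elts a).map (fun x => Nat.pair 0 x) ++ (elts b).map (fun x => Nat.pair 1 x))

theorem mem_join {a b n : ℕ} : n ∈ elts (join a b) ↔
    (n.unpair.1 = 0 ∧ n.unpair.2 ∈ elts a) ∨ (n.unpair.1 = 1 ∧ n.unpair.2 ∈ elts b) := by
  simp only [join, elts_mk, List.mem_append, List.mem_map]
  constructor
  · rintro (⟨x, hx, rfl⟩ | ⟨x, hx, rfl⟩)
    · left; simpa using hx
    · right; simpa using hx
  · rintro (⟨h, hx⟩ | ⟨h, hx⟩)
    · left; exact ⟨_, hx, by rw [← h, Nat.pair_unpair]⟩
    · right; exact ⟨_, hx, by rw [← h, Nat.pair_unpair]⟩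

theorem mem_part_join_zero {a b x : ℕ} : x ∈ elts (part 0 (join a b)) ↔ x ∈ elts a := by
  simp [mem_part, mem_join]

theorem mem_part_join_one {a b x : ℕ} : x ∈ elts (part 1 (join a b)) ↔ x ∈ elts b := by
  simp [mem_part, mem_join]

theorem mk_elts (a : ℕ) : mk (elts a) = a := by simp [mk, elts]

theorem part_join_zero (a b : ℕ) : part 0 (join a b) = a := by
  have h1 : ((elts a).map (fun x => Nat.pair 0 x)).filterMap
      (fun n => if n.unpair.1 = 0 then some n.unpair.2 else none) = elts a := by
    rw [List.filterMap_map]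
    conv_rhs => rw [← List.filterMap_some (l := elts a)]
    congr 1
    funext x; simp
  have h2 : ((elts b).map (fun x => Nat.pair 1 x)).filterMap
      (fun n => if n.unpair.1 = 0 then some n.unpair.2 else none) = [] := by
    rw [List.filterMap_map]
    rw [List.filterMap_eq_nil_iff]
    intro x _; simp
  rw [part, join, elts_mk, List.filterMap_append, h1, h2, List.append_nil, mk_elts]

theorem part_join_one (a b : ℕ) : part 1 (join a b) = b := by
  have h1 : ((elts a).map (fun x => Nat.pair 0 x)).filterMap
      (fun n => if n.unpair.1 = 1 then some n.unpair.2 else none) = [] := by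
    rw [List.filterMap_map]
    rw [List.filterMap_eq_nil_iff]
    intro x _; simp
  have h2 : ((elts b).map (fun x => Nat.pair 1 x)).filterMap
      (fun n => if n.unpair.1 = 1 then some n.unpair.2 else none) = elts b := by
    rw [List.filterMap_map]
    conv_rhs => rw [← List.filterMap_some (l := elts b)]
    congr 1
    funext x; simp
  rw [part, join, elts_mk, List.filterMap_append, h1, h2, List.nil_append, mk_elts]

theorem part_computable : Computable₂ part := by
  have h : Primrec₂ part := by
    refine Primrec.encode.comp ?_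
    refine Primrec.listFilterMap ((Primrec.ofNat _).comp Primrec.snd) ?_
    refine Primrec.ite ?_ ?_ ?_
    · refine PrimrecRel.comp Primrec.eq ?_ ?_
      · exact Primrec.fst.comp (Primrec.unpair.comp Primrec.snd)
      · exact Primrec.fst.comp Primrec.fst
    · exact Primrec.option_some.comp (Primrec.snd.comp (Primrec.unpair.comp Primrec.snd))
    · exact Primrec.const none
  exact h.to_comp

theorem join_computable : Computable₂ join := by
  have h : Primrec₂ join := by
    refine Primrec.encode.comp ?_
    refine Primrec.list_append.comp ?_ ?_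
    · refine Primrec.list_map ((Primrec.ofNat _).comp Primrec.fst) ?_
      exact Primrec₂.natPair.comp (Primrec.const 0) Primrec.snd
    · refine Primrec.list_map ((Primrec.ofNat _).comp Primrec.snd) ?_
      exact Primrec₂.natPair.comp (Primrec.const 1) Primrec.snd
  exact h.to_comp

theorem single_computable {α : Type} [Primcodable α] {f : α → ℕ} (hf : Computable f) :
    Computable (fun a => mk [f a]) := by
  refine mk_computable.comp ?_
  exact Computable.list_cons.comp hf (Computable.const [])

theorem mem_single {x y : ℕ} : x ∈ elts (mk [y]) ↔ x = y := by simp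

theorem nil_mem_star (X : Set ℕ) : mk [] ∈ star X := by intro x hx; simp at hx

theorem single_mem_star {X : Set ℕ} {x : ℕ} : mk [x] ∈ star X ↔ x ∈ X := by
  simp [star]

theorem join_mem_star {X Y : Set ℕ} {a b : ℕ} :
    join a b ∈ star (sumS X Y) ↔ a ∈ star X ∧ b ∈ star Y := by
  constructor
  · intro h
    constructor
    · intro x hx
      have := h (Nat.pair 0 x) (mem_join.2 (by simpa using hx))
      simpa [sumS] using this
    · intro x hx
      have := h (Nat.pair 1 x) (mem_join.2 (by simpa using hx))
      simpa [sumS] using this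
  · rintro ⟨h1, h2⟩ n hn
    rcases mem_join.1 hn with ⟨h, hx⟩ | ⟨h, hx⟩
    · exact Or.inl ⟨h, h1 _ hx⟩
    · exact Or.inr ⟨h, h2 _ hx⟩

theorem part_zero_mem_star {X Y : Set ℕ} {a : ℕ} (h : a ∈ star (sumS X Y)) :
    part 0 a ∈ star X := by
  intro x hx
  have := h _ (mem_part.1 hx)
  simpa [sumS] using this

theorem part_one_mem_star {X Y : Set ℕ} {a : ℕ} (h : a ∈ star (sumS X Y)) :
    part 1 a ∈ star Y := by
  intro x hx
  have := h _ (mem_part.1 hx)
  simpa [sumS] using this

theorem pair_mem_prodS {X Y : Set ℕ} {a b : ℕ} :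
    Nat.pair a b ∈ prodS X Y ↔ a ∈ X ∧ b ∈ Y := by
  simp [prodS]


end Pool.Agent.Lib.MP_3e25b1_lc
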