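import Pool.Agent.Lib.MP_3e25b1_lc.Codes

/-!
# Conjunction and existential quantification on `Σ_st`, and the truth values `tv P`
-/

set_option autoImplicit false

namespace Pool.Agent.Lib.MP_3e25b1_lc

/-- Conjunction. -/
def Sig.and (p q : Sig) : Sig where
  pos := sumS p.pos q.pos
  neg := sumS p.neg q.neg
  rel a b := a ∈ star (sumS p.pos q.pos) ∧
    ((b.unpair.1 = 0 ∧ p.rel (part 0 a) b.unpair.2) ∨
      (b.unpair.1 = 1 ∧ q.rel (part 1 a) b.unpair.2))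
  dom := by
    rintro a b ⟨ha, h⟩
    refine ⟨ha, ?_⟩
    rcases h with ⟨h0, h⟩ | ⟨h1, h⟩
    · exact Or.inl ⟨h0, (p.dom h).2⟩
    · exact Or.inr ⟨h1, (q.dom h).2⟩
  up := by
    rintro a a' b ha' hsub ⟨_, h⟩
    refine ⟨ha', ?_⟩
    rcases h with ⟨h0, h⟩ | ⟨h1, h⟩
    · exact Or.inl ⟨h0, p.up (part_zero_mem_star ha')
        (fun x hx => mem_part.2 (hsub _ (mem_part.1 hx))) h⟩
    · exact Or.inr ⟨h1, q.up (part_one_mem_star ha')
        (fun x hx => mem_part.2 (hsub _ (mem_part.1 hx))) h⟩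

/-- Existential quantification over an index type (possibly empty). -/
def Sig.ex {J : Type} (φ : J → Sig) : Sig where
  pos := {a | ∃ j, a ∈ star (φ j).pos}
  neg := {f | ∀ j, f ∈ arr (star (φ j).pos) (star (φ j).neg)}
  rel A f := A ∈ star {a | ∃ j, a ∈ star (φ j).pos} ∧
    (∀ j, f ∈ arr (star (φ j).pos) (star (φ j).neg)) ∧
    ∃ j, ∃ a ∈ elts A, a ∈ star (φ j).pos ∧ ∀ s ∈ app f a, ∀ c ∈ elts s, (φ j).rel a c
  dom := by
    rintro a b ⟨h1, h2, _⟩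
    exact ⟨h1, h2⟩
  up := by
    rintro A A' b hA' hsub ⟨_, hb, j, a, ha, h⟩
    exact ⟨hA', hb, j, a, hsub a ha, h⟩

/-- The truth value of a meta-level proposition: truth, presented as `(∅, {0}, {(∅, 0)})`,
if `P` holds, and falsity `(∅, {0}, ∅)` otherwise. -/
def tv (P : Prop) : Sig where
  pos := ∅
  neg := {0}
  rel a b := P ∧ a ∈ star ∅ ∧ b = 0
  dom h := ⟨h.2.1, h.2.2⟩
  up := by
    rintro a a' b ha' _ ⟨hP, _, hb⟩
    exact ⟨hP, ha', hb⟩

end Pool.Agent.Lib.MP_3e25b1_lc
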