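import Pool.Agent.Lib.MP_3e25b1_lc.TV

/-!
# A natural-deduction style interface to the logic of the tripos

Contexts are predicates `χ` over an arbitrary index type.
-/

set_option autoImplicit false

namespace Pool.Agent.Lib.MP_3e25b1_lc

section
variable {I J : Type} {χ χ' φ ψ θ : I → Sig}

theorem Ent.hyp (χ φ : I → Sig) : Ent (fun i => (χ i).and (φ i)) φ := Ent.and_right χ φ

theorem Ent.weaken (φ : I → Sig) (h : Ent χ ψ) : Ent (fun i => (χ i).and (φ i)) ψ :=
  (Ent.and_left χ φ).trans h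

theorem Ent.and_fst (h : Ent χ (fun i => (φ i).and (ψ i))) : Ent χ φ :=
  h.trans (Ent.and_left φ ψ)

theorem Ent.and_snd (h : Ent χ (fun i => (φ i).and (ψ i))) : Ent χ ψ :=
  h.trans (Ent.and_right φ ψ)

/-- Cut: use an entailed predicate as an extra hypothesis. -/
theorem Ent.cut (h : Ent χ φ) (h' : Ent (fun i => (χ i).and (φ i)) ψ) : Ent χ ψ :=
  ((Ent.refl χ).and_intro h).trans h'

theorem Ent.mp (h : Ent χ (fun i => (φ i).imp (ψ i))) (h' : Ent χ φ) : Ent χ ψ :=
  ((Ent.refl χ).and_intro h').trans h.imp_elim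

theorem Ent.or_cases (h : Ent χ (fun i => (φ i).or (ψ i)))
    (h1 : Ent (fun i => (χ i).and (φ i)) θ) (h2 : Ent (fun i => (χ i).and (ψ i)) θ) :
    Ent χ θ := by
  have k1 : Ent φ (fun i => (χ i).imp (θ i)) := by
    apply Ent.imp_intro
    exact ((Ent.and_right φ χ).and_intro (Ent.and_left φ χ)).trans h1
  have k2 : Ent ψ (fun i => (χ i).imp (θ i)) := by
    apply Ent.imp_intro
    exact ((Ent.and_right ψ χ).and_intro (Ent.and_left ψ χ)).trans h2
  exact (h.trans (Ent.or_elim k1 k2)).mp (Ent.refl χ)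

theorem Ent.or_inl (ψ : I → Sig) (h : Ent χ φ) : Ent χ (fun i => (φ i).or (ψ i)) :=
  h.trans (Ent.or_left φ ψ)

theorem Ent.or_inr (φ : I → Sig) (h : Ent χ ψ) : Ent χ (fun i => (φ i).or (ψ i)) :=
  h.trans (Ent.or_right φ ψ)

/-- Weakening to a context with one more variable and one more hypothesis. -/
theorem Ent.lift (F : I → J → Sig) (h : Ent χ ψ) :
    Ent (fun p : I × J => (χ p.1).and (F p.1 p.2)) (fun p => ψ p.1) :=
  Ent.weaken (χ := fun p : I × J => χ p.1) (fun p : I × J => F p.1 p.2)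
    (h.reindex (fun p : I × J => p.1))

theorem Ent.newhyp (χ : I → Sig) (F : I → J → Sig) :
    Ent (fun p : I × J => (χ p.1).and (F p.1 p.2)) (fun p => F p.1 p.2) :=
  Ent.and_right (fun p : I × J => χ p.1) (fun p : I × J => F p.1 p.2)

theorem Ent.ex_witness {F : I → J → Sig} (t : I → J) (h : Ent χ (fun i => F i (t i))) :
    Ent χ (fun i => Sig.ex (F i)) :=
  h.trans ((Ent.ex_intro (J := fun _ : I => J) F).reindex (fun i => ⟨i, t i⟩))

theorem Ent.ex_cases {F : I → J → Sig} (h : Ent χ (fun i => Sig.ex (F i)))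
    (h' : Ent (fun p : I × J => (χ p.1).and (F p.1 p.2)) (fun p => ψ p.1)) : Ent χ ψ := by
  have k : Ent (fun i => Sig.ex (F i)) (fun i => (χ i).imp (ψ i)) := by
    apply Ent.ex_elim (J := fun _ : I => J) (φ := F)
    apply Ent.imp_intro
    have := h'.reindex (fun p : (Σ _ : I, J) => (p.1, p.2))
    refine Ent.trans ?_ this
    exact (Ent.and_right _ _).and_intro (Ent.and_left _ _)
  exact (h.trans k).mp (Ent.refl χ)

theorem Ent.all_intro' {F : I → J → Sig}
    (h : Ent (fun p : I × J => χ p.1) (fun p => F p.1 p.2)) :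
    Ent χ (fun i => Sig.all (F i)) :=
  Ent.all_intro (J := fun _ : I => J) (h.reindex (fun p : (Σ _ : I, J) => (p.1, p.2)))

theorem Ent.all_inst {F : I → J → Sig} (h : Ent χ (fun i => Sig.all (F i))) (t : I → J) :
    Ent χ (fun i => F i (t i)) :=
  h.trans ((Ent.all_elim (J := fun _ : I => J) F).reindex (fun i => ⟨i, t i⟩))

theorem Ent.top' (χ : I → Sig) : Ent χ (fun _ => Sig.top) := Ent.top_intro χ

theorem Ent.of_bot (h : Ent χ (fun _ => Sig.bot)) : Ent χ φ := h.trans (Ent.bot_elim φ)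

theorem Ent.of_tv_false (h : Ent χ (fun _ => tv False)) : Ent χ φ := by
  rw [tv_false] at h
  exact h.of_bot

/-- Deduction from a true meta-level proposition: if `φ` holds whenever `P` does, uniformly,
then `tv P` entails it; here for the case that `P` is an equation used for substitution. -/
theorem Ent.tv_subst {X : Type} {x y : I → X} {F : I → X → Sig}
    (h : Ent χ (fun i => tv (x i = y i))) (h' : Ent χ (fun i => F i (x i)))
    (hF : Ent (fun p : I × (X × X) => (tv (p.2.1 = p.2.2)).and (F p.1 p.2.1))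
      (fun p => F p.1 p.2.2)) : Ent χ (fun i => F i (y i)) :=
  (h.and_intro h').trans (hF.reindex (fun i => (i, (x i, y i))))

end

end Pool.Agent.Lib.MP_3e25b1_lc
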