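import Pool.Agent.Lib.MP_3e25b1_lc.DVDef
import Pool.Agent.Lib.MP_3e25b1_lc.Logic

/-!
# Entailments for the predicates `∃_u ⊤`
-/

set_option autoImplicit false

namespace Pool.Agent.Lib.MP_3e25b1_lc

attribute [local irreducible] Sig.and Sig.or Sig.imp Sig.all Sig.ex Sig.top Sig.bot tv Ent

theorem Ent.dv_intro {I : Type} (χ : I → Sig) {P : I → Prop} (h : ∀ i, P i) :
    Ent χ (fun i => dv (P i)) := by
  have k := (Ent.ex_intro (J := fun i : I => PLift (P i)) (fun _ _ => Sig.top)).reindex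
    (fun i : I => (⟨i, ⟨h i⟩⟩ : Σ i : I, PLift (P i)))
  exact (Ent.top_intro χ).trans k

theorem Ent.dv_elim {I : Type} {χ ψ : I → Sig} {P : I → Prop}
    (h : Ent χ (fun i => dv (P i)))
    (h' : Ent (fun p : (Σ i : I, PLift (P i)) => χ p.1) (fun p => ψ p.1)) : Ent χ ψ := by
  have k : Ent (fun i => dv (P i)) (fun i => (χ i).imp (ψ i)) := by
    apply Ent.ex_elim (J := fun i : I => PLift (P i)) (φ := fun _ _ => Sig.top)
    apply Ent.imp_intro
    exact (Ent.and_right _ _).trans h'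
  exact (h.trans k).mp (Ent.refl χ)

theorem Ent.dv_mono {I : Type} {χ : I → Sig} {P Q : I → Prop} (h : Ent χ (fun i => dv (P i)))
    (hPQ : ∀ i, P i → Q i) : Ent χ (fun i => dv (Q i)) :=
  h.dv_elim (Ent.dv_intro _ (fun p => hPQ p.1 p.2.down))

theorem Ent.dv_and {I : Type} {χ : I → Sig} {P Q R : I → Prop} (h : Ent χ (fun i => dv (P i)))
    (h' : Ent χ (fun i => dv (Q i))) (hPQ : ∀ i, P i → Q i → R i) :
    Ent χ (fun i => dv (R i)) := by
  refine h.dv_elim ?_
  have h2 := h'.reindex (fun p : (Σ i : I, PLift (P i)) => p.1)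
  exact h2.dv_mono (fun p hq => hPQ p.1 p.2.down hq)

theorem const_symm (X : Type) :
    Ent (fun p : X × X => dv (p.1 = p.2)) (fun p => dv (p.2 = p.1)) :=
  (Ent.refl _).dv_mono (fun _ e => e.symm)

theorem const_trans (X : Type) :
    Ent (fun p : X × (X × X) => (dv (p.1 = p.2.1)).and (dv (p.2.1 = p.2.2)))
      (fun p => dv (p.1 = p.2.2)) := by
  have h := Ent.refl (fun p : X × (X × X) => (dv (p.1 = p.2.1)).and (dv (p.2.1 = p.2.2)))
  exact h.and_fst.dv_and h.and_snd (fun _ e e' => e.trans e')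

theorem constRel_strict {X Y : Type} (f : X → Y) :
    Ent (fun p : X × Y => dv (f p.1 = p.2))
      (fun p => (dv (p.1 = p.1)).and (dv (p.2 = p.2))) :=
  Ent.and_intro (Ent.dv_intro _ (fun _ => rfl)) (Ent.dv_intro _ (fun _ => rfl))

theorem constRel_ext {X Y : Type} (f : X → Y) :
    Ent (fun p : (X × X) × (Y × Y) =>
      (dv (f p.1.1 = p.2.1)).and ((dv (p.1.1 = p.1.2)).and (dv (p.2.1 = p.2.2))))
      (fun p => dv (f p.1.2 = p.2.2)) := by
  have h := Ent.refl (fun p : (X × X) × (Y × Y) =>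
    (dv (f p.1.1 = p.2.1)).and ((dv (p.1.1 = p.1.2)).and (dv (p.2.1 = p.2.2))))
  refine h.and_fst.dv_and (R := fun p : (X × X) × (Y × Y) => f p.1.2 = p.2.2)
    (h.and_snd.and_fst.dv_and h.and_snd.and_snd
      (R := fun p : (X × X) × (Y × Y) => p.1.1 = p.1.2 ∧ p.2.1 = p.2.2)
      (fun _ e e' => ⟨e, e'⟩)) ?_
  rintro p e ⟨e1, e2⟩
  rw [← e1, ← e2]; exact e

theorem constRel_single {X Y : Type} (f : X → Y) :
    Ent (fun p : X × (Y × Y) => (dv (f p.1 = p.2.1)).and (dv (f p.1 = p.2.2)))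
      (fun p => dv (p.2.1 = p.2.2)) := by
  have h := Ent.refl (fun p : X × (Y × Y) => (dv (f p.1 = p.2.1)).and (dv (f p.1 = p.2.2)))
  exact h.and_fst.dv_and h.and_snd (fun _ e e' => e.symm.trans e')

theorem constRel_total {X Y : Type} (f : X → Y) :
    Ent (fun x : X => dv (x = x)) (fun x => Sig.ex (fun y => dv (f x = y))) :=
  Ent.ex_witness f (Ent.dv_intro _ (fun _ => rfl))

end Pool.Agent.Lib.MP_3e25b1_lc
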