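import Pool.Agent.Lib.MP_3e25b1_lc.Topos
import Pool.Agent.Lib.MP_3e25b1_lc.DVLemmas

/-!
# The functor `X ↦ (X, ∃_δ ⊤)`
-/

set_option autoImplicit false

namespace Pool.Agent.Lib.MP_3e25b1_lc

open CategoryTheory

/-- The object `(X, ∃_δ ⊤)`. -/
def constObj (X : Type) : Dst where
  carrier := X
  eq x y := dv (x = y)
  symm := const_symm X
  trans := const_trans X

/-- The graph of `f` as a functional relation. -/
def constRel {X Y : Type} (f : X → Y) : FunRel (constObj X) (constObj Y) where
  rel x y := dv (f x = y)
  strict := constRel_strict f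
  ext := constRel_ext f
  single := constRel_single f
  total := constRel_total f

/-- The functor `X ↦ (X, ∃_δ ⊤)` from sets to `Dst`. -/
def constFunctor : Type ⥤ Dst where
  obj := constObj
  map f := (constRel f).hom
  map_id X := FunRel.hom_eq_iff.2 (Ent.refl _)
  map_comp {X Y Z} f g := by
    rw [FunRel.hom_comp, FunRel.hom_eq_iff]
    exact Ent.ex_witness (fun p : X × Z => f p.1)
      (Ent.and_intro (Ent.dv_intro _ (fun _ => rfl)) (Ent.refl _))

end Pool.Agent.Lib.MP_3e25b1_lc
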