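import Mathlib

/-!
# Natural numbers objects
-/

set_option autoImplicit false

namespace Pool.Agent.Lib.MP_3e25b1_lc

open CategoryTheory

universe w z

/-- `(N, z, s)` is a natural numbers object: `T` is terminal, and for all `a : T ⟶ A` and
`f : A ⟶ A` there is a unique `h : N ⟶ A` with `z ≫ h = a` and `s ≫ h = h ≫ f`. -/
def IsNNO {C : Type w} [Category.{z} C] {T N : C} (z : T ⟶ N) (s : N ⟶ N) : Prop :=
  Nonempty (Limits.IsTerminal T) ∧
    ∀ (A : C) (a : T ⟶ A) (f : A ⟶ A), ∃! h : N ⟶ A, z ≫ h = a ∧ s ≫ h = h ≫ f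

end Pool.Agent.Lib.MP_3e25b1_lc
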