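import Pool.Agent.Lib.MP_3e25b1_lc.Nabla
import Pool.Agent.Lib.MP_3e25b1_lc.NNODef

/-!
# No object with a globally valid existence predicate is a natural numbers object of `Dst`
-/

set_option autoImplicit false

namespace Pool.Agent.Lib.MP_3e25b1_lc

open CategoryTheory

/-! ## The predicate `st` -/

/-- The truth value of the standardness predicate at `m`: `(ℕ, {0}, {(A, 0) | m ∈ A})`. -/
def st (m : ℕ) : Sig where
  pos := Set.univ
  neg := {0}
  rel a b := m ∈ elts a ∧ b = 0
  dom h := ⟨fun _ _ => trivial, h.2⟩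
  up _ hsub h := ⟨hsub _ h.1, h.2⟩

theorem st_subst : Ent (fun p : ℕ × ℕ => (st p.1).and (tv (p.1 = p.2))) (fun p => st p.2) := by
  refine ent_intro_total (fun a => part 0 a) (fun _ _ => join (mk [0]) (mk [0]))
    (part_computable.comp (Computable.const 0) Computable.id) (Computable.const _) ?_
  rintro ⟨m, m'⟩ a ha
  refine ⟨fun _ _ => trivial, fun b hb => ⟨?_, ?_⟩⟩
  · refine join_mem_star.2 ⟨?_, ?_⟩ <;> (rw [single_mem_star]; rfl)
  · intro hc
    obtain ⟨_, h0⟩ := hc (Nat.pair 0 0) (mem_join.2 (by simp))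
    obtain ⟨_, h1⟩ := hc (Nat.pair 1 0) (mem_join.2 (by simp))
    simp only [Nat.unpair_pair, true_and, zero_ne_one, one_ne_zero, false_and, or_false,
      false_or] at h0 h1
    refine ⟨?_, hb⟩
    have e : m = m' := h1.1
    exact e ▸ h0.1

theorem st_succ : Ent (fun m : ℕ => st m) (fun m => st (m + 1)) := by
  refine ent_intro_total (fun a => mk ((elts a).map (fun x => x + 1))) (fun _ _ => mk [0])
    ?_ (Computable.const _) ?_
  · have h : Primrec (fun a : ℕ => Encodable.encode (((Denumerable.ofNat (List ℕ) a)).map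
        (fun x => x + 1))) := by
      refine Primrec.encode.comp ?_
      exact Primrec.list_map (Primrec.ofNat _) (Primrec.succ.comp Primrec.snd)
    exact h.to_comp
  · intro m a _
    refine ⟨fun _ _ => trivial, fun b hb => ⟨by rw [single_mem_star]; rfl, fun hc => ?_⟩⟩
    obtain ⟨h, _⟩ := hc 0 (mem_single.2 rfl)
    exact ⟨by rw [elts_mk]; exact List.mem_map.2 ⟨m, h, rfl⟩, hb⟩

theorem st_const (k : ℕ) {I : Type} (χ : I → Sig) : Ent χ (fun _ => st k) := by
  refine ent_intro_total (fun _ => mk [k]) (fun _ _ => mk []) (Computable.const _)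
    (Computable.const _) ?_
  intro i a _
  refine ⟨fun _ _ => trivial, fun b hb => ⟨nil_mem_star _, fun _ => ⟨mem_single.2 rfl, hb⟩⟩⟩

/-- The key lemma: a total relation from a set with globally valid existence to the
standard natural numbers has finite range. -/
theorem finite_range {X : Type} (h : X → ℕ → Sig)
    (h1 : Ent (fun _ : X => Sig.top) (fun x => Sig.ex (h x)))
    (h2 : Ent (fun p : X × ℕ => h p.1 p.2) (fun p => st p.2)) :
    ∃ D : List ℕ, Ent (fun _ : X => Sig.top)
      (fun x => Sig.ex (fun m => (h x m).and (tv (m ∈ D)))) := by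
  rcases isEmpty_or_nonempty X with hX | ⟨⟨x0⟩⟩
  · exact ⟨[], ⟨0, 0, fun i => isEmptyElim i, fun i => isEmptyElim i, fun i => isEmptyElim i⟩⟩
  obtain ⟨P, N, hP, hN, H⟩ := h1.elim
  obtain ⟨Q, K, hQ, hK, H2⟩ := h2.elim
  obtain ⟨B, hB, hB', _⟩ := H x0 (mk []) (nil_mem_star _)
  -- `B` works for all `x`
  have hBx : ∀ x, B ∈ star {a | ∃ m, a ∈ star (h x m).pos} ∧
      ∀ f ∈ (Sig.ex (h x)).neg, (Sig.ex (h x)).rel B f := by
    intro x
    obtain ⟨B2, hB2, hB2', hn⟩ := H x (mk []) (nil_mem_star _)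
    have := Part.mem_unique hB hB2
    subst this
    refine ⟨hB2', fun f hf => ?_⟩
    obtain ⟨s, _, hs, hr⟩ := hn f hf
    apply hr
    rw [mem_star_empty hs]
    intro c hc
    simp at hc
  have hd : ∀ b ∈ elts B, (Q b).Dom := by
    intro b hb
    obtain ⟨m, hm⟩ := (hBx x0).1 b hb
    obtain ⟨d, hd, _⟩ := H2 (x0, m) b hm
    exact Part.dom_iff_mem.2 ⟨d, hd⟩
  obtain ⟨D, _, hD⟩ := bigU_spec (fun _ b => Q b) 0 B hd
  refine ⟨elts D, ?_⟩
  obtain ⟨g, hg, hg'⟩ := exists_smn
    (f := fun f b => (app f (join b (mk []))).bind fun s => (K b 0).map fun k =>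
      mk (elts (part 0 s) ++ elts k)) (by
    refine Partrec.bind ?_ ?_
    · exact app_partrec.comp Computable.fst
        (join_computable.comp Computable.snd (Computable.const _))
    · have hk : Partrec (fun q : (ℕ × ℕ) × ℕ => K q.1.2 0) :=
        hK.comp (Computable.snd.comp Computable.fst) (Computable.const 0)
      refine Partrec.map hk ?_
      refine append_computable ?_ Computable.snd
      exact part_computable.comp (Computable.const 0) (Computable.snd.comp Computable.fst))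
  refine ent_intro_total (fun _ => mk ((elts B).map (fun b => join b (mk []))))
    (fun _ _ => mk []) (Computable.const _) (Computable.const _) ?_
  intro x a _
  have hmem : mk ((elts B).map (fun b => join b (mk []))) ∈
      (Sig.ex (fun m => (h x m).and (tv (m ∈ elts D)))).pp := by
    intro y hy
    rw [elts_mk, List.mem_map] at hy
    obtain ⟨b, hb, rfl⟩ := hy
    obtain ⟨m, hm⟩ := (hBx x).1 b hb
    exact ⟨m, join_mem_star.2 ⟨hm, nil_mem_star _⟩⟩
  refine ⟨hmem, ?_⟩
  intro f hf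
  refine ⟨nil_mem_star _, fun _ => ⟨hmem, hf, ?_⟩⟩
  have hgf : g f ∈ (Sig.ex (h x)).neg := by
    intro m b hb
    obtain ⟨s, hs, hs'⟩ := hf m (join b (mk [])) (join_mem_star.2 ⟨hb, nil_mem_star _⟩)
    obtain ⟨d, _, _, hk⟩ := H2 (x, m) b hb
    obtain ⟨k, hk1, hk2, _⟩ := hk 0 rfl
    refine ⟨mk (elts (part 0 s) ++ elts k), ?_, append_mem_star (part_zero_mem_star hs') hk2⟩
    rw [hg']
    exact Part.mem_bind hs (Part.mem_map _ hk1)
  obtain ⟨_, _, m, b, hb, hbm, hr⟩ := (hBx x).2 _ hgf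
  obtain ⟨s, hs, hs'⟩ := hf m (join b (mk [])) (join_mem_star.2 ⟨hbm, nil_mem_star _⟩)
  obtain ⟨d, hd1, _, hk⟩ := H2 (x, m) b hbm
  obtain ⟨k, hk1, hk2, hk3⟩ := hk 0 rfl
  have hr' := hr (mk (elts (part 0 s) ++ elts k)) (by
    rw [hg']
    exact Part.mem_bind hs (Part.mem_map _ hk1))
  have hmd : m ∈ elts d := by
    refine (hk3 fun c hc => hr' c ?_).1
    rw [elts_mk, List.mem_append]
    exact Or.inr hc
  have hmD : m ∈ elts D := (hD m).2 ⟨b, hb, d, hd1, hmd⟩
  refine ⟨m, join b (mk []), ?_, join_mem_star.2 ⟨hbm, nil_mem_star _⟩, ?_⟩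
  · rw [elts_mk]
    exact List.mem_map.2 ⟨b, hb, rfl⟩
  · intro s2 hs2 c hc
    have := Part.mem_unique hs hs2
    subst this
    refine ⟨join_mem_star.2 ⟨hbm, nil_mem_star _⟩, ?_⟩
    rcases hs' c hc with ⟨h0, _⟩ | ⟨h1', h1''⟩
    · left
      refine ⟨h0, ?_⟩
      rw [part_join_zero]
      apply hr'
      rw [elts_mk, List.mem_append]
      left
      rw [mem_part, ← h0, Nat.pair_unpair]
      exact hc
    · right
      refine ⟨h1', ?_⟩
      rw [part_join_one]
      exact ⟨hmD, nil_mem_star _, h1''⟩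

attribute [local irreducible] Sig.and Sig.or Sig.imp Sig.all Sig.ex Sig.top Sig.bot tv Ent st

theorem st_subst' {I : Type} {χ : I → Sig} {m m' : I → ℕ} (h : Ent χ (fun i => st (m i)))
    (h' : Ent χ (fun i => tv (m i = m' i))) : Ent χ (fun i => st (m' i)) :=
  (h.and_intro h').trans (st_subst.reindex (fun i => (m i, m' i)))

/-- The object `{m ∈ ∇ℕ | st(m)}`. -/
def stObj : Dst where
  carrier := ℕ
  eq m m' := (st m).and (tv (m = m'))
  symm := by
    have h := Ent.refl (fun p : ℕ × ℕ => (st p.1).and (tv (p.1 = p.2)))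
    exact (st_subst' h.and_fst h.and_snd).and_intro
      (h.and_snd.trans (Ent.tv_mono (fun _ e => e.symm)))
  trans := by
    have h := Ent.refl (fun p : ℕ × (ℕ × ℕ) => ((st p.1).and (tv (p.1 = p.2.1))).and
      ((st p.2.1).and (tv (p.2.1 = p.2.2))))
    exact h.and_fst.and_fst.and_intro ((Ent.tv_and h.and_fst.and_snd h.and_snd.and_snd).trans
      (Ent.tv_mono (fun _ e => e.1.trans e.2)))

/-- The successor map on `stObj`. -/
def stSucc : FunRel stObj stObj where
  rel := fun (m k : ℕ) => (st m).and (tv (m + 1 = k))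
  strict := by
    have h := Ent.refl (fun p : ℕ × ℕ => (st p.1).and (tv (p.1 + 1 = p.2)))
    have h1 : Ent (fun p : ℕ × ℕ => (st p.1).and (tv (p.1 + 1 = p.2)))
      (fun p => st (p.1 + 1)) := h.and_fst.trans (st_succ.reindex (fun p : ℕ × ℕ => p.1))
    exact (h.and_fst.and_intro (Ent.tv_intro _ (fun _ => rfl))).and_intro
      ((st_subst' h1 h.and_snd).and_intro (Ent.tv_intro _ (fun _ => rfl)))
  ext := by
    have h := Ent.refl (fun p : (ℕ × ℕ) × (ℕ × ℕ) => ((st p.1.1).and (tv (p.1.1 + 1 = p.2.1))).and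
      (((st p.1.1).and (tv (p.1.1 = p.1.2))).and ((st p.2.1).and (tv (p.2.1 = p.2.2)))))
    refine (st_subst' h.and_fst.and_fst h.and_snd.and_fst.and_snd).and_intro ?_
    refine (Ent.tv_and h.and_fst.and_snd (Ent.tv_and h.and_snd.and_fst.and_snd
      h.and_snd.and_snd.and_snd)).trans (Ent.tv_mono ?_)
    rintro p ⟨e1, e2, e3⟩
    have e4 : p.1.2 + 1 = p.2.2 := by rw [← e2, e1, e3]
    exact e4
  single := by
    have h := Ent.refl (fun p : ℕ × (ℕ × ℕ) => ((st p.1).and (tv (p.1 + 1 = p.2.1))).and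
      ((st p.1).and (tv (p.1 + 1 = p.2.2))))
    have h1 : Ent _ (fun p : ℕ × (ℕ × ℕ) => st (p.1 + 1)) :=
      h.and_fst.and_fst.trans (st_succ.reindex (fun p : ℕ × (ℕ × ℕ) => p.1))
    exact (st_subst' h1 h.and_fst.and_snd).and_intro
      ((Ent.tv_and h.and_fst.and_snd h.and_snd.and_snd).trans
        (Ent.tv_mono (fun _ e => e.1.symm.trans e.2)))
  total := by
    have h := Ent.refl (fun m : ℕ => (st m).and (tv (m = m)))
    exact Ent.ex_witness (fun m : ℕ => m + 1)
      (h.and_fst.and_intro (Ent.tv_intro _ (fun _ => rfl)))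

/-- The numeral `k` as a global element of `stObj`. -/
def stPt (k : ℕ) : FunRel (nablaObj PUnit) stObj where
  rel _ m := (st m).and (tv (m = k))
  strict := by
    have h := Ent.refl (fun p : PUnit × ℕ => (st p.2).and (tv (p.2 = k)))
    exact (Ent.tv_intro _ (fun _ => rfl)).and_intro
      (h.and_fst.and_intro (Ent.tv_intro _ (fun _ => rfl)))
  ext := by
    have h := Ent.refl (fun p : (PUnit × PUnit) × (ℕ × ℕ) => ((st p.2.1).and (tv (p.2.1 = k))).and
      ((tv (p.1.1 = p.1.2)).and ((st p.2.1).and (tv (p.2.1 = p.2.2)))))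
    refine (st_subst' h.and_fst.and_fst h.and_snd.and_snd.and_snd).and_intro ?_
    exact (Ent.tv_and h.and_fst.and_snd h.and_snd.and_snd.and_snd).trans
      (Ent.tv_mono (fun _ e => e.2.symm.trans e.1))
  single := by
    have h := Ent.refl (fun p : PUnit × (ℕ × ℕ) => ((st p.2.1).and (tv (p.2.1 = k))).and
      ((st p.2.2).and (tv (p.2.2 = k))))
    exact h.and_fst.and_fst.and_intro ((Ent.tv_and h.and_fst.and_snd h.and_snd.and_snd).trans
      (Ent.tv_mono (fun _ e => e.1.trans e.2.symm)))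
  total := Ent.ex_witness (fun _ => k) ((st_const k _).and_intro (Ent.tv_intro _ (fun _ => rfl)))

theorem stPt_succ (k : ℕ) : (stPt k).hom ≫ stSucc.hom = (stPt (k + 1)).hom := by
  rw [FunRel.hom_comp, FunRel.hom_eq_iff]
  refine Ent.ex_cases (Ent.refl _) ?_
  have h := Ent.newhyp (fun p : PUnit × ℕ => ((stPt k).comp stSucc).rel p.1 p.2)
    (fun p (m : ℕ) => ((st m).and (tv (m = k))).and ((st m).and (tv (m + 1 = p.2))))
  have h1 : Ent _ (fun q : (PUnit × ℕ) × ℕ => st (q.2 + 1)) :=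
    h.and_fst.and_fst.trans (st_succ.reindex (fun q : (PUnit × ℕ) × ℕ => q.2))
  refine (st_subst' h1 h.and_snd.and_snd).and_intro ?_
  exact (Ent.tv_and h.and_fst.and_snd h.and_snd.and_snd).trans
    (Ent.tv_mono (fun _ e => by rw [← e.2, e.1]))

/-- No object of `Dst` whose existence predicate is globally valid is a natural numbers
object. -/
theorem not_isNNO (X : Dst) (hX : Ent (fun _ : X.carrier => Sig.top) (fun x => X.eq x x))
    {T : Dst} (z : T ⟶ X) (s : X ⟶ X) : ¬ IsNNO z s := by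
  rintro ⟨⟨hT⟩, hN⟩
  obtain ⟨h1T⟩ : Nonempty (Limits.IsTerminal (nablaObj PUnit)) := nabla_unit_terminal
  let t : nablaObj PUnit ⟶ T := hT.from _
  let u : T ⟶ nablaObj PUnit := h1T.from _
  have htu : t ≫ u = 𝟙 _ := h1T.hom_ext _ _
  obtain ⟨h, ⟨hz, hs⟩, _⟩ := hN stObj (u ≫ (stPt 0).hom) stSucc.hom
  -- the points `z ≫ s^k`
  have key : ∀ k : ℕ, ∃ F : nablaObj PUnit ⟶ X, F ≫ h = (stPt k).hom := by
    intro k
    induction k with
    | zero =>
      refine ⟨t ≫ z, ?_⟩
      rw [Category.assoc, hz, ← Category.assoc, htu, Category.id_comp]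
    | succ k ih =>
      obtain ⟨F, hF⟩ := ih
      refine ⟨F ≫ s, ?_⟩
      rw [Category.assoc, hs, ← Category.assoc, hF, stPt_succ]
  obtain ⟨H, rfl⟩ := FunRel.exists_rep h
  have hst : Ent (fun p : X.carrier × ℕ => H.rel p.1 p.2) (fun p => st p.2) :=
    (H.strict_right (x := fun p : X.carrier × ℕ => p.1) (y := fun p => p.2)
      (Ent.refl _)).and_fst
  obtain ⟨D, hD⟩ := finite_range H.rel (H.total' hX) hst
  have hmem : ∀ k : ℕ, k ∈ D := by
    intro k
    obtain ⟨F, hF⟩ := key k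
    obtain ⟨F, rfl⟩ := FunRel.exists_rep F
    have hF' := FunRel.hom_eq_iff.1 (show (F.comp H).hom = (stPt k).hom from hF)
    have h0 : Ent (fun _ : PUnit => Sig.top) (fun p => (nablaObj PUnit).eq p p) :=
      Ent.tv_intro _ (fun _ => rfl)
    have h1 := F.total' (x := fun p : PUnit => p) h0
    have h2 : Ent (fun _ : PUnit => Sig.top) (fun _ => tv (k ∈ D)) := by
      refine Ent.ex_cases h1 ?_
      have h3 := Ent.newhyp (fun _ : PUnit => Sig.top) (fun p (x : X.carrier) => F.rel p x)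
      have h4 : Ent (fun p : PUnit × X.carrier => Sig.top.and (F.rel p.1 p.2))
          (fun p => Sig.ex (fun m => (H.rel p.2 m).and (tv (m ∈ D)))) :=
        (Ent.top_intro _).trans (hD.reindex (fun p : PUnit × X.carrier => p.2))
      refine Ent.ex_cases h4 ?_
      have h5 := h3.lift (fun p (m : ℕ) => (H.rel p.2 m).and (tv (m ∈ D)))
      have h6 := Ent.newhyp (fun p : PUnit × X.carrier => Sig.top.and (F.rel p.1 p.2))
        (fun p (m : ℕ) => (H.rel p.2 m).and (tv (m ∈ D)))
      have h7 : Ent (fun q : (PUnit × X.carrier) × ℕ =>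
          (Sig.top.and (F.rel q.1.1 q.1.2)).and ((H.rel q.1.2 q.2).and (tv (q.2 ∈ D))))
          (fun q => (F.comp H).rel q.1.1 q.2) :=
        Ent.ex_witness (fun q => q.1.2) (h5.and_intro h6.and_fst)
      have h8 := h7.trans (hF'.reindex (fun q : (PUnit × X.carrier) × ℕ => (q.1.1, q.2)))
      refine (Ent.tv_and h8.and_snd h6.and_snd).trans (Ent.tv_mono ?_)
      rintro q ⟨e1, e2⟩
      rw [← e1]
      exact e2
    exact h2.tv_reflect PUnit.unit
  have hfin : (Set.univ : Set ℕ).Finite :=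
    (List.finite_toSet D).subset (fun k _ => hmem k)
  exact Set.infinite_univ hfin

end Pool.Agent.Lib.MP_3e25b1_lc
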