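import Pool.Agent.Lib.MP_3e25b1_lc.Forcing

/-!
# A formula
-/

set_option autoImplicit false

namespace Pool.Agent.Lib.MP_3e25b1_lc

/-- The formula `∀ z, z = x ∨ z = y` with free variables `x = x_0`, `y = x_1`. -/
def twoFml : Fml FirstOrder.Language.empty 2 :=
  .all (.or (.equal (.var 2) (.var 0)) (.equal (.var 2) (.var 1)))

end Pool.Agent.Lib.MP_3e25b1_lc
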