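import Pool.Agent.Lib.MP_3e25b1_lc.Sub
import Pool.Agent.Lib.MP_3e25b1_lc.NNO
import Pool.Agent.Lib.MP_3e25b1_lc.TwoFml
import Pool.Agent.Lib.MP_3e25b1_lc.ConstDef

/-!
# Properties of the functor `X ↦ (X, ∃_δ ⊤)`
-/

set_option autoImplicit false

namespace Pool.Agent.Lib.MP_3e25b1_lc

open CategoryTheory

section irr

attribute [local irreducible] Sig.and Sig.or Sig.imp Sig.all Sig.ex Sig.top Sig.bot tv Ent

theorem constFunctor_map {X Y : Type} (f : X → Y) :
    constFunctor.map (↾f) = (constRel f).hom := rfl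

theorem const_not_isNNO {T : Dst} (z : T ⟶ constObj ℕ) (s : constObj ℕ ⟶ constObj ℕ) :
    ¬ IsNNO z s :=
  not_isNNO (constObj ℕ) (Ent.dv_intro _ (fun _ => rfl)) z s

theorem nabla_not_isNNO {T : Dst} (z : T ⟶ nablaObj ℕ) (s : nablaObj ℕ ⟶ nablaObj ℕ) :
    ¬ IsNNO z s :=
  not_isNNO (nablaObj ℕ) (Ent.tv_intro _ (fun _ => rfl)) z s

theorem comp_constRel_intro {U : Dst} {X Y : Type} {F : FunRel U (constObj X)} {f : X → Y}
    {I : Type} {χ : I → Sig} {u : I → U.carrier} {x : I → X} {y : I → Y}
    (h : Ent χ (fun i => F.rel (u i) (x i))) (h' : Ent χ (fun i => dv (f (x i) = y i))) :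
    Ent χ (fun i => (F.comp (constRel f)).rel (u i) (y i)) :=
  Ent.ex_witness x (h.and_intro h')

/-- If `F ≫ id = F ≫ const c` then `F(u, x)` entails `c = x`. -/
theorem dv_of_comp_eq {U : Dst} {X : Type} {F : FunRel U (constObj X)} {c : X}
    (h : F.hom ≫ (constRel (fun x : X => x)).hom = F.hom ≫ (constRel (fun _ : X => c)).hom) :
    Ent (fun p : U.carrier × X => F.rel p.1 p.2) (fun p => dv (c = p.2)) := by
  rw [FunRel.hom_comp, FunRel.hom_comp, FunRel.hom_eq_iff] at h
  have h1 : Ent (fun p : U.carrier × X => F.rel p.1 p.2)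
      (fun p => (F.comp (constRel (fun x : X => x))).rel p.1 p.2) :=
    comp_constRel_intro (Ent.refl _) (Ent.dv_intro _ (fun _ => rfl))
  refine Ent.ex_cases (h1.trans h) ?_
  exact (Ent.newhyp (fun p : U.carrier × X => F.rel p.1 p.2)
    (fun p (x : X) => (F.rel p.1 x).and ((constRel (fun _ : X => c)).rel x p.2))).and_snd

end irr

/-- The disjunction `x = 0 ∨ x = 1` is not uniformly valid on `(2, ∃_δ ⊤)`. -/
theorem not_ent_or : ¬ Ent (fun _ : Bool => Sig.top)
    (fun m => (dv (false = m)).or (dv (true = m))) := by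
  intro h
  obtain ⟨P, N, _, _, H⟩ := h.elim
  obtain ⟨B, hB, hB1, hr⟩ := H false (mk []) (nil_mem_star _)
  obtain ⟨B', hB', hB2, _⟩ := H true (mk []) (nil_mem_star _)
  have := Part.mem_unique hB hB'
  subst this
  obtain ⟨c0, hc0⟩ := exists_index_total (f := fun _ => mk []) (Computable.const _)
  obtain ⟨f, hf⟩ := exists_index_total (f := fun _ => mk [c0]) (Computable.const _)
  obtain ⟨g, hg⟩ := exists_index_total (f := fun _ => mk [0]) (Computable.const _)
  have hn : Nat.pair f g ∈ ((dv (false = false)).or (dv (true = false))).neg := by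
    refine pair_mem_prodS.2 ⟨?_, ?_⟩
    · intro x _
      refine ⟨mk [c0], by rw [hf]; exact Part.mem_some _, ?_⟩
      rw [single_mem_star]
      intro _ y _
      exact ⟨mk [], by rw [hc0]; exact Part.mem_some _, nil_mem_star _⟩
    · intro x _
      refine ⟨mk [0], by rw [hg]; exact Part.mem_some _, ?_⟩
      rw [single_mem_star]
      rintro ⟨j⟩
      simp at j
  obtain ⟨s, _, hs, hr'⟩ := hr _ hn
  rw [mem_star_empty hs] at hr'
  obtain ⟨_, _, h3⟩ := hr' (by intro c hc; simp at hc)
  simp only [Nat.unpair_pair] at h3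
  rcases h3 with ⟨a, ha, h3⟩ | ⟨a, _, h3⟩
  · -- `a` is the empty set
    have ha' : a = mk [] := by
      rcases hB2 _ ha with ⟨_, h⟩ | ⟨h, _⟩
      · simp only [Nat.unpair_pair] at h
        have : elts a = [] := by
          rw [List.eq_nil_iff_forall_not_mem]
          intro x hx
          obtain ⟨⟨j⟩, _⟩ := h x hx
          simp at j
        rw [← mk_elts a, this]
      · simp at h
    subst ha'
    obtain ⟨_, _, _, a', ha', _⟩ := h3 (mk [c0]) (by rw [hf]; exact Part.mem_some _) c0
      (mem_single.2 rfl)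
    simp at ha'
  · obtain ⟨_, _, ⟨j⟩, _⟩ := h3 (mk [0]) (by rw [hg]; exact Part.mem_some _) 0
      (mem_single.2 rfl)
    simp at j

section irr2

attribute [local irreducible] Sig.and Sig.or Sig.imp Sig.all Sig.ex Sig.top Sig.bot tv Ent dv

theorem extPred_or : ExtPred (constObj Bool)
    (fun m => (dv (false = m)).or (dv (true = m))) := by
  have h0 := Ent.refl (fun p : Bool × Bool =>
    ((dv (false = p.1)).or (dv (true = p.1))).and (dv (p.1 = p.2)))
  refine h0.and_fst.or_cases ?_ ?_
  · apply Ent.or_inl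
    exact (Ent.hyp _ _).dv_and (h0.and_snd.weaken _) (fun _ e e' => e.trans e')
  · apply Ent.or_inr
    exact (Ent.hyp _ _).dv_and (h0.and_snd.weaken _) (fun _ e e' => e.trans e')

theorem twoFml_not_forced [FirstOrder.Language.empty.Structure Bool] (a : Fin 2 → Bool) (h0 : a 0 = false) (h1 : a 1 = true) :
    ¬ Forces constFunctor Bool twoFml (constFunctor.map (↾fun _ : PUnit.{1} => a)) := by
  intro h
  have hb := h (constFunctor.obj Bool) (constFunctor.map (↾fun _ : Bool => PUnit.unit))
    (constFunctor.map (↾fun m : Bool => (Fin.snoc a m : Fin 3 → Bool))) (by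
      refine (Functor.map_comp _ _ _).symm.trans (Eq.trans ?_ (Functor.map_comp _ _ _))
      congr 1
      ext m
      simp)
  obtain ⟨V, W, p, q, hpq, hp, hq⟩ := hb
  obtain ⟨P, rfl⟩ := FunRel.exists_rep p
  obtain ⟨Q, rfl⟩ := FunRel.exists_rep q
  have hP : P.hom ≫ (constRel (fun x : Bool => x)).hom =
      P.hom ≫ (constRel (fun _ : Bool => false)).hom := by
    have e1 : constFunctor.map (↾fun m : Bool => (Fin.snoc a m : Fin 3 → Bool)) ≫
        constFunctor.map (↾fun b : Fin 3 → Bool => b 2) = (constRel (fun x : Bool => x)).hom := by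
      rw [← Functor.map_comp, ← constFunctor_map]
      congr 1
    have e2 : constFunctor.map (↾fun m : Bool => (Fin.snoc a m : Fin 3 → Bool)) ≫
        constFunctor.map (↾fun b : Fin 3 → Bool => b 0) =
        (constRel (fun _ : Bool => false)).hom := by
      rw [← Functor.map_comp, ← constFunctor_map]
      congr 1
      ext m
      exact h0
    exact (congrArg (fun k => P.hom ≫ k) e1.symm).trans ((Category.assoc _ _ _).symm.trans
      (Eq.trans hp ((Category.assoc _ _ _).trans (congrArg (fun k => P.hom ≫ k) e2))))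
  have hQ : Q.hom ≫ (constRel (fun x : Bool => x)).hom =
      Q.hom ≫ (constRel (fun _ : Bool => true)).hom := by
    have e1 : constFunctor.map (↾fun m : Bool => (Fin.snoc a m : Fin 3 → Bool)) ≫
        constFunctor.map (↾fun b : Fin 3 → Bool => b 2) = (constRel (fun x : Bool => x)).hom := by
      rw [← Functor.map_comp, ← constFunctor_map]
      congr 1
    have e2 : constFunctor.map (↾fun m : Bool => (Fin.snoc a m : Fin 3 → Bool)) ≫
        constFunctor.map (↾fun b : Fin 3 → Bool => b 1) =
        (constRel (fun _ : Bool => true)).hom := by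
      rw [← Functor.map_comp, ← constFunctor_map]
      congr 1
      ext m
      exact h1
    exact (congrArg (fun k => Q.hom ≫ k) e1.symm).trans ((Category.assoc _ _ _).symm.trans
      (Eq.trans hq ((Category.assoc _ _ _).trans (congrArg (fun k => Q.hom ≫ k) e2))))
  have k1 := (dv_of_comp_eq hP).or_inl (fun p => dv (true = p.2))
  have k2 := (dv_of_comp_eq hQ).or_inr (fun p => dv (false = p.2))
  have k3 := hpq _ _ (comp_chi_eq (hA := extPred_or) k1) (comp_chi_eq (hA := extPred_or) k2)
  have k4 := ent_of_chi_eq (hA := extPred_or) k3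
  have k5 : Ent (fun _ : Bool => Sig.top) (fun m => (constObj Bool).eq m m) :=
    Ent.dv_intro _ (fun _ => rfl)
  exact not_ent_or (k5.trans k4)

theorem twoFml_sat [FirstOrder.Language.empty.Structure Bool] (a : Fin 2 → Bool)
    (h0 : a 0 = false) (h1 : a 1 = true) : twoFml.Sat Bool a := by
  intro m
  show (Fin.snoc a m : Fin 3 → Bool) 2 = (Fin.snoc a m : Fin 3 → Bool) 0 ∨
    (Fin.snoc a m : Fin 3 → Bool) 2 = (Fin.snoc a m : Fin 3 → Bool) 1
  have e2 : (Fin.snoc a m : Fin 3 → Bool) 2 = m := rfl
  have e0 : (Fin.snoc a m : Fin 3 → Bool) 0 = a 0 := rfl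
  have e1 : (Fin.snoc a m : Fin 3 → Bool) 1 = a 1 := rfl
  rw [e2, e0, e1, h0, h1]
  cases m <;> simp

end irr2

/-- The equality predicate with truth `(∅, ∅, ∅)` on the diagonal and falsity
`(∅, {0}, ∅)` off it is not transitive on a set with two elements, so it does not define an
object of `Dst`. -/
theorem literal_not_transitive : ¬ Ent
    (fun p : Bool × (Bool × Bool) => (if p.1 = p.2.1 then Sig.top else Sig.bot).and
      (if p.2.1 = p.2.2 then Sig.top else Sig.bot))
    (fun p => if p.1 = p.2.2 then Sig.top else Sig.bot) := by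
  intro h
  obtain ⟨P, N, _, _, H⟩ := h.elim
  obtain ⟨x, _, _, h1⟩ := H (false, (true, true)) (mk []) (nil_mem_star _)
  obtain ⟨y, _, _, h2⟩ := H (false, (false, true)) (mk []) (nil_mem_star _)
  obtain ⟨s, hs, hs1, hr⟩ := h1 0 (by simp [Sig.bot])
  obtain ⟨t, ht, ht1, _⟩ := h2 0 (by simp [Sig.bot])
  have := Part.mem_unique hs ht
  subst this
  have he : s = mk [] := by
    have : elts s = [] := by
      rw [List.eq_nil_iff_forall_not_mem]
      intro c hc
      have c1 := hs1 c hc
      have c2 := ht1 c hc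
      simp [Sig.and, Sig.bot, Sig.top, sumS] at c1 c2
      omega
    rw [← mk_elts s, this]
  subst he
  have := hr (by intro c hc; simp at hc)
  simp [Sig.bot] at this

end Pool.Agent.Lib.MP_3e25b1_lc
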