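import Pool.Agent.Lib.MP_3e25b1_lc.Defs

/-!
# Truth and falsity
-/

set_option autoImplicit false

namespace Pool.Agent.Lib.MP_3e25b1_lc

/-- Truth: `(∅, ∅, ∅)`. -/
def Sig.top : Sig where
  pos := ∅
  neg := ∅
  rel _ _ := False
  dom h := h.elim
  up _ _ h := h

/-- Falsity: `(∅, {0}, ∅)`. -/
def Sig.bot : Sig where
  pos := ∅
  neg := {0}
  rel _ _ := False
  dom h := h.elim
  up _ _ h := h

end Pool.Agent.Lib.MP_3e25b1_lc
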