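import Pool.Agent.Lib.MP_3e25b1_lc.Conn
import Pool.Agent.Lib.MP_3e25b1_lc.Truth

/-!
# The predicates `∃_u ⊤`
-/

set_option autoImplicit false

namespace Pool.Agent.Lib.MP_3e25b1_lc

/-- The value at a point of the predicate `∃_u ⊤`, where `P` is the proposition that the
fibre of `u` over that point is inhabited (`u` injective). -/
def dv (P : Prop) : Sig := Sig.ex (fun _ : PLift P => Sig.top)

end Pool.Agent.Lib.MP_3e25b1_lc
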