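import Mathlib

/-!
# Kleene application, codes of finite sets, `Σ_st` and entailment
-/

set_option autoImplicit false

namespace Pool.Agent.Lib.MP_3e25b1_lc

/-- Kleene application `e(x)`: the value at `x` of the function with index `e`
(an index being a number coding one of Mathlib's codes for unary functions computable
in the sense of `Nat.Partrec`). -/
def app (e x : ℕ) : Part ℕ := (Denumerable.ofNat Nat.Partrec.Code e).eval x

/-- The finite set with code `n`, as a list of its elements. -/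
def elts (n : ℕ) : List ℕ := Denumerable.ofNat (List ℕ) n

/-- A code of the finite set listed by `l`. -/
def mk (l : List ℕ) : ℕ := Encodable.encode l

/-- `X^*`: the set of codes of finite subsets of `X`. -/
def star (X : Set ℕ) : Set ℕ := {n | ∀ x ∈ elts n, x ∈ X}

/-- `X → Y`: the indices `e` such that `e(x)` is defined and in `Y` for all `x ∈ X`. -/
def arr (X Y : Set ℕ) : Set ℕ := {e | ∀ x ∈ X, ∃ y ∈ app e x, y ∈ Y}

/-- `X × Y`: the set of (codes of) pairs. -/
def prodS (X Y : Set ℕ) : Set ℕ := {n | n.unpair.1 ∈ X ∧ n.unpair.2 ∈ Y}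

/-- `X + Y`: the set of the pairs `(0,x)`, `x ∈ X`, and `(1,y)`, `y ∈ Y`. -/
def sumS (X Y : Set ℕ) : Set ℕ :=
  {n | (n.unpair.1 = 0 ∧ n.unpair.2 ∈ X) ∨ (n.unpair.1 = 1 ∧ n.unpair.2 ∈ Y)}

/-- From a code of a finite set `A` of pairs, a code of `{x | (i, x) ∈ A}`. -/
def part (i a : ℕ) : ℕ :=
  mk ((elts a).filterMap fun n => if n.unpair.1 = i then some n.unpair.2 else none)

/-- `Σ_st`: triples `p = (X, Y, R)` with `X, Y ⊆ ℕ` and `R ⊆ X^* × Y` upward closed in the
first coordinate. -/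
structure Sig where
  /-- `p^+ = X` -/
  pos : Set ℕ
  /-- `p^- = Y` -/
  neg : Set ℕ
  /-- `p(a, b)`, that is `R(a, b)` -/
  rel : ℕ → ℕ → Prop
  /-- `R ⊆ X^* × Y` -/
  dom : ∀ {a b : ℕ}, rel a b → a ∈ star pos ∧ b ∈ neg
  /-- `R` is upward closed in the first coordinate -/
  up : ∀ {a a' b : ℕ}, a' ∈ star pos → (∀ x ∈ elts a, x ∈ elts a') → rel a b → rel a' b

/-- `p^{++} = X^*` -/
def Sig.pp (p : Sig) : Set ℕ := star p.pos

/-- Entailment `φ ⊢_I ψ` of predicates over the index set `I`. -/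
def Ent {I : Type} (φ ψ : I → Sig) : Prop :=
  ∃ ep em : ℕ,
    (∀ i, ep ∈ arr (φ i).pp (ψ i).pp) ∧
    (∀ i, em ∈ arr (prodS (φ i).pp (ψ i).neg) (star (φ i).neg)) ∧
    ∀ i, ∀ a ∈ (φ i).pp, ∀ b ∈ (ψ i).neg,
      ∀ a' ∈ app ep a, ∀ s ∈ app em (Nat.pair a b),
        (∀ c ∈ elts s, (φ i).rel a c) → (ψ i).rel a' b

end Pool.Agent.Lib.MP_3e25b1_lc
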