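import Mathlib

/-!
# First-order formulas, their classical meaning, and their meaning in a topos

`Forces F φ α` is the Kripke-Joyal semantics, in a category `C`, of the formula `φ` in the
structure `F(M)`, where `F : Sets → C` is a functor (preserving finite products) and `M` is a
first-order structure in sets.
-/

set_option autoImplicit false

namespace Pool.Agent.Lib.MP_3e25b1_lc

open CategoryTheory FirstOrder

universe u v w z

/-- First-order formulas over `L` with free variables among `x_0, ..., x_{n-1}`; the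
connectives and quantifiers are all primitive (`¬ φ` is `φ → ⊥`). A quantifier binds the
last variable. -/
inductive Fml (L : FirstOrder.Language.{u, v}) : ℕ → Type (max u v)
  /-- falsity -/
  | falsum {n : ℕ} : Fml L n
  /-- equality of terms -/
  | equal {n : ℕ} (t₁ t₂ : L.Term (Fin n)) : Fml L n
  /-- a relation symbol applied to terms -/
  | rel {n k : ℕ} (R : L.Relations k) (ts : Fin k → L.Term (Fin n)) : Fml L n
  /-- conjunction -/
  | and {n : ℕ} (φ ψ : Fml L n) : Fml L n
  /-- disjunction -/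
  | or {n : ℕ} (φ ψ : Fml L n) : Fml L n
  /-- implication -/
  | imp {n : ℕ} (φ ψ : Fml L n) : Fml L n
  /-- universal quantification over the last variable -/
  | all {n : ℕ} (φ : Fml L (n + 1)) : Fml L n
  /-- existential quantification over the last variable -/
  | ex {n : ℕ} (φ : Fml L (n + 1)) : Fml L n

variable {L : FirstOrder.Language.{u, v}}

/-- Classical (Tarski) satisfaction `M ⊨ φ(a)`. -/
def Fml.Sat (M : Type) [L.Structure M] : {n : ℕ} → Fml L n → (Fin n → M) → Prop
  | _, .falsum, _ => False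
  | _, .equal t₁ t₂, a => t₁.realize a = t₂.realize a
  | _, .rel R ts, a => FirstOrder.Language.Structure.RelMap R (fun i => (ts i).realize a)
  | _, .and φ ψ, a => Sat M φ a ∧ Sat M ψ a
  | _, .or φ ψ, a => Sat M φ a ∨ Sat M ψ a
  | _, .imp φ ψ, a => Sat M φ a → Sat M ψ a
  | _, .all φ, a => ∀ m : M, Sat M φ (Fin.snoc a m)
  | _, .ex φ, a => ∃ m : M, Sat M φ (Fin.snoc a m)

/-- Two morphisms with the same codomain are jointly epimorphic. -/
def JointlyEpi {C : Type w} [Category.{z} C] {V W U : C} (p : V ⟶ U) (q : W ⟶ U) : Prop :=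
  ∀ ⦃Z : C⦄ (f g : U ⟶ Z), p ≫ f = p ≫ g → q ≫ f = q ≫ g → f = g

/-- Kripke-Joyal semantics: `U ⊩ φ(α)` for a generalized element `α : U ⟶ F(M^n)` of the
`n`-th power of the structure `F(M)`. Here a term `t` is interpreted by `F` applied to the
operation of `M` it defines, and a relation `R ⊆ M^k` of the structure by the subobject
`F(R)` of `F(M^k)`. -/
def Forces {C : Type w} [Category.{z} C] (F : Type ⥤ C) (M : Type) [L.Structure M] :
    {n : ℕ} → Fml L n → {U : C} → (U ⟶ F.obj (Fin n → M)) → Prop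
  | _, .falsum, U, _ => Nonempty (Limits.IsInitial U)
  | _, .equal t₁ t₂, _, α => α ≫ F.map (↾fun a : Fin _ → M => (t₁.realize a : M)) =
      α ≫ F.map (↾fun a : Fin _ → M => (t₂.realize a : M))
  | _, .rel (k := k) R ts, U, α =>
      ∃ ρ : U ⟶ F.obj {b : Fin k → M // FirstOrder.Language.Structure.RelMap R b},
        ρ ≫ F.map (↾fun b : {b : Fin k → M // FirstOrder.Language.Structure.RelMap R b} =>
            (b.val : Fin k → M)) =
          α ≫ F.map (↾fun (a : Fin _ → M) (i : Fin k) => ((ts i).realize a : M))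
  | _, .and φ ψ, _, α => Forces F M φ α ∧ Forces F M ψ α
  | _, .or φ ψ, U, α => ∃ (V W : C) (p : V ⟶ U) (q : W ⟶ U), JointlyEpi p q ∧
      Forces F M φ (p ≫ α) ∧ Forces F M ψ (q ≫ α)
  | _, .imp φ ψ, U, α => ∀ (V : C) (p : V ⟶ U), Forces F M φ (p ≫ α) → Forces F M ψ (p ≫ α)
  | n, .all φ, U, α => ∀ (V : C) (p : V ⟶ U) (β : V ⟶ F.obj (Fin (n + 1) → M)),
      β ≫ F.map (↾fun (b : Fin (n + 1) → M) (i : Fin n) => b i.castSucc) = p ≫ α → Forces F M φ β
  | n, .ex φ, U, α => ∃ (V : C) (p : V ⟶ U) (β : V ⟶ F.obj (Fin (n + 1) → M)), Epi p ∧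
      β ≫ F.map (↾fun (b : Fin (n + 1) → M) (i : Fin n) => b i.castSucc) = p ≫ α ∧ Forces F M φ β

end Pool.Agent.Lib.MP_3e25b1_lc
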