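import Pool.Agent.Lib.MP_3e25b1_lc.Defs

/-!
# Computability facts
-/

set_option autoImplicit false

namespace Pool.Agent.Lib.MP_3e25b1_lc

open Nat.Partrec (Code)

@[simp] theorem elts_mk (l : List ℕ) : elts (mk l) = l := by
  simp [elts, mk]

/-! ## Computability facts -/

theorem app_partrec : Partrec₂ app := by
  have h : Partrec₂ Code.eval := Code.eval_part
  exact (h.comp ((Computable.ofNat Code).comp Computable.fst) Computable.snd)

theorem exists_index {f : ℕ →. ℕ} (hf : Partrec f) : ∃ e, ∀ x, app e x = f x := by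
  obtain ⟨c, hc⟩ := Code.exists_code.1 (Partrec.nat_iff.1 hf)
  exact ⟨Encodable.encode c, fun x => by simp [app, hc]⟩

theorem exists_index_total {f : ℕ → ℕ} (hf : Computable f) :
    ∃ e, ∀ x, app e x = Part.some (f x) := by
  obtain ⟨e, he⟩ := exists_index hf.partrec
  exact ⟨e, fun x => by simp [he]⟩

/-- The s-m-n theorem. -/
theorem exists_smn {f : ℕ → ℕ →. ℕ} (hf : Partrec₂ f) :
    ∃ g : ℕ → ℕ, Computable g ∧ ∀ a x, app (g a) x = f a x := by
  have h1 : Partrec (fun n : ℕ => f n.unpair.1 n.unpair.2) :=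
    hf.comp (Computable.fst.comp Computable.unpair) (Computable.snd.comp Computable.unpair)
  obtain ⟨c, hc⟩ := Code.exists_code.1 (Partrec.nat_iff.1 h1)
  refine ⟨fun a => Encodable.encode (c.curry a), ?_, ?_⟩
  · exact Computable.encode.comp
      ((Code.primrec₂_curry.to_comp).comp (Computable.const c) Computable.id)
  · intro a x
    simp [app, Code.eval_curry, hc]

theorem elts_computable : Computable elts := Computable.ofNat _

theorem mk_computable : Computable mk := Computable.encode

/-- The union of the finite sets `f a x`, `x` in the finite set `l`, computed by recursion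
on the number `n` of elements treated. -/
def bigUAux (f : ℕ → ℕ →. ℕ) (a l : ℕ) (n : ℕ) : Part ℕ :=
  Nat.rec (Part.some (mk [])) (fun k acc => acc.bind fun s =>
    (f a ((elts l).getD k 0)).map fun y => mk (elts s ++ elts y)) n

/-- The union of the finite sets `f a x`, for `x` in the finite set `l`. -/
def bigU (f : ℕ → ℕ →. ℕ) (a l : ℕ) : Part ℕ := bigUAux f a l (elts l).length

theorem bigU_partrec {f : ℕ → ℕ →. ℕ} (hf : Partrec₂ f) : Partrec₂ (bigU f) := by
  have hlen : Computable (fun p : ℕ × ℕ => (elts p.2).length) :=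
    Computable.list_length.comp (elts_computable.comp Computable.snd)
  have hbase : Partrec (fun _ : ℕ × ℕ => (Part.some (mk []) : Part ℕ)) :=
    (Computable.const (mk [])).partrec
  have hget : Computable (fun q : (ℕ × ℕ) × (ℕ × ℕ) => (elts q.1.2).getD q.2.1 0) := by
    have h := (Primrec.list_getD (α := ℕ) 0).to_comp
    exact h.comp (elts_computable.comp (Computable.snd.comp Computable.fst))
      (Computable.fst.comp Computable.snd)
  have hstep : Partrec₂ (fun (p : ℕ × ℕ) (q : ℕ × ℕ) =>
      (f p.1 ((elts p.2).getD q.1 0)).map fun y => mk (elts q.2 ++ elts y)) := by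
    have h1 : Partrec (fun r : (ℕ × ℕ) × (ℕ × ℕ) => f r.1.1 ((elts r.1.2).getD r.2.1 0)) :=
      hf.comp (Computable.fst.comp Computable.fst) hget
    have h2 : Computable₂ (fun (r : (ℕ × ℕ) × (ℕ × ℕ)) (y : ℕ) =>
        mk (elts r.2.2 ++ elts y)) := by
      refine mk_computable.comp ?_
      exact Computable.list_append.comp
        (elts_computable.comp (Computable.snd.comp (Computable.snd.comp Computable.fst)))
        (elts_computable.comp Computable.snd)
    exact Partrec.map h1 h2
  have := Partrec.nat_rec hlen hbase hstep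
  exact this.of_eq (fun p => rfl)

theorem bigUAux_spec (f : ℕ → ℕ →. ℕ) (a l : ℕ) (h : ∀ x ∈ elts l, (f a x).Dom) :
    ∀ n ≤ (elts l).length, ∃ s ∈ bigUAux f a l n,
      ∀ z, z ∈ elts s ↔ ∃ k < n, ∃ y ∈ f a ((elts l).getD k 0), z ∈ elts y := by
  intro n
  induction n with
  | zero =>
    intro _
    refine ⟨mk [], Part.mem_some _, ?_⟩
    intro z; simp
  | succ n ih =>
    intro hn
    obtain ⟨s, hs, hz⟩ := ih (by omega)
    have hmem : (elts l).getD n 0 ∈ elts l := by
      rw [List.getD_eq_getElem _ _ (by omega)]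
      exact List.getElem_mem _
    have hd := h _ hmem
    refine ⟨mk (elts s ++ elts ((f a ((elts l).getD n 0)).get hd)), ?_, ?_⟩
    · show _ ∈ (bigUAux f a l n).bind _
      rw [Part.mem_bind_iff]
      refine ⟨s, hs, ?_⟩
      rw [Part.mem_map_iff]
      exact ⟨_, Part.get_mem hd, rfl⟩
    · intro z
      simp only [elts_mk, List.mem_append, hz]
      constructor
      · rintro (⟨k, hk, y, hy, hzy⟩ | h1)
        · exact ⟨k, by omega, y, hy, hzy⟩
        · exact ⟨n, by omega, _, Part.get_mem hd, h1⟩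
      · rintro ⟨k, hk, y, hy, hzy⟩
        rcases Nat.lt_succ_iff_lt_or_eq.1 hk with hk | rfl
        · exact Or.inl ⟨k, hk, y, hy, hzy⟩
        · right
          rw [Part.get_eq_of_mem hy hd]
          exact hzy

theorem bigU_spec (f : ℕ → ℕ →. ℕ) (a l : ℕ) (h : ∀ x ∈ elts l, (f a x).Dom) :
    ∃ s ∈ bigU f a l, ∀ z, z ∈ elts s ↔ ∃ x ∈ elts l, ∃ y ∈ f a x, z ∈ elts y := by
  obtain ⟨s, hs, hz⟩ := bigUAux_spec f a l h (elts l).length le_rfl
  refine ⟨s, hs, fun z => ?_⟩
  rw [hz]
  constructor
  · rintro ⟨k, hk, y, hy, hzy⟩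
    refine ⟨(elts l).getD k 0, ?_, y, hy, hzy⟩
    rw [List.getD_eq_getElem _ _ hk]
    exact List.getElem_mem _
  · rintro ⟨x, hx, y, hy, hzy⟩
    obtain ⟨k, hk, rfl⟩ := List.getElem_of_mem hx
    refine ⟨k, hk, y, ?_, hzy⟩
    rw [List.getD_eq_getElem _ _ hk]
    exact hy

attribute [irreducible] bigU bigUAux

end Pool.Agent.Lib.MP_3e25b1_lc
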