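import Pool.Agent.Lib.MP_3e25b1_lc.Preserve

/-!
# `∇` preserves and reflects first-order logic: connectives, quantifiers, main theorem
-/

set_option autoImplicit false

namespace Pool.Agent.Lib.MP_3e25b1_lc

open CategoryTheory

attribute [local irreducible] Sig.and Sig.or Sig.imp Sig.all Sig.ex Sig.top Sig.bot tv Ent

/-- The inverse image predicate as a relation with the one-point set. -/
theorem pre_extRel {U : Dst} {X : Type} (F : FunRel U (nablaObj X)) (P : X → Prop) :
    ExtRel U PUnit (fun u _ => pre F P u) := by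
  have h0 := Ent.refl (fun p : (U.carrier × U.carrier) × (PUnit × PUnit) =>
    (pre F P p.1.1).and ((U.eq p.1.1 p.1.2).and (tv (p.2.1 = p.2.2))))
  exact (pre_ext F P).apply h0.and_fst h0.and_snd.and_fst

/-- The inclusion into `U` of the inverse image of the subset `P`. -/
def preIncl {U : Dst} {X : Type} (F : FunRel U (nablaObj X)) (P : X → Prop) :
    FunRel (sub U PUnit (fun u _ => pre F P u) (pre_extRel F P)) U :=
  proj U PUnit (fun u _ => pre F P u) (pre_extRel F P)

theorem preIncl_le {U : Dst} {X : Type} (F : FunRel U (nablaObj X)) (P : X → Prop) :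
    Le ((preIncl F P).comp F) P := by
  refine Ent.ex_cases (Ent.refl _) ?_
  have h1 := Ent.newhyp
    (fun p : (U.carrier × PUnit) × X => ((preIncl F P).comp F).rel p.1 p.2)
    (fun p (u : U.carrier) => ((preIncl F P).rel p.1 u).and (F.rel u p.2))
  have h2 : Ent _ (fun r : ((U.carrier × PUnit) × X) × U.carrier => U.eq r.1.1.1 r.2) :=
    h1.and_fst.and_fst
  have h3 : Ent _ (fun r : ((U.carrier × PUnit) × X) × U.carrier => pre F P r.1.1.1) :=
    h1.and_fst.and_snd
  exact pre_elim ((pre_ext F P).apply h3 h2) h1.and_snd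

theorem case_or_aux {U : Dst} {X : Type} {F : FunRel U (nablaObj X)} {P Q : X → Prop}
    (h : Le F (fun x => P x ∨ Q x)) :
    JointlyEpi (preIncl F P).hom (preIncl F Q).hom := by
  intro Z f g hf hg
  obtain ⟨f, rfl⟩ := FunRel.exists_rep f
  obtain ⟨g, rfl⟩ := FunRel.exists_rep g
  apply FunRel.hom_eq_iff.2
  have h0 := Ent.refl (fun p : U.carrier × Z.carrier => f.rel p.1 p.2)
  refine Ent.ex_cases (F.total' (f.strict_left h0)) ?_
  let C : (U.carrier × Z.carrier) × X → Sig := fun p => (f.rel p.1.1 p.1.2).and (F.rel p.1.1 p.2)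
  have hC : Ent C C := Ent.refl C
  show Ent C (fun p => g.rel p.1.1 p.1.2)
  have h1 : Ent C (fun p => tv (P p.2 ∨ Q p.2)) := h.apply hC.and_snd
  have kP : Ent (fun p : (U.carrier × Z.carrier) × X => tv (P p.2))
      (fun p => (C p).imp (g.rel p.1.1 p.1.2)) := by
    apply Ent.imp_intro
    have h2 := Ent.refl (fun p : (U.carrier × Z.carrier) × X => (tv (P p.2)).and (C p))
    exact proj_test (m := fun _ => PUnit.unit) hf (pre_intro h2.and_snd.and_snd h2.and_fst)
      h2.and_snd.and_fst
  have kQ : Ent (fun p : (U.carrier × Z.carrier) × X => tv (Q p.2))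
      (fun p => (C p).imp (g.rel p.1.1 p.1.2)) := by
    apply Ent.imp_intro
    have h2 := Ent.refl (fun p : (U.carrier × Z.carrier) × X => (tv (Q p.2)).and (C p))
    exact proj_test (m := fun _ => PUnit.unit) hg (pre_intro h2.and_snd.and_snd h2.and_fst)
      h2.and_snd.and_fst
  exact (h1.trans (Ent.tv_or kP kQ)).mp hC

theorem case_imp_aux {U : Dst} {X : Type} {F : FunRel U (nablaObj X)} {P Q : X → Prop}
    (h : Le ((preIncl F P).comp F) Q) : Le F (fun x => P x → Q x) := by
  apply Ent.tv_imp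
  have h0 := Ent.refl (fun p : U.carrier × X => (F.rel p.1 p.2).and (tv (P p.2)))
  have h1 := pre_intro h0.and_fst h0.and_snd
  have h2 : Ent (fun p : U.carrier × X => (F.rel p.1 p.2).and (tv (P p.2)))
      (fun p => ((preIncl F P).comp F).rel (p.1, PUnit.unit) p.2) :=
    Ent.ex_witness (fun p => p.1) (((F.strict_left h0.and_fst).and_intro h1).and_intro
      h0.and_fst)
  exact h.apply h2

/-! ## Quantifiers -/

section quant

variable {M : Type} {n : ℕ}

/-- Given `F : U → ∇(M^n)`, the morphism from `{(u, m) | B(u, m)}` to `∇(M^{n+1})` which is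
`F` in the first `n` coordinates and `m` in the last. -/
def beta {U : Dst} (F : FunRel U (nablaObj (Fin n → M))) (B : U.carrier → M → Sig)
    (hB : ExtRel U M B) : FunRel (sub U M B hB) (nablaObj (Fin (n + 1) → M)) where
  rel p b := (B p.1 p.2).and ((F.rel p.1 (fun i : Fin n => b i.castSucc)).and
    (tv (b (Fin.last n) = p.2)))
  strict := by
    have h := Ent.refl (fun r : (U.carrier × M) × (Fin (n + 1) → M) =>
      (B r.1.1 r.1.2).and ((F.rel r.1.1 (fun i : Fin n => r.2 i.castSucc)).and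
        (tv (r.2 (Fin.last n) = r.1.2))))
    exact ((F.strict_left h.and_snd.and_fst).and_intro ((Ent.tv_intro _ (fun _ => rfl)).and_intro
      h.and_fst)).and_intro (Ent.tv_intro _ (fun _ => rfl))
  ext := by
    let C : ((U.carrier × M) × (U.carrier × M)) × ((Fin (n + 1) → M) × (Fin (n + 1) → M)) → Sig :=
      fun r =>
      ((B r.1.1.1 r.1.1.2).and ((F.rel r.1.1.1 (fun i : Fin n => r.2.1 i.castSucc)).and
        (tv (r.2.1 (Fin.last n) = r.1.1.2)))).and
      (((U.eq r.1.1.1 r.1.2.1).and ((tv (r.1.1.2 = r.1.2.2)).and (B r.1.1.1 r.1.1.2))).and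
        (tv (r.2.1 = r.2.2)))
    have h : Ent C C := Ent.refl C
    refine (hB.apply h.and_fst.and_fst h.and_snd.and_fst.and_fst
      h.and_snd.and_fst.and_snd.and_fst).and_intro ((F.ext' h.and_fst.and_snd.and_fst
        h.and_snd.and_fst.and_fst ?_).and_intro ?_)
    · exact h.and_snd.and_snd.trans (Ent.tv_mono (fun r e => by rw [e]))
    · refine (Ent.tv_and h.and_fst.and_snd.and_snd (Ent.tv_and
        h.and_snd.and_fst.and_snd.and_fst h.and_snd.and_snd)).trans (Ent.tv_mono ?_)
      rintro r ⟨e1, e2, e3⟩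
      rw [← e3, e1, e2]
  single := by
    have h := Ent.refl (fun r : (U.carrier × M) × ((Fin (n + 1) → M) × (Fin (n + 1) → M)) =>
      ((B r.1.1 r.1.2).and ((F.rel r.1.1 (fun i : Fin n => r.2.1 i.castSucc)).and
        (tv (r.2.1 (Fin.last n) = r.1.2)))).and
      ((B r.1.1 r.1.2).and ((F.rel r.1.1 (fun i : Fin n => r.2.2 i.castSucc)).and
        (tv (r.2.2 (Fin.last n) = r.1.2)))))
    have h1 := F.single' h.and_fst.and_snd.and_fst h.and_snd.and_snd.and_fst
    refine (Ent.tv_and h1 (Ent.tv_and h.and_fst.and_snd.and_snd h.and_snd.and_snd.and_snd)).trans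
      (Ent.tv_mono ?_)
    rintro r ⟨e1, e2, e3⟩
    funext i
    refine Fin.lastCases ?_ (fun i => ?_) i
    · rw [e2, e3]
    · exact congrFun e1 i
  total := by
    have h0 := Ent.refl (fun r : U.carrier × M =>
      (U.eq r.1 r.1).and ((tv (r.2 = r.2)).and (B r.1 r.2)))
    refine Ent.ex_cases (F.total' h0.and_fst) ?_
    have h1 := Ent.newhyp (fun r : U.carrier × M =>
      (U.eq r.1 r.1).and ((tv (r.2 = r.2)).and (B r.1 r.2)))
      (fun r (a : Fin n → M) => F.rel r.1 a)
    have h2 := h0.and_snd.and_snd.lift (fun r (a : Fin n → M) => F.rel r.1 a)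
    refine Ent.ex_witness (fun q => (Fin.snoc q.2 q.1.2 : Fin (n + 1) → M))
      (h2.and_intro (Ent.and_intro ?_ (Ent.tv_intro _ (fun q => ?_))))
    · have e : (fun q : (U.carrier × M) × (Fin n → M) => F.rel q.1.1
          (fun i : Fin n => (Fin.snoc q.2 q.1.2 : Fin (n + 1) → M) i.castSucc)) =
          fun q => F.rel q.1.1 q.2 := by
        funext q; congr 1; funext i; simp
      show Ent _ (fun q : (U.carrier × M) × (Fin n → M) => F.rel q.1.1
          (fun i : Fin n => (Fin.snoc q.2 q.1.2 : Fin (n + 1) → M) i.castSucc))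
      rw [e]
      exact h1
    · simp

theorem beta_init {U : Dst} (F : FunRel U (nablaObj (Fin n → M))) (B : U.carrier → M → Sig)
    (hB : ExtRel U M B) :
    (beta F B hB).hom ≫ (nablaRel (fun (b : Fin (n + 1) → M) (i : Fin n) => b i.castSucc)).hom =
      (proj U M B hB).hom ≫ F.hom := by
  rw [FunRel.hom_comp, FunRel.hom_comp, FunRel.hom_eq_iff]
  refine Ent.ex_cases (Ent.refl _) ?_
  have h1 := Ent.newhyp (fun p : (U.carrier × M) × (Fin n → M) =>
      ((beta F B hB).comp (nablaRel (fun (b : Fin (n + 1) → M) (i : Fin n) => b i.castSucc))).rel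
        p.1 p.2)
    (fun p (b : Fin (n + 1) → M) => ((beta F B hB).rel p.1 b).and
      ((nablaRel (fun (b : Fin (n + 1) → M) (i : Fin n) => b i.castSucc)).rel b p.2))
  have h2 : Ent _ (fun q : ((U.carrier × M) × (Fin n → M)) × (Fin (n + 1) → M) =>
    B q.1.1.1 q.1.1.2) := h1.and_fst.and_fst
  have h3 : Ent _ (fun q : ((U.carrier × M) × (Fin n → M)) × (Fin (n + 1) → M) =>
    F.rel q.1.1.1 (fun i : Fin n => q.2 i.castSucc)) := h1.and_fst.and_snd.and_fst
  exact Ent.ex_witness (fun q => q.1.1.1) (((F.strict_left h3).and_intro h2).and_intro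
    (F.ext_right h3 h1.and_snd))

theorem le_init {U V : Dst} {F : FunRel U (nablaObj (Fin n → M))} {P : FunRel V U}
    {b : FunRel V (nablaObj (Fin (n + 1) → M))}
    (h : b.hom ≫ (nablaRel (fun (b : Fin (n + 1) → M) (i : Fin n) => b i.castSucc)).hom =
      P.hom ≫ F.hom) {S : (Fin n → M) → Prop} (hS : Le (P.comp F) S) :
    Le b (fun c => S (fun i : Fin n => c i.castSucc)) := by
  rw [FunRel.hom_comp, FunRel.hom_comp, FunRel.hom_eq_iff] at h
  have h0 := Ent.refl (fun p : V.carrier × (Fin (n + 1) → M) => b.rel p.1 p.2)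
  have h1 : Ent (fun p : V.carrier × (Fin (n + 1) → M) => b.rel p.1 p.2)
      (fun p => (b.comp (nablaRel (fun (b : Fin (n + 1) → M) (i : Fin n) => b i.castSucc))).rel
        p.1 (fun i : Fin n => p.2 i.castSucc)) :=
    comp_nabla_intro h0 (Ent.tv_intro _ (fun _ => rfl))
  have h2 := h1.trans (h.reindex (fun p : V.carrier × (Fin (n + 1) → M) =>
    (p.1, fun i : Fin n => p.2 i.castSucc)))
  exact hS.apply h2

theorem case_all_to {U : Dst} (F : FunRel U (nablaObj (Fin n → M)))
    (S : (Fin (n + 1) → M) → Prop)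
    (h : ∀ (V : Dst) (P : FunRel V U) (b : FunRel V (nablaObj (Fin (n + 1) → M))),
      b.hom ≫ (nablaRel (fun (b : Fin (n + 1) → M) (i : Fin n) => b i.castSucc)).hom =
        P.hom ≫ F.hom → Le b S) :
    Le F (fun a => ∀ m : M, S (Fin.snoc a m)) := by
  have hB : ExtRel U M (fun _ _ => Sig.top) := Ent.top_intro _
  have h1 := h _ (proj U M _ hB) (beta F _ hB) (beta_init F _ hB)
  apply Ent.tv_all
  have h0 := Ent.refl (fun p : (U.carrier × (Fin n → M)) × M => F.rel p.1.1 p.1.2)
  have h2 : Ent (fun p : (U.carrier × (Fin n → M)) × M => F.rel p.1.1 p.1.2)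
      (fun p => (beta F _ hB).rel (p.1.1, p.2) (Fin.snoc p.1.2 p.2 : Fin (n + 1) → M)) := by
    refine (Ent.top_intro _).and_intro (Ent.and_intro ?_ (Ent.tv_intro _ (fun q => ?_)))
    · have : ∀ q : (U.carrier × (Fin n → M)) × M,
          (fun i : Fin n => (Fin.snoc q.1.2 q.2 : Fin (n + 1) → M) i.castSucc) = q.1.2 := by
        intro q; funext i; simp
      simp only [this]
      exact h0
    · simp
  exact h1.apply h2

theorem case_ex_to {U : Dst} (F : FunRel U (nablaObj (Fin n → M)))
    (S : (Fin (n + 1) → M) → Prop) (h : Le F (fun a => ∃ m : M, S (Fin.snoc a m))) :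
    ∃ (V : Dst) (P : FunRel V U) (b : FunRel V (nablaObj (Fin (n + 1) → M))), Epi P.hom ∧
      b.hom ≫ (nablaRel (fun (b : Fin (n + 1) → M) (i : Fin n) => b i.castSucc)).hom =
        P.hom ≫ F.hom ∧ Le b S := by
  let B : U.carrier → M → Sig := fun u m =>
    Sig.ex (fun a : Fin n → M => (F.rel u a).and (tv (S (Fin.snoc a m))))
  have hB : ExtRel U M B := by
    let C : (U.carrier × U.carrier) × (M × M) → Sig := fun p =>
      (B p.1.1 p.2.1).and ((U.eq p.1.1 p.1.2).and (tv (p.2.1 = p.2.2)))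
    have h0 : Ent C C := Ent.refl C
    show Ent C (fun p => B p.1.2 p.2.2)
    refine Ent.ex_cases h0.and_fst ?_
    have h1 := Ent.newhyp C (fun p (a : Fin n → M) =>
      (F.rel p.1.1 a).and (tv (S (Fin.snoc a p.2.1))))
    have h2 := h0.and_snd.lift (fun p (a : Fin n → M) =>
      (F.rel p.1.1 a).and (tv (S (Fin.snoc a p.2.1))))
    refine Ent.ex_witness (fun q => q.2) ((F.ext_left h1.and_fst h2.and_fst).and_intro ?_)
    refine (Ent.tv_and h1.and_snd h2.and_snd).trans (Ent.tv_mono ?_)
    rintro q ⟨e1, e2⟩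
    rwa [← e2]
  refine ⟨_, proj U M B hB, beta F B hB, ?_, beta_init F B hB, ?_⟩
  · constructor
    intro Z f g hfg
    obtain ⟨f, rfl⟩ := FunRel.exists_rep f
    obtain ⟨g, rfl⟩ := FunRel.exists_rep g
    apply FunRel.hom_eq_iff.2
    have h0 := Ent.refl (fun p : U.carrier × Z.carrier => f.rel p.1 p.2)
    refine Ent.ex_cases (F.total' (f.strict_left h0)) ?_
    let C : (U.carrier × Z.carrier) × (Fin n → M) → Sig := fun p =>
      (f.rel p.1.1 p.1.2).and (F.rel p.1.1 p.2)
    have hC : Ent C C := Ent.refl C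
    show Ent C (fun p => g.rel p.1.1 p.1.2)
    have h1 : Ent C (fun p => tv (∃ m : M, S (Fin.snoc p.2 m))) := h.apply hC.and_snd
    have k : Ent (fun p : (U.carrier × Z.carrier) × (Fin n → M) =>
        tv (∃ m : M, S (Fin.snoc p.2 m))) (fun p => (C p).imp (g.rel p.1.1 p.1.2)) := by
      apply Ent.tv_ex
      apply Ent.imp_intro
      have h2 := Ent.refl (fun q : ((U.carrier × Z.carrier) × (Fin n → M)) × M =>
        (tv (S (Fin.snoc q.1.2 q.2))).and (C q.1))
      have h3 : Ent (fun q : ((U.carrier × Z.carrier) × (Fin n → M)) × M =>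
          (tv (S (Fin.snoc q.1.2 q.2))).and (C q.1)) (fun q => B q.1.1.1 q.2) :=
        Ent.ex_witness (F := fun (q : ((U.carrier × Z.carrier) × (Fin n → M)) × M)
            (a : Fin n → M) => (F.rel q.1.1.1 a).and (tv (S (Fin.snoc a q.2))))
          (fun q => q.1.2) (h2.and_snd.and_snd.and_intro h2.and_fst)
      exact proj_test (m := fun q : ((U.carrier × Z.carrier) × (Fin n → M)) × M => q.2) hfg h3
        h2.and_snd.and_fst
    exact (h1.trans k).mp hC
  · have h0 := Ent.refl (fun p : (U.carrier × M) × (Fin (n + 1) → M) =>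
      (beta F B hB).rel p.1 p.2)
    have h1 : Ent (fun p : (U.carrier × M) × (Fin (n + 1) → M) => (beta F B hB).rel p.1 p.2)
      (fun p => B p.1.1 p.1.2) := h0.and_fst
    have h2 : Ent (fun p : (U.carrier × M) × (Fin (n + 1) → M) => (beta F B hB).rel p.1 p.2)
      (fun p => F.rel p.1.1 (fun i : Fin n => p.2 i.castSucc)) := h0.and_snd.and_fst
    have h3 : Ent (fun p : (U.carrier × M) × (Fin (n + 1) → M) => (beta F B hB).rel p.1 p.2)
      (fun p => tv (p.2 (Fin.last n) = p.1.2)) := h0.and_snd.and_snd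
    refine Ent.ex_cases h1 ?_
    have h4 := Ent.newhyp
      (fun p : (U.carrier × M) × (Fin (n + 1) → M) => (beta F B hB).rel p.1 p.2)
      (fun p (a : Fin n → M) => (F.rel p.1.1 a).and (tv (S (Fin.snoc a p.1.2))))
    have h5 := h2.lift (fun p (a : Fin n → M) =>
      (F.rel p.1.1 a).and (tv (S (Fin.snoc a p.1.2))))
    have h6 := h3.lift (fun p (a : Fin n → M) =>
      (F.rel p.1.1 a).and (tv (S (Fin.snoc a p.1.2))))
    have h7 := F.single' h4.and_fst h5
    refine (Ent.tv_and h7 (Ent.tv_and h6 h4.and_snd)).trans (Ent.tv_mono ?_)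
    rintro ⟨⟨⟨u, m⟩, b⟩, a⟩ ⟨e1, e2, e3⟩
    simp only at e1 e2 e3 ⊢
    have : (Fin.snoc a m : Fin (n + 1) → M) = b := by
      funext i
      refine Fin.lastCases ?_ (fun i => ?_) i
      · simp [e2]
      · simp [e1]
    rwa [this] at e3

end quant

universe u v

theorem forces_iff {L : FirstOrder.Language.{u, v}} (M : Type) [L.Structure M] {n : ℕ}
    (φ : Fml L n) : ∀ (U : Dst) (F : FunRel U (nablaObj (Fin n → M))),
      Forces nabla M φ F.hom ↔ Le F (φ.Sat M) := by
  induction φ with
  | falsum =>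
    intro U F
    exact case_falsum F
  | equal t₁ t₂ =>
    intro U F
    exact case_equal F (fun a => t₁.realize a) (fun a => t₂.realize a)
  | rel R ts =>
    intro U F
    exact case_rel F (fun a i => (ts i).realize a)
      (fun b => FirstOrder.Language.Structure.RelMap R b)
  | and φ ψ ihφ ihψ =>
    intro U F
    show Forces nabla M φ F.hom ∧ Forces nabla M ψ F.hom ↔ _
    rw [ihφ U F, ihψ U F]
    constructor
    · rintro ⟨h1, h2⟩
      exact Ent.tv_and h1 h2
    · intro h
      exact ⟨h.mono (fun _ e => e.1), h.mono (fun _ e => e.2)⟩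
  | or φ ψ ihφ ihψ =>
    intro U F
    constructor
    · rintro ⟨V, W, p, q, hpq, h1, h2⟩
      obtain ⟨P, rfl⟩ := FunRel.exists_rep p
      obtain ⟨Q, rfl⟩ := FunRel.exists_rep q
      have h1' := (ihφ V (P.comp F)).1 h1
      have h2' := (ihψ W (Q.comp F)).1 h2
      exact le_of_jointlyEpi hpq (h1'.mono (fun _ e => Or.inl e)) (h2'.mono (fun _ e => Or.inr e))
    · intro h
      refine ⟨_, _, (preIncl F (φ.Sat M)).hom, (preIncl F (ψ.Sat M)).hom, case_or_aux h, ?_, ?_⟩
      · exact (ihφ _ ((preIncl F (φ.Sat M)).comp F)).2 (preIncl_le F _)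
      · exact (ihψ _ ((preIncl F (ψ.Sat M)).comp F)).2 (preIncl_le F _)
  | imp φ ψ ihφ ihψ =>
    intro U F
    constructor
    · intro h
      apply case_imp_aux
      apply (ihψ _ ((preIncl F (φ.Sat M)).comp F)).1
      apply h _ (preIncl F (φ.Sat M)).hom
      exact (ihφ _ ((preIncl F (φ.Sat M)).comp F)).2 (preIncl_le F _)
    · intro h V p h1
      obtain ⟨P, rfl⟩ := FunRel.exists_rep p
      have h1' := (ihφ V (P.comp F)).1 h1
      apply (ihψ V (P.comp F)).2
      exact (Ent.tv_and (le_comp P h) h1').trans (Ent.tv_mono (fun _ e => e.1 e.2))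
  | all φ ih =>
    intro U F
    constructor
    · intro h
      apply case_all_to
      intro V P b hb
      exact (ih V b).1 (h V P.hom b.hom hb)
    · intro h V p β hβ
      obtain ⟨P, rfl⟩ := FunRel.exists_rep p
      obtain ⟨b, rfl⟩ := FunRel.exists_rep β
      apply (ih V b).2
      refine (le_init hβ (le_comp P h)).mono (fun c hc => ?_)
      have := hc (c (Fin.last _))
      have e : (Fin.snoc (fun i => c i.castSucc) (c (Fin.last _)) : Fin (_ + 1) → M) = c :=
        Fin.snoc_init_self c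
      rwa [e] at this
  | ex φ ih =>
    intro U F
    constructor
    · rintro ⟨V, p, β, hp, hβ, h⟩
      obtain ⟨P, rfl⟩ := FunRel.exists_rep p
      obtain ⟨b, rfl⟩ := FunRel.exists_rep β
      have h1 := (ih V b).1 h
      apply le_of_epi hp
      have hβ' : Ent _ _ := FunRel.hom_eq_iff.1 (hβ.symm : (P.comp F).hom = (b.comp _).hom)
      refine Ent.trans hβ' ?_
      refine Ent.ex_cases (Ent.refl _) ?_
      have h2 := Ent.newhyp (fun p : V.carrier × (Fin _ → M) =>
          (b.comp (nablaRel (fun (b : Fin (_ + 1) → M) (i : Fin _) => b i.castSucc))).rel p.1 p.2)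
        (fun p (c : Fin (_ + 1) → M) => (b.rel p.1 c).and
          ((nablaRel (fun (b : Fin (_ + 1) → M) (i : Fin _) => b i.castSucc)).rel c p.2))
      refine (Ent.tv_and (h1.apply h2.and_fst) h2.and_snd).trans (Ent.tv_mono ?_)
      rintro ⟨⟨v, a⟩, c⟩ ⟨e1, e2⟩
      simp only at e1 e2 ⊢
      refine ⟨c (Fin.last _), ?_⟩
      have e : (Fin.snoc a (c (Fin.last _)) : Fin (_ + 1) → M) = c := by
        rw [← e2]
        exact Fin.snoc_init_self c
      have key : ∀ d, d = c → Fml.Sat M φ d := fun d hd => hd ▸ e1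
      exact key _ e
    · intro h
      obtain ⟨V, P, b, hP, hb, hS⟩ := case_ex_to F (φ.Sat M) h
      exact ⟨V, P.hom, b.hom, hP, hb, (ih V b).2 hS⟩

/-- `∇` preserves and reflects first-order logic. -/
theorem preserves_and_reflects {L : FirstOrder.Language.{u, v}} (M : Type) [L.Structure M]
    {n : ℕ} (φ : Fml L n) (a : Fin n → M) :
    φ.Sat M a ↔ Forces nabla M φ (nabla.map (↾fun _ : PUnit.{1} => a)) := by
  refine Iff.trans ?_ (forces_iff M φ _ (nablaRel (fun _ : PUnit.{1} => a))).symm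
  constructor
  · intro h
    exact Ent.tv_mono (fun p (e : a = p.2) => e ▸ h)
  · intro h
    have h1 : Ent (fun _ : PUnit.{1} => Sig.top)
        (fun u => (nablaRel (fun _ : PUnit.{1} => a)).rel u a) := Ent.tv_intro _ (fun _ => rfl)
    exact (Le.apply h h1).tv_reflect PUnit.unit

end Pool.Agent.Lib.MP_3e25b1_lc
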