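import Pool.Agent.Lib.MP_3e25b1_lc.NablaDef

/-!
# `∇1` is terminal
-/

set_option autoImplicit false

namespace Pool.Agent.Lib.MP_3e25b1_lc

open CategoryTheory

attribute [local irreducible] Sig.and Sig.or Sig.imp Sig.all Sig.ex Sig.top Sig.bot tv Ent

/-- `∇1` is a terminal object of the `D_st`-topos. -/
theorem nabla_unit_terminal : Nonempty (Limits.IsTerminal (nabla.obj PUnit)) := by
  refine ⟨Limits.IsTerminal.ofUniqueHom (fun A => FunRel.hom ?_) ?_⟩
  · exact {
      rel := fun x _ => A.eq x x
      strict := Ent.and_intro (Ent.refl _) (Ent.tv_intro _ (fun _ => rfl))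
      ext := by
        have h := Ent.refl (fun p : (A.carrier × A.carrier) × (PUnit × PUnit) =>
          (A.eq p.1.1 p.1.1).and ((A.eq p.1.1 p.1.2).and (tv (p.2.1 = p.2.2))))
        exact A.right h.and_snd.and_fst
      single := Ent.tv_intro _ (fun _ => rfl)
      total := Ent.ex_witness (fun _ => PUnit.unit) (Ent.refl _) }
  · intro A m
    obtain ⟨F, rfl⟩ := FunRel.exists_rep m
    apply FunRel.hom_eq_iff.2
    exact F.strict_left (x := fun p : A.carrier × PUnit => p.1) (y := fun p => p.2) (Ent.refl _)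

end Pool.Agent.Lib.MP_3e25b1_lc
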