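import Pool.Agent.Lib.MP_3e25b1_lc.Logic

/-!
# Entailments needed for the functor `∇`
-/

set_option autoImplicit false

namespace Pool.Agent.Lib.MP_3e25b1_lc

theorem nabla_symm (X : Type) :
    Ent (fun p : X × X => tv (p.1 = p.2)) (fun p => tv (p.2 = p.1)) :=
  Ent.tv_mono (fun _ h => h.symm)

theorem nabla_trans (X : Type) :
    Ent (fun p : X × (X × X) => (tv (p.1 = p.2.1)).and (tv (p.2.1 = p.2.2)))
      (fun p => tv (p.1 = p.2.2)) := by
  have h := Ent.refl (fun p : X × (X × X) => (tv (p.1 = p.2.1)).and (tv (p.2.1 = p.2.2)))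
  exact (Ent.tv_and h.and_fst h.and_snd).trans (Ent.tv_mono (fun _ h => h.1.trans h.2))

theorem nablaRel_strict {X Y : Type} (f : X → Y) :
    Ent (fun p : X × Y => tv (f p.1 = p.2))
      (fun p => (tv (p.1 = p.1)).and (tv (p.2 = p.2))) :=
  Ent.and_intro (Ent.tv_intro _ (fun _ => rfl)) (Ent.tv_intro _ (fun _ => rfl))

theorem nablaRel_ext {X Y : Type} (f : X → Y) :
    Ent (fun p : (X × X) × (Y × Y) =>
      (tv (f p.1.1 = p.2.1)).and ((tv (p.1.1 = p.1.2)).and (tv (p.2.1 = p.2.2))))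
      (fun p => tv (f p.1.2 = p.2.2)) := by
  have h := Ent.refl (fun p : (X × X) × (Y × Y) =>
    (tv (f p.1.1 = p.2.1)).and ((tv (p.1.1 = p.1.2)).and (tv (p.2.1 = p.2.2))))
  refine (Ent.tv_and h.and_fst (Ent.tv_and h.and_snd.and_fst h.and_snd.and_snd)).trans
    (Ent.tv_mono ?_)
  rintro ⟨⟨a, b⟩, ⟨c, d⟩⟩ ⟨h1, h2, h3⟩
  simp only at h1 h2 h3 ⊢
  rw [← h2, h1, h3]

theorem nablaRel_single {X Y : Type} (f : X → Y) :
    Ent (fun p : X × (Y × Y) => (tv (f p.1 = p.2.1)).and (tv (f p.1 = p.2.2)))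
      (fun p => tv (p.2.1 = p.2.2)) := by
  have h := Ent.refl (fun p : X × (Y × Y) => (tv (f p.1 = p.2.1)).and (tv (f p.1 = p.2.2)))
  exact (Ent.tv_and h.and_fst h.and_snd).trans (Ent.tv_mono (fun _ h => h.1.symm.trans h.2))

theorem nablaRel_total {X Y : Type} (f : X → Y) :
    Ent (fun x : X => tv (x = x)) (fun x => Sig.ex (fun y => tv (f x = y))) :=
  Ent.ex_witness f (Ent.tv_intro _ (fun _ => rfl))

end Pool.Agent.Lib.MP_3e25b1_lc
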