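import Pool.Agent.Lib.MP_3e25b1_lc.Topos
import Pool.Agent.Lib.MP_3e25b1_lc.NablaLemmas

/-!
# The functor `∇ : Sets → Dst`
-/

set_option autoImplicit false

namespace Pool.Agent.Lib.MP_3e25b1_lc

open CategoryTheory

/-- The object `∇X`: the set `X` with equality predicate true on the diagonal and false
off it. -/
def nablaObj (X : Type) : Dst where
  carrier := X
  eq x y := tv (x = y)
  symm := nabla_symm X
  trans := nabla_trans X

/-- The functional relation `∇f`: the graph of `f`. -/
def nablaRel {X Y : Type} (f : X → Y) : FunRel (nablaObj X) (nablaObj Y) where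
  rel x y := tv (f x = y)
  strict := nablaRel_strict f
  ext := nablaRel_ext f
  single := nablaRel_single f
  total := nablaRel_total f

/-- The functor `∇ : Sets → Dst`. -/
def nabla : Type ⥤ Dst where
  obj := nablaObj
  map f := (nablaRel f).hom
  map_id X := FunRel.hom_eq_iff.2 (Ent.refl _)
  map_comp {X Y Z} f g := by
    rw [FunRel.hom_comp, FunRel.hom_eq_iff]
    exact Ent.ex_witness (fun p : X × Z => f p.1)
      (Ent.and_intro (Ent.tv_intro _ (fun _ => rfl)) (Ent.refl _))

end Pool.Agent.Lib.MP_3e25b1_lc
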