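import Pool.Agent.Lib.MP_3e25b1_lc.Conn

/-!
# Objects of the `D_st`-topos and functional relations
-/

set_option autoImplicit false

namespace Pool.Agent.Lib.MP_3e25b1_lc

/-- Objects of the `D_st`-topos: sets with a symmetric and transitive `Σ_st`-valued
equality predicate. -/
structure Dst : Type 1 where
  /-- the underlying set -/
  carrier : Type
  /-- the equality predicate -/
  eq : carrier → carrier → Sig
  symm : Ent (fun p : carrier × carrier => eq p.1 p.2) (fun p => eq p.2 p.1)
  trans : Ent (fun p : carrier × (carrier × carrier) => (eq p.1 p.2.1).and (eq p.2.1 p.2.2))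
    (fun p => eq p.1 p.2.2)

/-- Functional relations between objects: strict, extensional, single-valued and total. -/
structure FunRel (X Y : Dst) where
  /-- the relation -/
  rel : X.carrier → Y.carrier → Sig
  strict : Ent (fun p : X.carrier × Y.carrier => rel p.1 p.2)
    (fun p => (X.eq p.1 p.1).and (Y.eq p.2 p.2))
  ext : Ent (fun p : (X.carrier × X.carrier) × (Y.carrier × Y.carrier) =>
      (rel p.1.1 p.2.1).and ((X.eq p.1.1 p.1.2).and (Y.eq p.2.1 p.2.2)))
    (fun p => rel p.1.2 p.2.2)
  single : Ent (fun p : X.carrier × (Y.carrier × Y.carrier) =>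
      (rel p.1 p.2.1).and (rel p.1 p.2.2)) (fun p => Y.eq p.2.1 p.2.2)
  total : Ent (fun x : X.carrier => X.eq x x) (fun x => Sig.ex (fun y => rel x y))

end Pool.Agent.Lib.MP_3e25b1_lc
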