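import Pool.Agent.Lib.MP_3e25b1_lc.Conn
import Pool.Agent.Lib.MP_3e25b1_lc.Truth

/-!
# The logical operations on `Σ_st` and their universal properties
-/

set_option autoImplicit false

namespace Pool.Agent.Lib.MP_3e25b1_lc

theorem Ent.top_intro {I : Type} (φ : I → Sig) : Ent φ (fun _ => Sig.top) := by
  refine ent_intro_total (fun _ => mk []) (fun _ _ => mk []) (Computable.const _)
    (Computable.const _) ?_
  intro i a _
  exact ⟨nil_mem_star _, fun b hb => hb.elim⟩

theorem Ent.bot_elim {I : Type} (φ : I → Sig) : Ent (fun _ => Sig.bot) φ := by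
  refine ent_intro_total (fun _ => mk []) (fun _ _ => mk [0]) (Computable.const _)
    (Computable.const _) ?_
  intro i a _
  refine ⟨nil_mem_star _, fun b _ => ⟨?_, ?_⟩⟩
  · rw [single_mem_star]; rfl
  · intro h
    exact (h 0 (by simp)).elim

/-! ## Conjunction -/

theorem Ent.and_left {I : Type} (φ ψ : I → Sig) :
    Ent (fun i => (φ i).and (ψ i)) φ := by
  refine ent_intro_total (fun a => part 0 a) (fun _ b => mk [Nat.pair 0 b])
    (part_computable.comp (Computable.const 0) Computable.id) ?_ ?_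
  · exact single_computable (Primrec₂.natPair.to_comp.comp (Computable.const 0) Computable.snd)
  · intro i a ha
    refine ⟨part_zero_mem_star ha, fun b hb => ⟨?_, ?_⟩⟩
    · rw [single_mem_star]
      exact Or.inl (by simpa using hb)
    · intro h
      obtain ⟨_, h⟩ := h (Nat.pair 0 b) (by simp)
      simpa using h

theorem Ent.and_right {I : Type} (φ ψ : I → Sig) :
    Ent (fun i => (φ i).and (ψ i)) ψ := by
  refine ent_intro_total (fun a => part 1 a) (fun _ b => mk [Nat.pair 1 b])
    (part_computable.comp (Computable.const 1) Computable.id) ?_ ?_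
  · exact single_computable (Primrec₂.natPair.to_comp.comp (Computable.const 1) Computable.snd)
  · intro i a ha
    refine ⟨part_one_mem_star ha, fun b hb => ⟨?_, ?_⟩⟩
    · rw [single_mem_star]
      exact Or.inr (by simpa using hb)
    · intro h
      obtain ⟨_, h⟩ := h (Nat.pair 1 b) (by simp)
      simpa using h

theorem rel_congr (p : Sig) {a a' b : ℕ} (h : ∀ x, x ∈ elts a ↔ x ∈ elts a') :
    p.rel a b ↔ p.rel a' b := by
  constructor
  · intro hr
    exact p.up (fun x hx => (p.dom hr).1 x ((h x).2 hx)) (fun x hx => (h x).1 hx) hr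
  · intro hr
    exact p.up (fun x hx => (p.dom hr).1 x ((h x).1 hx)) (fun x hx => (h x).2 hx) hr

theorem Ent.and_intro {I : Type} {χ φ ψ : I → Sig} (h : Ent χ φ) (h' : Ent χ ψ) :
    Ent χ (fun i => (φ i).and (ψ i)) := by
  obtain ⟨P, N, hP, hN, H⟩ := h.elim
  obtain ⟨P', N', hP', hN', H'⟩ := h'.elim
  refine ent_intro (fun a => (P a).bind fun x => (P' a).map fun y => join x y)
    (fun a b => bif (b.unpair.1 == 0) then N a b.unpair.2 else N' a b.unpair.2) ?_ ?_ ?_
  · refine hP.bind ?_
    refine Partrec.map (hP'.comp Computable.fst) ?_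
    exact join_computable.comp (Computable.snd.comp Computable.fst) Computable.snd
  · have hc : Computable (fun p : ℕ × ℕ => (p.2.unpair.1 == 0)) := by
      have : Primrec (fun p : ℕ × ℕ => (p.2.unpair.1 == 0)) := by
        refine Primrec.beq.comp ?_ (Primrec.const 0)
        exact Primrec.fst.comp (Primrec.unpair.comp Primrec.snd)
      exact this.to_comp
    refine Partrec.cond hc ?_ ?_
    · exact hN.comp Computable.fst (Computable.snd.comp (Computable.unpair.comp Computable.snd))
    · exact hN'.comp Computable.fst (Computable.snd.comp (Computable.unpair.comp Computable.snd))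
  · intro i a ha
    obtain ⟨x, hx, hx', h1⟩ := H i a ha
    obtain ⟨y, hy, hy', h2⟩ := H' i a ha
    refine ⟨join x y, Part.mem_bind hx (Part.mem_map _ hy), join_mem_star.2 ⟨hx', hy'⟩, ?_⟩
    intro b hb
    rcases hb with ⟨hb0, hb⟩ | ⟨hb1, hb⟩
    · obtain ⟨s, hs, hs', h3⟩ := h1 _ hb
      refine ⟨s, by simpa [hb0] using hs, hs', fun hc => ?_⟩
      refine ⟨join_mem_star.2 ⟨hx', hy'⟩, Or.inl ⟨hb0, ?_⟩⟩
      rw [part_join_zero]
      exact h3 hc
    · obtain ⟨s, hs, hs', h3⟩ := h2 _ hb
      refine ⟨s, by simpa [hb1] using hs, hs', fun hc => ?_⟩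
      refine ⟨join_mem_star.2 ⟨hx', hy'⟩, Or.inr ⟨hb1, ?_⟩⟩
      rw [part_join_one]
      exact h3 hc

/-! ## Implication -/

/-- `t` codes the union of the finite sets `app (f e) x` for `e ∈ E`. -/
def IsUnion (f : ℕ → ℕ) (E x t : ℕ) : Prop :=
  ∀ z, z ∈ elts t ↔ ∃ e ∈ elts E, ∃ y ∈ app (f e) x, z ∈ elts y

theorem exists_isUnion {f : ℕ → ℕ} {E x : ℕ} (h : ∀ e ∈ elts E, (app (f e) x).Dom) :
    ∃ t, IsUnion f E x t := by
  obtain ⟨s, _, hz⟩ := bigU_spec (fun x e => app (f e) x) x E h
  exact ⟨s, hz⟩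

/-- Implication. -/
def Sig.imp (p q : Sig) : Sig where
  pos := prodS (arr (star p.pos) (star q.pos)) (arr (prodS (star p.pos) q.neg) (star p.neg))
  neg := prodS (star p.pos) q.neg
  rel E n :=
    E ∈ star (prodS (arr (star p.pos) (star q.pos)) (arr (prodS (star p.pos) q.neg) (star p.neg)))
    ∧ n ∈ prodS (star p.pos) q.neg ∧
    ((∀ e ∈ elts E, ∀ s ∈ app e.unpair.2 n, ∀ c ∈ elts s, p.rel n.unpair.1 c) →
      ∃ t, IsUnion (fun e => e.unpair.1) E n.unpair.1 t ∧ q.rel t n.unpair.2)
  dom := by
    rintro a b ⟨h1, h2, _⟩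
    exact ⟨h1, h2⟩
  up := by
    rintro a a' b ha' hsub ⟨ha, hb, h⟩
    refine ⟨ha', hb, fun hc => ?_⟩
    obtain ⟨t, ht, hq⟩ := h (fun e he => hc e (hsub e he))
    have hd : ∀ e ∈ elts a', (app e.unpair.1 b.unpair.1).Dom := by
      intro e he
      obtain ⟨y, hy, _⟩ := (ha' e he).1 _ hb.1
      exact Part.dom_iff_mem.2 ⟨y, hy⟩
    obtain ⟨t', ht'⟩ := exists_isUnion (f := fun e => e.unpair.1) hd
    refine ⟨t', ht', q.up ?_ ?_ hq⟩
    · intro z hz
      obtain ⟨e, he, y, hy, hzy⟩ := (ht' z).1 hz
      obtain ⟨y', hy', hys⟩ := (ha' e he).1 _ hb.1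
      rw [Part.mem_unique hy hy'] at hzy
      exact hys z hzy
    · intro z hz
      obtain ⟨e, he, y, hy, hzy⟩ := (ht z).1 hz
      exact (ht' z).2 ⟨e, hsub e he, y, hy, hzy⟩

theorem Ent.imp_intro {I : Type} {χ φ ψ : I → Sig}
    (h : Ent (fun i => (χ i).and (φ i)) ψ) : Ent χ (fun i => (φ i).imp (ψ i)) := by
  obtain ⟨P, N, hP, hN, H⟩ := h.elim
  have hj : Computable (fun p : ℕ × ℕ => join p.1 p.2) := join_computable
  obtain ⟨g1, hg1, hg1'⟩ := exists_smn (f := fun A a => P (join A a)) (hP.comp hj)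
  have hn2 : Partrec₂ (fun A n : ℕ => (N (join A n.unpair.1) n.unpair.2)) := by
    refine hN.comp ?_ ?_
    · exact join_computable.comp Computable.fst
        (Computable.fst.comp (Computable.unpair.comp Computable.snd))
    · exact Computable.snd.comp (Computable.unpair.comp Computable.snd)
  have hn3 : Partrec₂ (fun A n : ℕ => (N (join A n.unpair.1) n.unpair.2).map (part 1)) := by
    refine Partrec.map hn2 ?_
    exact part_computable.comp (Computable.const 1) Computable.snd
  have hn4 : Partrec₂ (fun A n : ℕ => (N (join A n.unpair.1) n.unpair.2).map (part 0)) := by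
    refine Partrec.map hn2 ?_
    exact part_computable.comp (Computable.const 0) Computable.snd
  obtain ⟨g2, hg2, hg2'⟩ := exists_smn hn3
  refine ent_intro (fun A => Part.some (mk [Nat.pair (g1 A) (g2 A)])) _ ?_ hn4 ?_
  · exact (single_computable (Primrec₂.natPair.to_comp.comp hg1 hg2)).partrec
  · intro i A hA
    have hmem : mk [Nat.pair (g1 A) (g2 A)] ∈ star (Sig.imp (φ i) (ψ i)).pos := by
      rw [single_mem_star]
      refine pair_mem_prodS.2 ⟨?_, ?_⟩
      · intro a ha
        obtain ⟨y, hy, hy', _⟩ := H i (join A a) (join_mem_star.2 ⟨hA, ha⟩)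
        exact ⟨y, by rw [hg1']; exact hy, hy'⟩
      · intro n hn
        obtain ⟨y, _, _, h2⟩ := H i (join A n.unpair.1) (join_mem_star.2 ⟨hA, hn.1⟩)
        obtain ⟨s, hs, hs', _⟩ := h2 _ hn.2
        refine ⟨part 1 s, ?_, part_one_mem_star hs'⟩
        rw [hg2']
        exact Part.mem_map _ hs
    refine ⟨_, Part.mem_some _, hmem, ?_⟩
    intro n hn
    obtain ⟨y, hy, hy', h2⟩ := H i (join A n.unpair.1) (join_mem_star.2 ⟨hA, hn.1⟩)
    obtain ⟨s, hs, hs', h3⟩ := h2 _ hn.2
    refine ⟨part 0 s, Part.mem_map _ hs, part_zero_mem_star hs', ?_⟩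
    intro hc
    refine ⟨hmem, hn, ?_⟩
    intro hc'
    refine ⟨y, ?_, h3 ?_⟩
    · intro z
      constructor
      · intro hz
        refine ⟨_, (mem_single.2 rfl), y, ?_, hz⟩
        simp only [Nat.unpair_pair]
        rw [hg1']; exact hy
      · rintro ⟨e, he, y', hy'', hz⟩
        rw [mem_single] at he
        subst he
        simp only [Nat.unpair_pair] at hy''
        rw [hg1'] at hy''
        rwa [Part.mem_unique hy hy'']
    · intro c hcs
      refine ⟨join_mem_star.2 ⟨hA, hn.1⟩, ?_⟩
      rcases hs' c hcs with ⟨h0, _⟩ | ⟨h1, _⟩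
      · left
        refine ⟨h0, ?_⟩
        rw [part_join_zero]
        apply hc
        rw [mem_part, ← h0, Nat.pair_unpair]
        exact hcs
      · right
        refine ⟨h1, ?_⟩
        rw [part_join_one]
        refine hc' _ (mem_single.2 rfl) (part 1 s) ?_ _ ?_
        · simp only [Nat.unpair_pair]
          rw [hg2']
          exact Part.mem_map _ hs
        · rw [mem_part, ← h1, Nat.pair_unpair]
          exact hcs

theorem Ent.imp_elim {I : Type} {χ φ ψ : I → Sig}
    (h : Ent χ (fun i => (φ i).imp (ψ i))) : Ent (fun i => (χ i).and (φ i)) ψ := by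
  obtain ⟨P, N, hP, hN, H⟩ := h.elim
  have hf1 : Partrec₂ (fun x e : ℕ => app e.unpair.1 x) :=
    app_partrec.comp (Computable.fst.comp (Computable.unpair.comp Computable.snd)) Computable.fst
  have hf2 : Partrec₂ (fun x e : ℕ => app e.unpair.2 x) :=
    app_partrec.comp (Computable.snd.comp (Computable.unpair.comp Computable.snd)) Computable.fst
  have hp0 : Computable (fun a : ℕ => part 0 a) :=
    part_computable.comp (Computable.const 0) Computable.id
  have hp1 : Computable (fun a : ℕ => part 1 a) :=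
    part_computable.comp (Computable.const 1) Computable.id
  refine ent_intro
    (fun B => (P (part 0 B)).bind fun E => bigU (fun x e => app e.unpair.1 x) (part 1 B) E)
    (fun B b => (P (part 0 B)).bind fun E =>
      (N (part 0 B) (Nat.pair (part 1 B) b)).bind fun s =>
        (bigU (fun x e => app e.unpair.2 x) (Nat.pair (part 1 B) b) E).map fun t => join s t)
    ?_ ?_ ?_
  · refine Partrec.bind (hP.comp hp0) ?_
    exact (bigU_partrec hf1).comp (hp1.comp Computable.fst) Computable.snd
  · refine Partrec.bind (hP.comp (hp0.comp Computable.fst)) ?_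
    have hpr : Computable (fun q : (ℕ × ℕ) × ℕ => Nat.pair (part 1 q.1.1) q.1.2) :=
      Primrec₂.natPair.to_comp.comp (hp1.comp (Computable.fst.comp Computable.fst))
        (Computable.snd.comp Computable.fst)
    refine Partrec.bind ?_ ?_
    · exact hN.comp (hp0.comp (Computable.fst.comp Computable.fst)) hpr
    · refine Partrec.map ?_ ?_
      · exact (bigU_partrec hf2).comp (hpr.comp Computable.fst)
          (Computable.snd.comp Computable.fst)
      · exact join_computable.comp (Computable.snd.comp Computable.fst) Computable.snd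
  · intro i B hB
    have hB0 := part_zero_mem_star hB
    have hB1 := part_one_mem_star hB
    obtain ⟨E, hE, hE', h1⟩ := H i (part 0 B) hB0
    have hd : ∀ e ∈ elts E, (app e.unpair.1 (part 1 B)).Dom := by
      intro e he
      obtain ⟨y, hy, _⟩ := (hE' e he).1 _ hB1
      exact Part.dom_iff_mem.2 ⟨y, hy⟩
    obtain ⟨t, ht, htz⟩ := bigU_spec (fun x e => app e.unpair.1 x) (part 1 B) E hd
    refine ⟨t, Part.mem_bind hE ht, ?_, ?_⟩
    · intro z hz
      obtain ⟨e, he, y, hy, hzy⟩ := (htz z).1 hz
      obtain ⟨y', hy', hys⟩ := (hE' e he).1 _ hB1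
      rw [Part.mem_unique hy hy'] at hzy
      exact hys z hzy
    · intro b hb
      have hn : Nat.pair (part 1 B) b ∈ (Sig.imp (φ i) (ψ i)).neg := pair_mem_prodS.2 ⟨hB1, hb⟩
      obtain ⟨s, hs, hs', h2⟩ := h1 _ hn
      have hd2 : ∀ e ∈ elts E, (app e.unpair.2 (Nat.pair (part 1 B) b)).Dom := by
        intro e he
        obtain ⟨y, hy, _⟩ := (hE' e he).2 _ hn
        exact Part.dom_iff_mem.2 ⟨y, hy⟩
      obtain ⟨u, hu, huz⟩ := bigU_spec (fun x e => app e.unpair.2 x)
        (Nat.pair (part 1 B) b) E hd2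
      refine ⟨join s u, Part.mem_bind hE (Part.mem_bind hs (Part.mem_map _ hu)), ?_, ?_⟩
      · refine join_mem_star.2 ⟨hs', ?_⟩
        intro z hz
        obtain ⟨e, he, y, hy, hzy⟩ := (huz z).1 hz
        obtain ⟨y', hy', hys⟩ := (hE' e he).2 _ hn
        rw [Part.mem_unique hy hy'] at hzy
        exact hys z hzy
      · intro hc
        obtain ⟨_, _, h3⟩ := h2 (by
          intro c hcs
          obtain ⟨_, h⟩ := hc (Nat.pair 0 c) (mem_join.2 (by simpa using hcs))
          simpa using h)
        obtain ⟨t', ht', hq⟩ := h3 (by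
          intro e he y hy c hcy
          simp only [Nat.unpair_pair]
          obtain ⟨_, h⟩ := hc (Nat.pair 1 c) (mem_join.2 (by
            simp only [Nat.unpair_pair, one_ne_zero, false_and, true_and, false_or]
            exact (huz c).2 ⟨e, he, y, hy, hcy⟩))
          simpa using h)
        simp only [Nat.unpair_pair] at ht' hq
        refine (rel_congr (ψ i) ?_).1 hq
        intro x
        rw [ht' x, htz x]

end Pool.Agent.Lib.MP_3e25b1_lc
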