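import Pool.Agent.Lib.MP_3e25b1_lc.Sub
import Pool.Agent.Lib.MP_3e25b1_lc.Forcing

/-!
# `∇` preserves and reflects first-order logic
-/

set_option autoImplicit false

namespace Pool.Agent.Lib.MP_3e25b1_lc

open CategoryTheory

attribute [local irreducible] Sig.and Sig.or Sig.imp Sig.all Sig.ex Sig.top Sig.bot tv Ent

/-- `F : U → ∇X` factors through the subset `P` of `X`. -/
def Le {U : Dst} {X : Type} (F : FunRel U (nablaObj X)) (P : X → Prop) : Prop :=
  Ent (fun p : U.carrier × X => F.rel p.1 p.2) (fun p => tv (P p.2))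

theorem Le.apply {U : Dst} {X : Type} {F : FunRel U (nablaObj X)} {P : X → Prop}
    (h : Le F P) {I : Type} {χ : I → Sig} {u : I → U.carrier} {x : I → X}
    (h' : Ent χ (fun i => F.rel (u i) (x i))) : Ent χ (fun i => tv (P (x i))) :=
  h'.trans (Ent.reindex h (fun i => (u i, x i)))

theorem Le.mono {U : Dst} {X : Type} {F : FunRel U (nablaObj X)} {P Q : X → Prop}
    (h : Le F P) (hPQ : ∀ x, P x → Q x) : Le F Q :=
  Ent.trans h (Ent.tv_mono (fun p hp => hPQ p.2 hp))

/-- The predicate `∃ x, F(u, x) ∧ P(x)`: the inverse image of the subset `P`. -/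
def pre {U : Dst} {X : Type} (F : FunRel U (nablaObj X)) (P : X → Prop) (u : U.carrier) : Sig :=
  Sig.ex (fun x : X => (F.rel u x).and (tv (P x)))

theorem pre_intro {U : Dst} {X : Type} {F : FunRel U (nablaObj X)} {P : X → Prop}
    {I : Type} {χ : I → Sig} {u : I → U.carrier} {x : I → X}
    (h : Ent χ (fun i => F.rel (u i) (x i))) (h' : Ent χ (fun i => tv (P (x i)))) :
    Ent χ (fun i => pre F P (u i)) :=
  Ent.ex_witness (F := fun i y => (F.rel (u i) y).and (tv (P y))) x (h.and_intro h')

theorem pre_elim {U : Dst} {X : Type} {F : FunRel U (nablaObj X)} {P : X → Prop}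
    {I : Type} {χ : I → Sig} {u : I → U.carrier} {x : I → X}
    (h : Ent χ (fun i => pre F P (u i))) (h' : Ent χ (fun i => F.rel (u i) (x i))) :
    Ent χ (fun i => tv (P (x i))) := by
  refine Ent.ex_cases (F := fun i y => (F.rel (u i) y).and (tv (P y))) h ?_
  have h1 := Ent.newhyp χ (fun i y => (F.rel (u i) y).and (tv (P y)))
  have h2 := h'.lift (fun i y => (F.rel (u i) y).and (tv (P y)))
  have h3 := F.single' h1.and_fst h2
  have h4 := Ent.tv_and h3 h1.and_snd
  refine h4.trans (Ent.tv_mono ?_)
  rintro ⟨i, y⟩ ⟨e, hy⟩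
  simp only at e hy ⊢
  rwa [← e]

theorem pre_ext {U : Dst} {X : Type} (F : FunRel U (nablaObj X)) (P : X → Prop) :
    ExtPred U (pre F P) := by
  have h0 := Ent.refl (fun p : U.carrier × U.carrier => (pre F P p.1).and (U.eq p.1 p.2))
  refine Ent.ex_cases (F := fun p y => (F.rel p.1 y).and (tv (P y))) h0.and_fst ?_
  have h1 := Ent.newhyp (fun p : U.carrier × U.carrier => (pre F P p.1).and (U.eq p.1 p.2))
    (fun p y => (F.rel p.1 y).and (tv (P y)))
  have h2 := h0.and_snd.lift (fun p y => (F.rel p.1 y).and (tv (P y)))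
  exact pre_intro (F.ext_left h1.and_fst h2) h1.and_snd

/-- If `E(u)` entails the inverse image of `P`, then `F` factors through `P`. -/
theorem le_of_pre {U : Dst} {X : Type} {F : FunRel U (nablaObj X)} {P : X → Prop}
    (h : Ent (fun u : U.carrier => U.eq u u) (pre F P)) : Le F P := by
  have h0 := Ent.refl (fun p : U.carrier × X => F.rel p.1 p.2)
  have h1 := F.strict_left h0
  have h2 := h1.trans (h.reindex (fun p : U.carrier × X => p.1))
  exact pre_elim h2 h0

/-- If `P : V → U` and `P ≫ F` factors through `S` then `P` factors through the inverse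
image of `S`. -/
theorem pre_of_comp {U V : Dst} {X : Type} {F : FunRel U (nablaObj X)} {S : X → Prop}
    {P : FunRel V U} (h : Le (P.comp F) S) :
    Ent (fun p : V.carrier × U.carrier => P.rel p.1 p.2) (fun p => pre F S p.2) := by
  have h0 := Ent.refl (fun p : V.carrier × U.carrier => P.rel p.1 p.2)
  refine Ent.ex_cases (F.total' (P.strict_right h0)) ?_
  have h1 := Ent.newhyp (fun p : V.carrier × U.carrier => P.rel p.1 p.2)
    (fun p x => F.rel p.2 x)
  have h2 := h0.lift (fun p x => F.rel p.2 x)
  have h3 : Ent (fun p : (V.carrier × U.carrier) × X => (P.rel p.1.1 p.1.2).and (F.rel p.1.2 p.2))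
      (fun p => (P.comp F).rel p.1.1 p.2) :=
    Ent.ex_witness (fun p => p.1.2) (h2.and_intro h1)
  exact pre_intro h1 (h.apply h3)

theorem le_of_epi {U V : Dst} {X : Type} {F : FunRel U (nablaObj X)} {S : X → Prop}
    {P : FunRel V U} (hP : Epi P.hom) (h : Le (P.comp F) S) : Le F S :=
  le_of_pre (ent_of_epi (pre_ext F S) hP (pre_of_comp h))

theorem le_of_jointlyEpi {U V W : Dst} {X : Type} {F : FunRel U (nablaObj X)} {S : X → Prop}
    {P : FunRel V U} {Q : FunRel W U} (hPQ : JointlyEpi P.hom Q.hom)
    (h : Le (P.comp F) S) (h' : Le (Q.comp F) S) : Le F S := by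
  apply le_of_pre
  apply ent_of_chi_eq (hA := pre_ext F S)
  exact hPQ _ _ (comp_chi_eq (pre_of_comp h)) (comp_chi_eq (pre_of_comp h'))

theorem le_comp {U V : Dst} {X : Type} {F : FunRel U (nablaObj X)} {S : X → Prop}
    (P : FunRel V U) (h : Le F S) : Le (P.comp F) S := by
  refine Ent.ex_cases (Ent.refl _) ?_
  have h1 := Ent.newhyp (fun p : V.carrier × X => (P.comp F).rel p.1 p.2)
    (fun p u => (P.rel p.1 u).and (F.rel u p.2))
  exact h.apply h1.and_snd

theorem le_congr {U : Dst} {X : Type} {F G : FunRel U (nablaObj X)} {S : X → Prop}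
    (h : F.hom = G.hom) (hF : Le F S) : Le G S :=
  Ent.trans (FunRel.hom_eq_iff.1 h.symm) hF

/-! ## The individual cases -/

theorem case_falsum {U : Dst} {X : Type} (F : FunRel U (nablaObj X)) :
    Nonempty (Limits.IsInitial U) ↔ Le F (fun _ => False) := by
  constructor
  · rintro ⟨hI⟩
    obtain ⟨R, _⟩ := FunRel.exists_rep (hI.to (nablaObj Empty))
    have h0 := Ent.refl (fun p : U.carrier × X => F.rel p.1 p.2)
    refine Ent.ex_cases (R.total' (F.strict_left h0)) ?_
    have : IsEmpty ((U.carrier × X) × (nablaObj Empty).carrier) :=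
      ⟨fun q => Empty.elim q.2⟩
    exact ent_of_isEmpty _ _
  · intro h
    have hE : Ent (fun u : U.carrier => U.eq u u) (fun _ => Sig.bot) := by
      have h0 := F.total
      refine Ent.ex_cases h0 ?_
      have h1 := Ent.newhyp (fun u : U.carrier => U.eq u u) (fun u x => F.rel u x)
      exact (h.apply h1).of_tv_false
    refine ⟨Limits.IsInitial.ofUniqueHom (fun Y => FunRel.hom ?_) ?_⟩
    · exact {
        rel := fun _ _ => Sig.bot
        strict := Ent.bot_elim _
        ext := (Ent.refl _).and_fst.of_bot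
        single := (Ent.refl _).and_fst.of_bot
        total := hE.of_bot }
    · intro Y m
      obtain ⟨G, rfl⟩ := FunRel.exists_rep m
      apply FunRel.hom_eq_iff.2
      have h1 := G.strict_left (Ent.refl (fun p : U.carrier × Y.carrier => G.rel p.1 p.2))
      exact h1.trans (hE.reindex (fun p : U.carrier × Y.carrier => p.1))

theorem comp_nabla_intro {U : Dst} {X Y : Type} {F : FunRel U (nablaObj X)} {f : X → Y}
    {I : Type} {χ : I → Sig} {u : I → U.carrier} {x : I → X} {y : I → Y}
    (h : Ent χ (fun i => F.rel (u i) (x i))) (h' : Ent χ (fun i => tv (f (x i) = y i))) :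
    Ent χ (fun i => (F.comp (nablaRel f)).rel (u i) (y i)) :=
  Ent.ex_witness x (h.and_intro h')

theorem comp_nabla_elim {U : Dst} {X Y : Type} {F : FunRel U (nablaObj X)} {f : X → Y}
    {I : Type} {χ : I → Sig} {u : I → U.carrier} {x : I → X} {y : I → Y}
    (h : Ent χ (fun i => F.rel (u i) (x i)))
    (h' : Ent χ (fun i => (F.comp (nablaRel f)).rel (u i) (y i))) :
    Ent χ (fun i => tv (f (x i) = y i)) := by
  refine Ent.ex_cases h' ?_
  have h1 := Ent.newhyp χ (fun i (x' : X) => (F.rel (u i) x').and ((nablaRel f).rel x' (y i)))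
  have h2 := h.lift (fun i (x' : X) => (F.rel (u i) x').and ((nablaRel f).rel x' (y i)))
  have h3 := F.single' h2 h1.and_fst
  refine (Ent.tv_and h3 h1.and_snd).trans (Ent.tv_mono ?_)
  rintro ⟨i, x'⟩ ⟨e, hy⟩
  simp only at e hy ⊢
  rw [e, hy]

theorem case_equal {U : Dst} {X Y : Type} (F : FunRel U (nablaObj X)) (f g : X → Y) :
    F.hom ≫ (nablaRel f).hom = F.hom ≫ (nablaRel g).hom ↔ Le F (fun x => f x = g x) := by
  rw [FunRel.hom_comp, FunRel.hom_comp, FunRel.hom_eq_iff]
  constructor
  · intro h
    have h0 := Ent.refl (fun p : U.carrier × X => F.rel p.1 p.2)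
    have h1 : Ent (fun p : U.carrier × X => F.rel p.1 p.2)
        (fun p => (F.comp (nablaRel f)).rel p.1 (f p.2)) :=
      comp_nabla_intro h0 (Ent.tv_intro _ (fun _ => rfl))
    have h2 := h1.trans (h.reindex (fun p : U.carrier × X => (p.1, f p.2)))
    exact (comp_nabla_elim h0 h2).trans (Ent.tv_mono (fun _ e => e.symm))
  · intro h
    refine Ent.ex_cases (Ent.refl _) ?_
    have h1 := Ent.newhyp (fun p : U.carrier × Y => (F.comp (nablaRel f)).rel p.1 p.2)
      (fun p (x : X) => (F.rel p.1 x).and ((nablaRel f).rel x p.2))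
    refine comp_nabla_intro h1.and_fst ?_
    exact (Ent.tv_and (h.apply h1.and_fst) h1.and_snd).trans
      (Ent.tv_mono (fun _ e => e.1.symm.trans e.2))

theorem case_rel {U : Dst} {X Y : Type} (F : FunRel U (nablaObj X)) (f : X → Y)
    (S : Y → Prop) :
    (∃ ρ : U ⟶ nablaObj {y : Y // S y},
      ρ ≫ (nablaRel (fun y : {y : Y // S y} => y.val)).hom = F.hom ≫ (nablaRel f).hom) ↔
      Le F (fun x => S (f x)) := by
  constructor
  · rintro ⟨ρ, h⟩
    obtain ⟨R, rfl⟩ := FunRel.exists_rep ρ
    rw [FunRel.hom_comp, FunRel.hom_comp] at h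
    have h' := FunRel.hom_eq_iff.1 h.symm
    have h0 := Ent.refl (fun p : U.carrier × X => F.rel p.1 p.2)
    have h1 : Ent (fun p : U.carrier × X => F.rel p.1 p.2)
        (fun p => (F.comp (nablaRel f)).rel p.1 (f p.2)) :=
      comp_nabla_intro h0 (Ent.tv_intro _ (fun _ => rfl))
    have h2 := h1.trans (h'.reindex (fun p : U.carrier × X => (p.1, f p.2)))
    refine Ent.ex_cases h2 ?_
    have h3 := Ent.newhyp (fun p : U.carrier × X => F.rel p.1 p.2)
      (fun p (y : {y : Y // S y}) => (R.rel p.1 y).and
        ((nablaRel (fun y : {y : Y // S y} => y.val)).rel y (f p.2)))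
    refine h3.and_snd.trans (Ent.tv_mono ?_)
    rintro ⟨p, y⟩ e
    simp only at e ⊢
    rw [← e]
    exact y.2
  · intro h
    refine ⟨FunRel.hom ?_, ?_⟩
    · exact {
        rel := fun u y => Sig.ex (fun x : X => (F.rel u x).and (tv (f x = y.val)))
        strict := by
          refine Ent.ex_cases (Ent.refl _) ?_
          have h1 := Ent.newhyp (fun p : U.carrier × {y : Y // S y} =>
            Sig.ex (fun x : X => (F.rel p.1 x).and (tv (f x = p.2.val))))
            (fun p x => (F.rel p.1 x).and (tv (f x = p.2.val)))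
          exact (F.strict_left h1.and_fst).and_intro (Ent.tv_intro _ (fun _ => rfl))
        ext := by
          let C : (U.carrier × U.carrier) × ({y : Y // S y} × {y : Y // S y}) → Sig := fun p =>
            (Sig.ex (fun x : X => (F.rel p.1.1 x).and (tv (f x = p.2.1.val)))).and
              ((U.eq p.1.1 p.1.2).and (tv (p.2.1 = p.2.2)))
          have h0 : Ent C C := Ent.refl C
          refine Ent.ex_cases h0.and_fst ?_
          have h1 := Ent.newhyp C (fun p (x : X) => (F.rel p.1.1 x).and (tv (f x = p.2.1.val)))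
          have h2 := h0.and_snd.lift
            (fun p (x : X) => (F.rel p.1.1 x).and (tv (f x = p.2.1.val)))
          refine Ent.ex_witness (fun p => p.2) ((F.ext_left h1.and_fst h2.and_fst).and_intro ?_)
          exact (Ent.tv_and h1.and_snd h2.and_snd).trans
            (Ent.tv_mono (fun p e => e.1.trans (congrArg Subtype.val e.2)))
        single := by
          let C : U.carrier × ({y : Y // S y} × {y : Y // S y}) → Sig := fun p =>
            (Sig.ex (fun x : X => (F.rel p.1 x).and (tv (f x = p.2.1.val)))).and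
              (Sig.ex (fun x : X => (F.rel p.1 x).and (tv (f x = p.2.2.val))))
          have h0 : Ent C C := Ent.refl C
          show Ent C (fun p => tv (p.2.1 = p.2.2))
          refine Ent.ex_cases h0.and_fst ?_
          have h1 := Ent.newhyp C (fun p (x : X) => (F.rel p.1 x).and (tv (f x = p.2.1.val)))
          have h01 : Ent C (fun p => Sig.ex (fun x : X => (F.rel p.1 x).and
            (tv (f x = p.2.2.val)))) := h0.and_snd
          refine Ent.ex_cases (h01.lift
            (fun p (x : X) => (F.rel p.1 x).and (tv (f x = p.2.1.val)))) ?_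
          have h2 := h1.lift (fun q (x : X) => (F.rel q.1.1 x).and (tv (f x = q.1.2.2.val)))
          have h3 := Ent.newhyp
            (fun q : (U.carrier × ({y : Y // S y} × {y : Y // S y})) × X =>
              (C q.1).and ((F.rel q.1.1 q.2).and (tv (f q.2 = q.1.2.1.val))))
            (fun q (x : X) => (F.rel q.1.1 x).and (tv (f x = q.1.2.2.val)))
          have h4 := F.single' h2.and_fst h3.and_fst
          refine (Ent.tv_and h4 (Ent.tv_and h2.and_snd h3.and_snd)).trans (Ent.tv_mono ?_)
          rintro ⟨⟨p, x⟩, x'⟩ ⟨e1, e2, e3⟩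
          simp only at e1 e2 e3 ⊢
          apply Subtype.ext
          rw [← e2, ← e3, e1]
        total := by
          refine Ent.ex_cases F.total ?_
          have h1 := Ent.newhyp (fun u : U.carrier => U.eq u u) (fun u x => F.rel u x)
          have h2 := h.apply h1
          have key : Ent (fun p : U.carrier × X => tv (S (f p.2)))
              (fun p => Sig.ex (fun y : {y : Y // S y} => tv (f p.2 = y.val))) := by
            have : (fun p : U.carrier × X => tv (S (f p.2))) =
                fun p => tv (∃ y : {y : Y // S y}, f p.2 = y.val) := by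
              funext p
              congr 1
              apply propext
              exact ⟨fun hs => ⟨⟨f p.2, hs⟩, rfl⟩, fun ⟨y, hy⟩ => by rw [hy]; exact y.2⟩
            rw [this]
            apply Ent.tv_ex
            exact Ent.ex_witness (fun p => p.2) (Ent.refl _)
          refine Ent.ex_cases (h2.trans key) ?_
          have h3 := h1.lift (fun p (y : {y : Y // S y}) => tv (f p.2 = y.val))
          have h4 := Ent.newhyp (fun p : U.carrier × X => (U.eq p.1 p.1).and (F.rel p.1 p.2))
            (fun p (y : {y : Y // S y}) => tv (f p.2 = y.val))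
          exact Ent.ex_witness (fun q => q.2) (Ent.ex_witness (fun q => q.1.2)
            (h3.and_intro h4)) }
    · rw [FunRel.hom_comp, FunRel.hom_comp, FunRel.hom_eq_iff]
      refine Ent.ex_cases (Ent.refl _) ?_
      have h1 := Ent.newhyp (fun p : U.carrier × Y => Sig.ex (fun y : {y : Y // S y} =>
          (Sig.ex (fun x : X => (F.rel p.1 x).and (tv (f x = y.val)))).and (tv (y.val = p.2))))
        (fun p (y : {y : Y // S y}) =>
          (Sig.ex (fun x : X => (F.rel p.1 x).and (tv (f x = y.val)))).and (tv (y.val = p.2)))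
      refine Ent.ex_cases h1.and_fst ?_
      have h2 := h1.and_snd.lift (fun q (x : X) => (F.rel q.1.1 x).and (tv (f x = q.2.val)))
      have h3 := Ent.newhyp (fun q : (U.carrier × Y) × {y : Y // S y} =>
          (Sig.ex (fun y : {y : Y // S y} =>
            (Sig.ex (fun x : X => (F.rel q.1.1 x).and (tv (f x = y.val)))).and
              (tv (y.val = q.1.2)))).and
          ((Sig.ex (fun x : X => (F.rel q.1.1 x).and (tv (f x = q.2.val)))).and
            (tv (q.2.val = q.1.2))))
        (fun q (x : X) => (F.rel q.1.1 x).and (tv (f x = q.2.val)))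
      refine comp_nabla_intro h3.and_fst ?_
      exact (Ent.tv_and h3.and_snd h2).trans (Ent.tv_mono (fun _ e => e.1.trans e.2))

end Pool.Agent.Lib.MP_3e25b1_lc
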