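import Pool.Agent.Lib.MP_3e25b1_lc.Nabla

/-!
# `∇` preserves finite products
-/

set_option autoImplicit false

namespace Pool.Agent.Lib.MP_3e25b1_lc

open CategoryTheory CategoryTheory.Limits

attribute [local irreducible] Sig.and Sig.or Sig.imp Sig.all Sig.ex Sig.top Sig.bot tv Ent

/-- The pairing of two functional relations into `∇A` and `∇B`. -/
def pairRel {U : Dst} {A B : Type} (F : FunRel U (nablaObj A)) (G : FunRel U (nablaObj B)) :
    FunRel U (nablaObj (A × B)) where
  rel u p := (F.rel u p.1).and (G.rel u p.2)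
  strict := by
    have h := Ent.refl (fun p : U.carrier × (A × B) => (F.rel p.1 p.2.1).and (G.rel p.1 p.2.2))
    exact (F.strict_left h.and_fst).and_intro (Ent.tv_intro _ (fun _ => rfl))
  ext := by
    have h := Ent.refl (fun p : (U.carrier × U.carrier) × ((A × B) × (A × B)) =>
      ((F.rel p.1.1 p.2.1.1).and (G.rel p.1.1 p.2.1.2)).and
        ((U.eq p.1.1 p.1.2).and (tv (p.2.1 = p.2.2))))
    refine (F.ext' h.and_fst.and_fst h.and_snd.and_fst ?_).and_intro
      (G.ext' h.and_fst.and_snd h.and_snd.and_fst ?_)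
    · exact h.and_snd.and_snd.trans (Ent.tv_mono (fun _ e => congrArg Prod.fst e))
    · exact h.and_snd.and_snd.trans (Ent.tv_mono (fun _ e => congrArg Prod.snd e))
  single := by
    have h := Ent.refl (fun p : U.carrier × ((A × B) × (A × B)) =>
      ((F.rel p.1 p.2.1.1).and (G.rel p.1 p.2.1.2)).and
        ((F.rel p.1 p.2.2.1).and (G.rel p.1 p.2.2.2)))
    exact (Ent.tv_and (F.single' h.and_fst.and_fst h.and_snd.and_fst)
      (G.single' h.and_fst.and_snd h.and_snd.and_snd)).trans
        (Ent.tv_mono (fun _ e => Prod.ext e.1 e.2))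
  total := by
    have h0 := Ent.refl (fun u : U.carrier => U.eq u u)
    refine Ent.ex_cases (F.total' h0) ?_
    have h1 := Ent.newhyp (fun u : U.carrier => U.eq u u) (fun u a => F.rel u a)
    have h2 := h0.lift (fun u a => F.rel u a)
    refine Ent.ex_cases (G.total' h2) ?_
    have h3 := h1.lift (fun (q : U.carrier × A) b => G.rel q.1 b)
    have h4 := Ent.newhyp (fun q : U.carrier × A => (U.eq q.1 q.1).and (F.rel q.1 q.2))
      (fun (q : U.carrier × A) b => G.rel q.1 b)
    exact Ent.ex_witness (fun q : (U.carrier × A) × B => (q.1.2, q.2)) (h3.and_intro h4)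

theorem pairRel_fst {U : Dst} {A B : Type} (F : FunRel U (nablaObj A))
    (G : FunRel U (nablaObj B)) :
    (pairRel F G).hom ≫ (nablaRel (Prod.fst : A × B → A)).hom = F.hom := by
  rw [FunRel.hom_comp, FunRel.hom_eq_iff]
  refine Ent.ex_cases (Ent.refl _) ?_
  have h := Ent.newhyp (fun p : U.carrier × A =>
      ((pairRel F G).comp (nablaRel (Prod.fst : A × B → A))).rel p.1 p.2)
    (fun p (c : A × B) => ((F.rel p.1 c.1).and (G.rel p.1 c.2)).and (tv (c.1 = p.2)))
  exact F.ext_right h.and_fst.and_fst h.and_snd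

theorem pairRel_snd {U : Dst} {A B : Type} (F : FunRel U (nablaObj A))
    (G : FunRel U (nablaObj B)) :
    (pairRel F G).hom ≫ (nablaRel (Prod.snd : A × B → B)).hom = G.hom := by
  rw [FunRel.hom_comp, FunRel.hom_eq_iff]
  refine Ent.ex_cases (Ent.refl _) ?_
  have h := Ent.newhyp (fun p : U.carrier × B =>
      ((pairRel F G).comp (nablaRel (Prod.snd : A × B → B))).rel p.1 p.2)
    (fun p (c : A × B) => ((F.rel p.1 c.1).and (G.rel p.1 c.2)).and (tv (c.2 = p.2)))
  exact G.ext_right h.and_fst.and_snd h.and_snd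

theorem pairRel_uniq {U : Dst} {A B : Type} (F : FunRel U (nablaObj A))
    (G : FunRel U (nablaObj B)) (K : FunRel U (nablaObj (A × B)))
    (h1 : K.hom ≫ (nablaRel (Prod.fst : A × B → A)).hom = F.hom)
    (h2 : K.hom ≫ (nablaRel (Prod.snd : A × B → B)).hom = G.hom) :
    K.hom = (pairRel F G).hom := by
  rw [FunRel.hom_comp, FunRel.hom_eq_iff] at h1 h2
  rw [FunRel.hom_eq_iff]
  have h0 := Ent.refl (fun p : U.carrier × (A × B) => K.rel p.1 p.2)
  have k1 : Ent (fun p : U.carrier × (A × B) => K.rel p.1 p.2)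
      (fun p => (K.comp (nablaRel (Prod.fst : A × B → A))).rel p.1 p.2.1) :=
    Ent.ex_witness (fun p => p.2) (h0.and_intro (Ent.tv_intro _ (fun _ => rfl)))
  have k2 : Ent (fun p : U.carrier × (A × B) => K.rel p.1 p.2)
      (fun p => (K.comp (nablaRel (Prod.snd : A × B → B))).rel p.1 p.2.2) :=
    Ent.ex_witness (fun p => p.2) (h0.and_intro (Ent.tv_intro _ (fun _ => rfl)))
  exact (k1.trans (h1.reindex (fun p : U.carrier × (A × B) => (p.1, p.2.1)))).and_intro
    (k2.trans (h2.reindex (fun p : U.carrier × (A × B) => (p.1, p.2.2))))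

/-- A representative of a morphism. -/
noncomputable def rep {X Y : Dst} (f : X ⟶ Y) : FunRel X Y := (FunRel.exists_rep f).choose

theorem rep_hom {X Y : Dst} (f : X ⟶ Y) : (rep f).hom = f := (FunRel.exists_rep f).choose_spec

/-- `∇(A × B)` is the product of `∇A` and `∇B`. -/
noncomputable def nablaPairIsLimit (A B : Type) :
    IsLimit (BinaryFan.mk (nablaRel (Prod.fst : A × B → A)).hom
      (nablaRel (Prod.snd : A × B → B)).hom) :=
  BinaryFan.IsLimit.mk _
    (fun f g => (pairRel (rep f) (rep g)).hom)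
    (fun f g => (pairRel_fst (rep f) (rep g)).trans (rep_hom f))
    (fun f g => (pairRel_snd (rep f) (rep g)).trans (rep_hom g))
    (fun f g m h1 h2 => by
      obtain ⟨K, rfl⟩ := FunRel.exists_rep m
      exact pairRel_uniq (rep f) (rep g) K (h1.trans (rep_hom f).symm)
        (h2.trans (rep_hom g).symm))

/-- `∇` preserves finite products. -/
theorem nabla_preservesFiniteProducts : PreservesFiniteProducts nabla := by
  have h1 : PreservesLimitsOfShape (Discrete WalkingPair) nabla := by
    refine ⟨fun {K} => ?_⟩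
    have : PreservesLimit (pair (K.obj ⟨WalkingPair.left⟩) (K.obj ⟨WalkingPair.right⟩)) nabla :=
      preservesLimit_of_preserves_limit_cone (Types.binaryProductLimit _ _)
        ((isLimitMapConeBinaryFanEquiv nabla _ _).symm (nablaPairIsLimit _ _))
    exact preservesLimit_of_iso_diagram nabla (diagramIsoPair K).symm
  have h2 : PreservesLimitsOfShape (Discrete.{0} PEmpty) nabla := by
    obtain ⟨hT⟩ := nabla_unit_terminal
    have : PreservesLimit (Functor.empty.{0} Type) nabla := by
      refine preservesLimit_of_preserves_limit_cone (Types.isTerminalPUnit) ?_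
      exact (isLimitMapConeEmptyConeEquiv nabla PUnit).symm hT
    exact preservesLimitsOfShape_pempty_of_preservesTerminal nabla
  exact PreservesFiniteProducts.of_preserves_binary_and_terminal nabla

end Pool.Agent.Lib.MP_3e25b1_lc
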