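import Pool.Agent.Lib.MP_3e25b1_lc.Ops

/-!
# Disjunction and the quantifiers of the `D_st`-tripos
-/

set_option autoImplicit false

namespace Pool.Agent.Lib.MP_3e25b1_lc

/-! ## Disjunction -/

/-- Disjunction. -/
def Sig.or (p q : Sig) : Sig where
  pos := sumS (star p.pos) (star q.pos)
  neg := prodS (arr (star p.pos) (star p.neg)) (arr (star q.pos) (star q.neg))
  rel A n := A ∈ star (sumS (star p.pos) (star q.pos)) ∧
    n ∈ prodS (arr (star p.pos) (star p.neg)) (arr (star q.pos) (star q.neg)) ∧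
    ((∃ a, Nat.pair 0 a ∈ elts A ∧ ∀ s ∈ app n.unpair.1 a, ∀ c ∈ elts s, p.rel a c) ∨
      (∃ a, Nat.pair 1 a ∈ elts A ∧ ∀ s ∈ app n.unpair.2 a, ∀ c ∈ elts s, q.rel a c))
  dom := by
    rintro a b ⟨h1, h2, _⟩
    exact ⟨h1, h2⟩
  up := by
    rintro A A' b hA' hsub ⟨_, hb, h⟩
    refine ⟨hA', hb, ?_⟩
    rcases h with ⟨a, ha, h⟩ | ⟨a, ha, h⟩
    · exact Or.inl ⟨a, hsub _ ha, h⟩
    · exact Or.inr ⟨a, hsub _ ha, h⟩

theorem Ent.or_left {I : Type} (φ ψ : I → Sig) :
    Ent φ (fun i => (φ i).or (ψ i)) := by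
  refine ent_intro (fun a => Part.some (mk [Nat.pair 0 a])) (fun a n => app n.unpair.1 a) ?_ ?_ ?_
  · exact (single_computable
      (Primrec₂.natPair.to_comp.comp (Computable.const 0) Computable.id)).partrec
  · exact app_partrec.comp (Computable.fst.comp (Computable.unpair.comp Computable.snd))
      Computable.fst
  · intro i a ha
    have hm : mk [Nat.pair 0 a] ∈ star (sumS (star (φ i).pos) (star (ψ i).pos)) := by
      rw [single_mem_star]; left; exact ⟨by simp, by simpa [Sig.pp] using ha⟩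
    refine ⟨_, Part.mem_some _, hm, ?_⟩
    intro n hn
    obtain ⟨s, hs, hs'⟩ := hn.1 a ha
    refine ⟨s, hs, hs', fun hc => ⟨hm, hn, Or.inl ⟨a, mem_single.2 rfl, ?_⟩⟩⟩
    intro s' hs'' c hcs
    rw [Part.mem_unique hs'' hs] at hcs
    exact hc c hcs

theorem Ent.or_right {I : Type} (φ ψ : I → Sig) :
    Ent ψ (fun i => (φ i).or (ψ i)) := by
  refine ent_intro (fun a => Part.some (mk [Nat.pair 1 a])) (fun a n => app n.unpair.2 a) ?_ ?_ ?_
  · exact (single_computable
      (Primrec₂.natPair.to_comp.comp (Computable.const 1) Computable.id)).partrec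
  · exact app_partrec.comp (Computable.snd.comp (Computable.unpair.comp Computable.snd))
      Computable.fst
  · intro i a ha
    have hm : mk [Nat.pair 1 a] ∈ star (sumS (star (φ i).pos) (star (ψ i).pos)) := by
      rw [single_mem_star]; right; exact ⟨by simp, by simpa [Sig.pp] using ha⟩
    refine ⟨_, Part.mem_some _, hm, ?_⟩
    intro n hn
    obtain ⟨s, hs, hs'⟩ := hn.2 a ha
    refine ⟨s, hs, hs', fun hc => ⟨hm, hn, Or.inr ⟨a, mem_single.2 rfl, ?_⟩⟩⟩
    intro s' hs'' c hcs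
    rw [Part.mem_unique hs'' hs] at hcs
    exact hc c hcs

theorem Ent.or_elim {I : Type} {φ ψ χ : I → Sig} (h : Ent φ χ) (h' : Ent ψ χ) :
    Ent (fun i => (φ i).or (ψ i)) χ := by
  obtain ⟨P, N, hP, hN, H⟩ := h.elim
  obtain ⟨P', N', hP', hN', H'⟩ := h'.elim
  have hp0 : Computable (fun a : ℕ => part 0 a) :=
    part_computable.comp (Computable.const 0) Computable.id
  have hp1 : Computable (fun a : ℕ => part 1 a) :=
    part_computable.comp (Computable.const 1) Computable.id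
  obtain ⟨g1, hg1, hg1'⟩ := exists_smn (f := fun b a => N a b)
    (hN.comp Computable.snd Computable.fst)
  obtain ⟨g2, hg2, hg2'⟩ := exists_smn (f := fun b a => N' a b)
    (hN'.comp Computable.snd Computable.fst)
  have hb1 : Partrec₂ (bigU (fun _ x => P x)) := bigU_partrec (hP.comp Computable.snd)
  have hb2 : Partrec₂ (bigU (fun _ x => P' x)) := bigU_partrec (hP'.comp Computable.snd)
  refine ent_intro
    (fun A => (bigU (fun _ x => P x) 0 (part 0 A)).bind fun s =>
      (bigU (fun _ x => P' x) 0 (part 1 A)).map fun t => mk (elts s ++ elts t))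
    (fun _ b => Part.some (mk [Nat.pair (g1 b) (g2 b)])) ?_ ?_ ?_
  · have h1 : Partrec (fun A : ℕ => bigU (fun _ x => P x) 0 (part 0 A)) :=
      hb1.comp (Computable.const 0) hp0
    have hq : Computable (fun q : ℕ × ℕ => part 1 q.1) :=
      part_computable.comp (Computable.const 1) Computable.fst
    have h2 : Partrec (fun q : ℕ × ℕ => bigU (fun _ x => P' x) 0 (part 1 q.1)) :=
      hb2.comp (Computable.const 0) hq
    have h3 : Computable₂ (fun (q : ℕ × ℕ) (t : ℕ) => mk (elts q.2 ++ elts t)) :=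
      mk_computable.comp (Computable.list_append.comp
        (elts_computable.comp (Computable.snd.comp Computable.fst))
        (elts_computable.comp Computable.snd))
    exact h1.bind (h2.map h3)
  · exact (single_computable (Primrec₂.natPair.to_comp.comp (hg1.comp Computable.snd)
      (hg2.comp Computable.snd))).partrec
  · intro i A hA
    have hA0 := part_zero_mem_star hA
    have hA1 := part_one_mem_star hA
    have hd : ∀ x ∈ elts (part 0 A), (P x).Dom := by
      intro x hx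
      obtain ⟨y, hy, _⟩ := H i x (hA0 x hx)
      exact Part.dom_iff_mem.2 ⟨y, hy⟩
    have hd' : ∀ x ∈ elts (part 1 A), (P' x).Dom := by
      intro x hx
      obtain ⟨y, hy, _⟩ := H' i x (hA1 x hx)
      exact Part.dom_iff_mem.2 ⟨y, hy⟩
    obtain ⟨s, hs, hsz⟩ := bigU_spec (fun _ x => P x) 0 (part 0 A) hd
    obtain ⟨t, ht, htz⟩ := bigU_spec (fun _ x => P' x) 0 (part 1 A) hd'
    have hmem : mk (elts s ++ elts t) ∈ star (χ i).pos := by
      intro z hz
      rw [elts_mk, List.mem_append] at hz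
      rcases hz with hz | hz
      · obtain ⟨x, hx, y, hy, hzy⟩ := (hsz z).1 hz
        obtain ⟨y', hy', hys, _⟩ := H i x (hA0 x hx)
        rw [Part.mem_unique hy hy'] at hzy
        exact hys z hzy
      · obtain ⟨x, hx, y, hy, hzy⟩ := (htz z).1 hz
        obtain ⟨y', hy', hys, _⟩ := H' i x (hA1 x hx)
        rw [Part.mem_unique hy hy'] at hzy
        exact hys z hzy
    refine ⟨_, Part.mem_bind hs (Part.mem_map _ ht), hmem, ?_⟩
    intro b hb
    refine ⟨_, Part.mem_some _, ?_, ?_⟩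
    · rw [single_mem_star]
      refine pair_mem_prodS.2 ⟨?_, ?_⟩
      · intro a ha
        obtain ⟨_, _, _, h2⟩ := H i a ha
        obtain ⟨u, hu, hu', _⟩ := h2 b hb
        exact ⟨u, by rw [hg1']; exact hu, hu'⟩
      · intro a ha
        obtain ⟨_, _, _, h2⟩ := H' i a ha
        obtain ⟨u, hu, hu', _⟩ := h2 b hb
        exact ⟨u, by rw [hg2']; exact hu, hu'⟩
    · intro hc
      obtain ⟨_, _, h3⟩ := hc _ (mem_single.2 rfl)
      simp only [Nat.unpair_pair] at h3
      rcases h3 with ⟨a, ha, h3⟩ | ⟨a, ha, h3⟩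
      · have ha' := mem_part.2 ha
        obtain ⟨y, hy, _, h2⟩ := H i a (hA0 a ha')
        obtain ⟨u, hu, _, h4⟩ := h2 b hb
        refine (χ i).up hmem ?_ (h4 (fun c hcu => h3 u (by rw [hg1']; exact hu) c hcu))
        intro x hx
        rw [elts_mk, List.mem_append]
        left
        exact (hsz x).2 ⟨a, ha', y, hy, hx⟩
      · have ha' := mem_part.2 ha
        obtain ⟨y, hy, _, h2⟩ := H' i a (hA1 a ha')
        obtain ⟨u, hu, _, h4⟩ := h2 b hb
        refine (χ i).up hmem ?_ (h4 (fun c hcu => h3 u (by rw [hg2']; exact hu) c hcu))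
        intro x hx
        rw [elts_mk, List.mem_append]
        right
        exact (htz x).2 ⟨a, ha', y, hy, hx⟩

/-! ## Universal quantification -/

/-- Universal quantification over an index type (possibly empty). -/
def Sig.all {J : Type} (φ : J → Sig) : Sig where
  pos := {e | ∀ j, e ∈ arr {0} (star (φ j).pos)}
  neg := {b | ∃ j, b ∈ (φ j).neg}
  rel E b := E ∈ star {e | ∀ j, e ∈ arr {0} (star (φ j).pos)} ∧ (∃ j, b ∈ (φ j).neg) ∧
    ∀ j, b ∈ (φ j).neg → ∃ t, IsUnion (fun e => e) E 0 t ∧ (φ j).rel t b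
  dom := by
    rintro a b ⟨h1, h2, _⟩
    exact ⟨h1, h2⟩
  up := by
    rintro E E' b hE' hsub ⟨hE, hb, h⟩
    refine ⟨hE', hb, fun j hj => ?_⟩
    obtain ⟨t, ht, hr⟩ := h j hj
    have hd : ∀ e ∈ elts E', (app e 0).Dom := by
      intro e he
      obtain ⟨y, hy, _⟩ := hE' e he j 0 rfl
      exact Part.dom_iff_mem.2 ⟨y, hy⟩
    obtain ⟨t', ht'⟩ := exists_isUnion (f := fun e => e) hd
    refine ⟨t', ht', (φ j).up ?_ ?_ hr⟩
    · intro z hz
      obtain ⟨e, he, y, hy, hzy⟩ := (ht' z).1 hz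
      obtain ⟨y', hy', hys⟩ := hE' e he j 0 rfl
      rw [Part.mem_unique hy hy'] at hzy
      exact hys z hzy
    · intro z hz
      obtain ⟨e, he, y, hy, hzy⟩ := (ht z).1 hz
      exact (ht' z).2 ⟨e, hsub e he, y, hy, hzy⟩

theorem Ent.all_intro {I : Type} {J : I → Type} {χ : I → Sig} {φ : (i : I) → J i → Sig}
    (h : Ent (fun p : (Σ i, J i) => χ p.1) (fun p => φ p.1 p.2)) :
    Ent χ (fun i => Sig.all (φ i)) := by
  obtain ⟨P, N, hP, hN, H⟩ := h.elim
  obtain ⟨g, hg, hg'⟩ := exists_smn (f := fun a _ => P a) (hP.comp Computable.fst)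
  refine ent_intro (fun a => Part.some (mk [g a])) N (single_computable hg).partrec hN ?_
  intro i a ha
  have hmem : mk [g a] ∈ star {e | ∀ j, e ∈ arr {0} (star (φ i j).pos)} := by
    rw [single_mem_star]
    intro j x hx
    obtain ⟨y, hy, hy', _⟩ := H ⟨i, j⟩ a ha
    exact ⟨y, by rw [hg']; exact hy, hy'⟩
  refine ⟨_, Part.mem_some _, hmem, ?_⟩
  rintro b ⟨j, hj⟩
  obtain ⟨y, hy, hy', h2⟩ := H ⟨i, j⟩ a ha
  obtain ⟨s, hs, hs', h3⟩ := h2 b hj
  refine ⟨s, hs, hs', fun hc => ⟨hmem, ⟨j, hj⟩, fun j' hj' => ?_⟩⟩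
  obtain ⟨y2, hy2, hy2', h4⟩ := H ⟨i, j'⟩ a ha
  obtain ⟨s2, hs2, hs2', h5⟩ := h4 b hj'
  refine ⟨y2, ?_, h5 ?_⟩
  · intro z
    constructor
    · intro hz
      exact ⟨_, mem_single.2 rfl, y2, by rw [hg']; exact hy2, hz⟩
    · rintro ⟨e, he, y3, hy3, hz⟩
      rw [mem_single] at he
      subst he
      rw [hg'] at hy3
      rwa [Part.mem_unique hy2 hy3]
  · rw [Part.mem_unique hs2 hs]
    exact hc

theorem Ent.all_elim {I : Type} {J : I → Type} (φ : (i : I) → J i → Sig) :
    Ent (fun p : (Σ i, J i) => Sig.all (φ p.1)) (fun p => φ p.1 p.2) := by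
  have hf : Partrec₂ (fun x e : ℕ => app e x) := app_partrec.comp Computable.snd Computable.fst
  refine ent_intro (fun E => bigU (fun x e => app e x) 0 E)
    (fun _ b => Part.some (mk [b])) ?_ ?_ ?_
  · exact (bigU_partrec hf).comp (Computable.const 0) Computable.id
  · exact (single_computable Computable.snd).partrec
  · rintro ⟨i, j⟩ E hE
    have hd : ∀ e ∈ elts E, (app e 0).Dom := by
      intro e he
      obtain ⟨y, hy, _⟩ := hE e he j 0 rfl
      exact Part.dom_iff_mem.2 ⟨y, hy⟩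
    obtain ⟨t, ht, htz⟩ := bigU_spec (fun x e => app e x) 0 E hd
    refine ⟨t, ht, ?_, ?_⟩
    · intro z hz
      obtain ⟨e, he, y, hy, hzy⟩ := (htz z).1 hz
      obtain ⟨y', hy', hys⟩ := hE e he j 0 rfl
      rw [Part.mem_unique hy hy'] at hzy
      exact hys z hzy
    · intro b hb
      refine ⟨_, Part.mem_some _, ?_, ?_⟩
      · rw [single_mem_star]
        exact ⟨j, hb⟩
      · intro hc
        obtain ⟨_, _, h⟩ := hc b (mem_single.2 rfl)
        obtain ⟨t', ht', hr⟩ := h j hb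
        refine (rel_congr (φ i j) ?_).1 hr
        intro x
        rw [ht' x, htz x]

/-! ## Existential quantification -/

theorem Ent.ex_elim {I : Type} {J : I → Type} {φ : (i : I) → J i → Sig} {ψ : I → Sig}
    (h : Ent (fun p : (Σ i, J i) => φ p.1 p.2) (fun p => ψ p.1)) :
    Ent (fun i => Sig.ex (φ i)) ψ := by
  obtain ⟨P, N, hP, hN, H⟩ := h.elim
  obtain ⟨g, hg, hg'⟩ := exists_smn (f := fun b a => N a b)
    (hN.comp Computable.snd Computable.fst)
  have hb1 : Partrec₂ (bigU (fun _ x => P x)) := bigU_partrec (hP.comp Computable.snd)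
  refine ent_intro (fun A => bigU (fun _ x => P x) 0 A) (fun _ b => Part.some (mk [g b])) ?_ ?_ ?_
  · exact hb1.comp (Computable.const 0) Computable.id
  · exact (single_computable (hg.comp Computable.snd)).partrec
  · intro i A hA
    have hd : ∀ x ∈ elts A, (P x).Dom := by
      intro x hx
      obtain ⟨j, hj⟩ := hA x hx
      obtain ⟨y, hy, _⟩ := H ⟨i, j⟩ x hj
      exact Part.dom_iff_mem.2 ⟨y, hy⟩
    obtain ⟨s, hs, hsz⟩ := bigU_spec (fun _ x => P x) 0 A hd
    have hmem : s ∈ star (ψ i).pos := by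
      intro z hz
      obtain ⟨x, hx, y, hy, hzy⟩ := (hsz z).1 hz
      obtain ⟨j, hj⟩ := hA x hx
      obtain ⟨y', hy', hys, _⟩ := H ⟨i, j⟩ x hj
      rw [Part.mem_unique hy hy'] at hzy
      exact hys z hzy
    refine ⟨s, hs, hmem, ?_⟩
    intro b hb
    refine ⟨_, Part.mem_some _, ?_, ?_⟩
    · rw [single_mem_star]
      intro j a ha
      obtain ⟨_, _, _, h2⟩ := H ⟨i, j⟩ a ha
      obtain ⟨u, hu, hu', _⟩ := h2 b hb
      exact ⟨u, by rw [hg']; exact hu, hu'⟩
    · intro hc
      obtain ⟨_, _, j, a, ha, ha', h3⟩ := hc _ (mem_single.2 rfl)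
      obtain ⟨y, hy, _, h2⟩ := H ⟨i, j⟩ a ha'
      obtain ⟨u, hu, _, h4⟩ := h2 b hb
      refine (ψ i).up hmem ?_ (h4 (fun c hcu => h3 u (by rw [hg']; exact hu) c hcu))
      intro x hx
      exact (hsz x).2 ⟨a, ha, y, hy, hx⟩

theorem Ent.ex_intro {I : Type} {J : I → Type} (φ : (i : I) → J i → Sig) :
    Ent (fun p : (Σ i, J i) => φ p.1 p.2) (fun p => Sig.ex (φ p.1)) := by
  refine ent_intro (fun a => Part.some (mk [a])) (fun a f => app f a) ?_ ?_ ?_
  · exact (single_computable Computable.id).partrec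
  · exact app_partrec.comp Computable.snd Computable.fst
  · rintro ⟨i, j⟩ a ha
    have hm : mk [a] ∈ star {a | ∃ j, a ∈ star (φ i j).pos} := by
      rw [single_mem_star]; exact ⟨j, ha⟩
    refine ⟨_, Part.mem_some _, hm, ?_⟩
    intro f hf
    obtain ⟨s, hs, hs'⟩ := hf j a ha
    refine ⟨s, hs, hs', fun hc => ⟨hm, hf, j, a, mem_single.2 rfl, ha, ?_⟩⟩
    intro s' hs'' c hcs
    rw [Part.mem_unique hs'' hs] at hcs
    exact hc c hcs

end Pool.Agent.Lib.MP_3e25b1_lc
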