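import Pool.Agent.Lib.MP_3e25b1_lc.Logic
import Pool.Agent.Lib.MP_3e25b1_lc.Objects

/-!
# Lemmas on functional relations
-/

set_option autoImplicit false

namespace Pool.Agent.Lib.MP_3e25b1_lc

attribute [local irreducible] Sig.and Sig.or Sig.imp Sig.all Sig.ex Sig.top Sig.bot tv Ent

section
variable {I : Type} {χ : I → Sig}

theorem Dst.symm' (X : Dst) {x y : I → X.carrier}
    (h : Ent χ (fun i => X.eq (x i) (y i))) : Ent χ (fun i => X.eq (y i) (x i)) :=
  h.trans (X.symm.reindex (fun i => (x i, y i)))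

theorem Dst.trans' (X : Dst) {x y z : I → X.carrier}
    (h : Ent χ (fun i => X.eq (x i) (y i))) (h' : Ent χ (fun i => X.eq (y i) (z i))) :
    Ent χ (fun i => X.eq (x i) (z i)) :=
  (h.and_intro h').trans (X.trans.reindex (fun i => (x i, (y i, z i))))

theorem Dst.left (X : Dst) {x y : I → X.carrier}
    (h : Ent χ (fun i => X.eq (x i) (y i))) : Ent χ (fun i => X.eq (x i) (x i)) :=
  X.trans' h (X.symm' h)

theorem Dst.right (X : Dst) {x y : I → X.carrier}
    (h : Ent χ (fun i => X.eq (x i) (y i))) : Ent χ (fun i => X.eq (y i) (y i)) :=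
  X.trans' (X.symm' h) h

variable {X Y : Dst} (F : FunRel X Y)

theorem FunRel.strict_left {x : I → X.carrier} {y : I → Y.carrier}
    (h : Ent χ (fun i => F.rel (x i) (y i))) : Ent χ (fun i => X.eq (x i) (x i)) :=
  (h.trans (F.strict.reindex (fun i => (x i, y i)))).and_fst

theorem FunRel.strict_right {x : I → X.carrier} {y : I → Y.carrier}
    (h : Ent χ (fun i => F.rel (x i) (y i))) : Ent χ (fun i => Y.eq (y i) (y i)) :=
  (h.trans (F.strict.reindex (fun i => (x i, y i)))).and_snd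

theorem FunRel.ext' {x x' : I → X.carrier} {y y' : I → Y.carrier}
    (h : Ent χ (fun i => F.rel (x i) (y i))) (hx : Ent χ (fun i => X.eq (x i) (x' i)))
    (hy : Ent χ (fun i => Y.eq (y i) (y' i))) : Ent χ (fun i => F.rel (x' i) (y' i)) :=
  (h.and_intro (hx.and_intro hy)).trans
    (F.ext.reindex (fun i => ((x i, x' i), (y i, y' i))))

theorem FunRel.ext_left {x x' : I → X.carrier} {y : I → Y.carrier}
    (h : Ent χ (fun i => F.rel (x i) (y i))) (hx : Ent χ (fun i => X.eq (x i) (x' i))) :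
    Ent χ (fun i => F.rel (x' i) (y i)) :=
  F.ext' h hx (F.strict_right h)

theorem FunRel.ext_right {x : I → X.carrier} {y y' : I → Y.carrier}
    (h : Ent χ (fun i => F.rel (x i) (y i))) (hy : Ent χ (fun i => Y.eq (y i) (y' i))) :
    Ent χ (fun i => F.rel (x i) (y' i)) :=
  F.ext' h (F.strict_left h) hy

theorem FunRel.single' {x : I → X.carrier} {y y' : I → Y.carrier}
    (h : Ent χ (fun i => F.rel (x i) (y i))) (h' : Ent χ (fun i => F.rel (x i) (y' i))) :
    Ent χ (fun i => Y.eq (y i) (y' i)) :=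
  (h.and_intro h').trans (F.single.reindex (fun i => (x i, (y i, y' i))))

theorem FunRel.total' {x : I → X.carrier}
    (h : Ent χ (fun i => X.eq (x i) (x i))) : Ent χ (fun i => Sig.ex (fun y => F.rel (x i) y)) :=
  h.trans (F.total.reindex x)

end


/-! ## The identity and composition: the required entailments -/

theorem id_strict (X : Dst) : Ent (fun p : X.carrier × X.carrier => X.eq p.1 p.2)
    (fun p => (X.eq p.1 p.1).and (X.eq p.2 p.2)) := by
  have h := Ent.refl (fun p : X.carrier × X.carrier => X.eq p.1 p.2)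
  exact (X.left h).and_intro (X.right h)

theorem id_ext (X : Dst) :
    Ent (fun p : (X.carrier × X.carrier) × (X.carrier × X.carrier) =>
      (X.eq p.1.1 p.2.1).and ((X.eq p.1.1 p.1.2).and (X.eq p.2.1 p.2.2)))
    (fun p => X.eq p.1.2 p.2.2) := by
  have h := Ent.refl (fun p : (X.carrier × X.carrier) × (X.carrier × X.carrier) =>
    (X.eq p.1.1 p.2.1).and ((X.eq p.1.1 p.1.2).and (X.eq p.2.1 p.2.2)))
  exact X.trans' (X.symm' h.and_snd.and_fst) (X.trans' h.and_fst h.and_snd.and_snd)

theorem id_single (X : Dst) : Ent (fun p : X.carrier × (X.carrier × X.carrier) =>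
    (X.eq p.1 p.2.1).and (X.eq p.1 p.2.2)) (fun p => X.eq p.2.1 p.2.2) := by
  have h := Ent.refl (fun p : X.carrier × (X.carrier × X.carrier) =>
    (X.eq p.1 p.2.1).and (X.eq p.1 p.2.2))
  exact X.trans' (X.symm' h.and_fst) h.and_snd

theorem id_total (X : Dst) : Ent (fun x : X.carrier => X.eq x x)
    (fun x => Sig.ex (fun y => X.eq x y)) :=
  Ent.ex_witness (fun x => x) (Ent.refl _)

theorem comp_strict {X Y Z : Dst} (F : FunRel X Y) (G : FunRel Y Z) :
    Ent (fun p : X.carrier × Z.carrier => Sig.ex (fun y => (F.rel p.1 y).and (G.rel y p.2)))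
    (fun p => (X.eq p.1 p.1).and (Z.eq p.2 p.2)) := by
  refine Ent.ex_cases (Ent.refl _) ?_
  have h := Ent.newhyp (fun p : X.carrier × Z.carrier =>
    Sig.ex (fun y => (F.rel p.1 y).and (G.rel y p.2)))
    (fun (p : X.carrier × Z.carrier) (y : Y.carrier) => (F.rel p.1 y).and (G.rel y p.2))
  exact (F.strict_left h.and_fst).and_intro (G.strict_right h.and_snd)

theorem comp_ext {X Y Z : Dst} (F : FunRel X Y) (G : FunRel Y Z) :
    Ent (fun p : (X.carrier × X.carrier) × (Z.carrier × Z.carrier) =>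
      (Sig.ex (fun y => (F.rel p.1.1 y).and (G.rel y p.2.1))).and
        ((X.eq p.1.1 p.1.2).and (Z.eq p.2.1 p.2.2)))
    (fun p => Sig.ex (fun y => (F.rel p.1.2 y).and (G.rel y p.2.2))) := by
  have h0 := Ent.refl (fun p : (X.carrier × X.carrier) × (Z.carrier × Z.carrier) =>
    (Sig.ex (fun y => (F.rel p.1.1 y).and (G.rel y p.2.1))).and
      ((X.eq p.1.1 p.1.2).and (Z.eq p.2.1 p.2.2)))
  refine Ent.ex_cases h0.and_fst ?_
  have h := Ent.newhyp (fun p : (X.carrier × X.carrier) × (Z.carrier × Z.carrier) =>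
    (Sig.ex (fun y => (F.rel p.1.1 y).and (G.rel y p.2.1))).and
      ((X.eq p.1.1 p.1.2).and (Z.eq p.2.1 p.2.2)))
    (fun p (y : Y.carrier) => (F.rel p.1.1 y).and (G.rel y p.2.1))
  have h1 := h0.and_snd.lift (fun p (y : Y.carrier) => (F.rel p.1.1 y).and (G.rel y p.2.1))
  exact Ent.ex_witness (fun p => p.2)
    ((F.ext_left h.and_fst h1.and_fst).and_intro (G.ext_right h.and_snd h1.and_snd))

theorem comp_single {X Y Z : Dst} (F : FunRel X Y) (G : FunRel Y Z) :
    Ent (fun p : X.carrier × (Z.carrier × Z.carrier) =>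
      (Sig.ex (fun y => (F.rel p.1 y).and (G.rel y p.2.1))).and
        (Sig.ex (fun y => (F.rel p.1 y).and (G.rel y p.2.2))))
    (fun p => Z.eq p.2.1 p.2.2) := by
  let C : X.carrier × (Z.carrier × Z.carrier) → Sig := fun p =>
    (Sig.ex (fun y => (F.rel p.1 y).and (G.rel y p.2.1))).and
      (Sig.ex (fun y => (F.rel p.1 y).and (G.rel y p.2.2)))
  have h0 : Ent C C := Ent.refl C
  refine Ent.ex_cases h0.and_fst ?_
  have h1 := Ent.newhyp C (fun p (y : Y.carrier) => (F.rel p.1 y).and (G.rel y p.2.1))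
  refine Ent.ex_cases (h0.and_snd.lift
    (fun p (y : Y.carrier) => (F.rel p.1 y).and (G.rel y p.2.1))) ?_
  have h2 := h1.lift (fun q (y : Y.carrier) => (F.rel q.1.1 y).and (G.rel y q.1.2.2))
  have h3 := Ent.newhyp (fun q : (X.carrier × (Z.carrier × Z.carrier)) × Y.carrier =>
      (C q.1).and ((F.rel q.1.1 q.2).and (G.rel q.2 q.1.2.1)))
    (fun q (y : Y.carrier) => (F.rel q.1.1 y).and (G.rel y q.1.2.2))
  have h4 := F.single' h2.and_fst h3.and_fst
  exact G.single' (G.ext_left h2.and_snd h4) h3.and_snd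

theorem comp_total {X Y Z : Dst} (F : FunRel X Y) (G : FunRel Y Z) :
    Ent (fun x : X.carrier => X.eq x x)
    (fun x => Sig.ex (fun z => Sig.ex (fun y => (F.rel x y).and (G.rel y z)))) := by
  refine Ent.ex_cases F.total ?_
  have h1 := Ent.newhyp (fun x : X.carrier => X.eq x x) (fun x y => F.rel x y)
  refine Ent.ex_cases (G.total' (F.strict_right h1)) ?_
  have h2 := h1.lift (fun q (z : Z.carrier) => G.rel q.2 z)
  have h3 := Ent.newhyp (fun q : X.carrier × Y.carrier =>
    (X.eq q.1 q.1).and (F.rel q.1 q.2)) (fun q (z : Z.carrier) => G.rel q.2 z)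
  exact Ent.ex_witness (fun q => q.2) (Ent.ex_witness (fun q => q.1.2) (h2.and_intro h3))

/-- Between functional relations, one entailment suffices. -/
theorem ent_symm_of_ent {X Y : Dst} {F G : FunRel X Y}
    (h : Ent (fun p : X.carrier × Y.carrier => F.rel p.1 p.2) (fun p => G.rel p.1 p.2)) :
    Ent (fun p : X.carrier × Y.carrier => G.rel p.1 p.2) (fun p => F.rel p.1 p.2) := by
  have h0 := Ent.refl (fun p : X.carrier × Y.carrier => G.rel p.1 p.2)
  refine Ent.ex_cases (F.total' (G.strict_left h0)) ?_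
  have h1 := h0.lift (fun p (y : Y.carrier) => F.rel p.1 y)
  have h2 := Ent.newhyp (fun p : X.carrier × Y.carrier => G.rel p.1 p.2)
    (fun p (y : Y.carrier) => F.rel p.1 y)
  have h3 : Ent (fun p : (X.carrier × Y.carrier) × Y.carrier =>
      (G.rel p.1.1 p.1.2).and (F.rel p.1.1 p.2)) (fun p => G.rel p.1.1 p.2) :=
    h2.trans (h.reindex (fun p : (X.carrier × Y.carrier) × Y.carrier => (p.1.1, p.2)))
  exact F.ext_right h2 (G.single' h3 h1)

theorem comp_congr_ent {X Y Z : Dst} {F F' : FunRel X Y} {G G' : FunRel Y Z}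
    (h : Ent (fun p : X.carrier × Y.carrier => F.rel p.1 p.2) (fun p => F'.rel p.1 p.2))
    (h' : Ent (fun p : Y.carrier × Z.carrier => G.rel p.1 p.2) (fun p => G'.rel p.1 p.2)) :
    Ent (fun p : X.carrier × Z.carrier => Sig.ex (fun y => (F.rel p.1 y).and (G.rel y p.2)))
      (fun p => Sig.ex (fun y => (F'.rel p.1 y).and (G'.rel y p.2))) := by
  refine Ent.ex_cases (Ent.refl _) ?_
  have h1 := Ent.newhyp (fun p : X.carrier × Z.carrier =>
      Sig.ex (fun y => (F.rel p.1 y).and (G.rel y p.2)))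
    (fun p (y : Y.carrier) => (F.rel p.1 y).and (G.rel y p.2))
  refine Ent.ex_witness (fun p => p.2) ((h1.and_fst.trans ?_).and_intro (h1.and_snd.trans ?_))
  · exact h.reindex (fun p : (X.carrier × Z.carrier) × Y.carrier => (p.1.1, p.2))
  · exact h'.reindex (fun p : (X.carrier × Z.carrier) × Y.carrier => (p.2, p.1.2))

theorem id_comp_ent {X Y : Dst} (F : FunRel X Y) :
    Ent (fun p : X.carrier × Y.carrier => Sig.ex (fun y => (X.eq p.1 y).and (F.rel y p.2)))
      (fun p => F.rel p.1 p.2) := by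
  refine Ent.ex_cases (Ent.refl _) ?_
  have h1 := Ent.newhyp (fun p : X.carrier × Y.carrier =>
      Sig.ex (fun y => (X.eq p.1 y).and (F.rel y p.2)))
    (fun p (y : X.carrier) => (X.eq p.1 y).and (F.rel y p.2))
  exact F.ext_left h1.and_snd (X.symm' h1.and_fst)

theorem comp_id_ent {X Y : Dst} (F : FunRel X Y) :
    Ent (fun p : X.carrier × Y.carrier => Sig.ex (fun y => (F.rel p.1 y).and (Y.eq y p.2)))
      (fun p => F.rel p.1 p.2) := by
  refine Ent.ex_cases (Ent.refl _) ?_
  have h1 := Ent.newhyp (fun p : X.carrier × Y.carrier =>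
      Sig.ex (fun y => (F.rel p.1 y).and (Y.eq y p.2)))
    (fun p (y : Y.carrier) => (F.rel p.1 y).and (Y.eq y p.2))
  exact F.ext_right h1.and_fst h1.and_snd

theorem assoc_ent {W X Y Z : Dst} (F : FunRel W X) (G : FunRel X Y) (H : FunRel Y Z) :
    Ent (fun p : W.carrier × Z.carrier => Sig.ex (fun y =>
        (Sig.ex (fun x => (F.rel p.1 x).and (G.rel x y))).and (H.rel y p.2)))
      (fun p => Sig.ex (fun x => (F.rel p.1 x).and
        (Sig.ex (fun y => (G.rel x y).and (H.rel y p.2))))) := by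
  refine Ent.ex_cases (Ent.refl _) ?_
  have h1 := Ent.newhyp
    (fun p : W.carrier × Z.carrier => Sig.ex (fun y =>
        (Sig.ex (fun x => (F.rel p.1 x).and (G.rel x y))).and (H.rel y p.2)))
    (fun p (y : Y.carrier) => (Sig.ex (fun x => (F.rel p.1 x).and (G.rel x y))).and (H.rel y p.2))
  refine Ent.ex_cases h1.and_fst ?_
  have h2 := h1.and_snd.lift (fun q (x : X.carrier) => (F.rel q.1.1 x).and (G.rel x q.2))
  have h3 := Ent.newhyp (fun q : (W.carrier × Z.carrier) × Y.carrier =>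
      (Sig.ex (fun y =>
        (Sig.ex (fun x => (F.rel q.1.1 x).and (G.rel x y))).and (H.rel y q.1.2))).and
        ((Sig.ex (fun x => (F.rel q.1.1 x).and (G.rel x q.2))).and (H.rel q.2 q.1.2)))
    (fun q (x : X.carrier) => (F.rel q.1.1 x).and (G.rel x q.2))
  refine Ent.ex_witness (fun q => q.2) (h3.and_fst.and_intro ?_)
  exact Ent.ex_witness (fun q => q.1.2) (h3.and_snd.and_intro h2)

end Pool.Agent.Lib.MP_3e25b1_lc
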