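import Pool.Agent.Lib.MP_3e25b1_lc.Kleene

/-!
# The entailment relation: introduction, elimination, reflexivity, transitivity
-/

set_option autoImplicit false

namespace Pool.Agent.Lib.MP_3e25b1_lc

theorem ent_intro {I : Type} {φ ψ : I → Sig} (P : ℕ →. ℕ) (N : ℕ → ℕ →. ℕ)
    (hP : Partrec P) (hN : Partrec₂ N)
    (h : ∀ i, ∀ a ∈ (φ i).pp, ∃ a' ∈ P a, a' ∈ (ψ i).pp ∧
      ∀ b ∈ (ψ i).neg, ∃ s ∈ N a b, s ∈ star (φ i).neg ∧
        ((∀ c ∈ elts s, (φ i).rel a c) → (ψ i).rel a' b)) : Ent φ ψ := by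
  obtain ⟨ep, hep⟩ := exists_index hP
  have hN' : Partrec (fun n : ℕ => N n.unpair.1 n.unpair.2) :=
    hN.comp (Computable.fst.comp Computable.unpair) (Computable.snd.comp Computable.unpair)
  obtain ⟨em, hem⟩ := exists_index hN'
  refine ⟨ep, em, ?_, ?_, ?_⟩
  · intro i a ha
    obtain ⟨a', h1, h2, _⟩ := h i a ha
    exact ⟨a', by rw [hep]; exact h1, h2⟩
  · intro i n hn
    obtain ⟨a', _, _, h3⟩ := h i _ hn.1
    obtain ⟨s, hs, hs', _⟩ := h3 _ hn.2
    exact ⟨s, by rw [hem]; exact hs, hs'⟩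
  · intro i a ha b hb a' ha' s hs hc
    obtain ⟨a'', h1, _, h3⟩ := h i a ha
    obtain ⟨s', hs1, _, hs3⟩ := h3 b hb
    rw [hep] at ha'
    rw [hem] at hs
    simp only [Nat.unpair_pair] at hs
    rw [Part.mem_unique hs hs1] at hc
    rw [Part.mem_unique ha' h1]
    exact hs3 hc

theorem Ent.elim {I : Type} {φ ψ : I → Sig} (h : Ent φ ψ) :
    ∃ (P : ℕ →. ℕ) (N : ℕ → ℕ →. ℕ), Partrec P ∧ Partrec₂ N ∧
      ∀ i, ∀ a ∈ (φ i).pp, ∃ a' ∈ P a, a' ∈ (ψ i).pp ∧
        ∀ b ∈ (ψ i).neg, ∃ s ∈ N a b, s ∈ star (φ i).neg ∧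
          ((∀ c ∈ elts s, (φ i).rel a c) → (ψ i).rel a' b) := by
  obtain ⟨ep, em, h1, h2, h3⟩ := h
  refine ⟨app ep, fun a b => app em (Nat.pair a b), ?_, ?_, ?_⟩
  · exact app_partrec.comp (Computable.const ep) Computable.id
  · exact app_partrec.comp (Computable.const em)
      (Primrec₂.natPair.to_comp.comp Computable.fst Computable.snd)
  · intro i a ha
    obtain ⟨a', ha', ha''⟩ := h1 i a ha
    refine ⟨a', ha', ha'', fun b hb => ?_⟩
    obtain ⟨s, hs, hs'⟩ := h2 i (Nat.pair a b) ⟨by simpa using ha, by simpa using hb⟩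
    exact ⟨s, hs, hs', h3 i a ha b hb a' ha' s hs⟩

/-- Introduction with total computable realizers. -/
theorem ent_intro_total {I : Type} {φ ψ : I → Sig} (P : ℕ → ℕ) (N : ℕ → ℕ → ℕ)
    (hP : Computable P) (hN : Computable₂ N)
    (h : ∀ i, ∀ a ∈ (φ i).pp, P a ∈ (ψ i).pp ∧
      ∀ b ∈ (ψ i).neg, N a b ∈ star (φ i).neg ∧
        ((∀ c ∈ elts (N a b), (φ i).rel a c) → (ψ i).rel (P a) b)) : Ent φ ψ := by
  refine ent_intro (fun a => Part.some (P a)) (fun a b => Part.some (N a b)) hP.partrec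
    hN.partrec₂ ?_
  intro i a ha
  obtain ⟨h1, h2⟩ := h i a ha
  exact ⟨P a, Part.mem_some _, h1, fun b hb => ⟨N a b, Part.mem_some _, h2 b hb⟩⟩

theorem Ent.refl {I : Type} (φ : I → Sig) : Ent φ φ := by
  refine ent_intro_total (fun a => a) (fun _ b => mk [b]) Computable.id ?_ ?_
  · refine mk_computable.comp ?_
    exact Computable.list_cons.comp Computable.snd (Computable.const [])
  · intro i a ha
    refine ⟨ha, fun b hb => ⟨?_, ?_⟩⟩
    · intro x hx
      simp only [elts_mk, List.mem_singleton] at hx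
      rw [hx]; exact hb
    · intro hc
      exact hc b (by simp)

theorem Ent.reindex {I J : Type} {φ ψ : I → Sig} (h : Ent φ ψ) (u : J → I) :
    Ent (fun j => φ (u j)) (fun j => ψ (u j)) := by
  obtain ⟨ep, em, h1, h2, h3⟩ := h
  exact ⟨ep, em, fun j => h1 (u j), fun j => h2 (u j), fun j => h3 (u j)⟩

theorem Ent.trans {I : Type} {φ ψ χ : I → Sig} (h : Ent φ ψ) (h' : Ent ψ χ) : Ent φ χ := by
  obtain ⟨P, N, hP, hN, H⟩ := h.elim
  obtain ⟨P', N', hP', hN', H'⟩ := h'.elim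
  refine ent_intro (fun a => (P a).bind P')
    (fun a b => (P a).bind fun a' => (N' a' b).bind fun l => bigU N a l) ?_ ?_ ?_
  · exact hP.bind (hP'.comp Computable.snd)
  · have h1 : Partrec₂ (fun (p : ℕ × ℕ) (a' : ℕ) => (N' a' p.2).bind fun l => bigU N p.1 l) := by
      refine Partrec.bind ?_ ?_
      · exact hN'.comp Computable.snd (Computable.snd.comp Computable.fst)
      · exact (bigU_partrec hN).comp
          (Computable.fst.comp (Computable.fst.comp Computable.fst)) Computable.snd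
    exact (hP.comp Computable.fst).bind h1
  · intro i a ha
    obtain ⟨a', ha', ha'', h1⟩ := H i a ha
    obtain ⟨c', hc', hc'', h2⟩ := H' i a' ha''
    refine ⟨c', Part.mem_bind ha' hc', hc'', fun b hb => ?_⟩
    obtain ⟨l, hl, hl', h3⟩ := h2 b hb
    have hd : ∀ x ∈ elts l, (N a x).Dom := by
      intro x hx
      obtain ⟨s, hs, _⟩ := h1 x (hl' x hx)
      exact Part.dom_iff_mem.2 ⟨s, hs⟩
    obtain ⟨s, hs, hz⟩ := bigU_spec N a l hd
    refine ⟨s, Part.mem_bind ha' (Part.mem_bind hl hs), ?_, ?_⟩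
    · intro z hzs
      obtain ⟨x, hx, y, hy, hzy⟩ := (hz z).1 hzs
      obtain ⟨s', hs1, hs2, _⟩ := h1 x (hl' x hx)
      rw [Part.mem_unique hy hs1] at hzy
      exact hs2 z hzy
    · intro hc
      apply h3
      intro x hx
      obtain ⟨s', hs1, _, hs3⟩ := h1 x (hl' x hx)
      apply hs3
      intro c hcs
      exact hc c ((hz c).2 ⟨x, hx, s', hs1, hcs⟩)

end Pool.Agent.Lib.MP_3e25b1_lc
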