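import Pool.Agent.Lib.MP_3e25b1_lc.Nabla

/-!
# Subobject-like objects and tests for (joint) epimorphisms in the `D_st`-topos
-/

set_option autoImplicit false

namespace Pool.Agent.Lib.MP_3e25b1_lc

open CategoryTheory

theorem ent_of_isEmpty {I : Type} [IsEmpty I] (φ ψ : I → Sig) : Ent φ ψ :=
  ⟨0, 0, fun i => isEmptyElim i, fun i => isEmptyElim i, fun i => isEmptyElim i⟩

attribute [local irreducible] Sig.and Sig.or Sig.imp Sig.all Sig.ex Sig.top Sig.bot tv Ent

theorem nabla_map {X Y : Type} (f : X → Y) : nabla.map (↾f) = (nablaRel f).hom := rfl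

theorem nabla_obj (X : Type) : nabla.obj X = nablaObj X := rfl

/-! ## The object of truth values and characteristic maps -/

/-- The object of truth values. -/
def omega : Dst where
  carrier := Sig
  eq p q := (p.imp q).and (q.imp p)
  symm := by
    have h := Ent.refl (fun p : Sig × Sig => (p.1.imp p.2).and (p.2.imp p.1))
    exact h.and_snd.and_intro h.and_fst
  trans := by
    have h := Ent.refl (fun p : Sig × (Sig × Sig) =>
      ((p.1.imp p.2.1).and (p.2.1.imp p.1)).and ((p.2.1.imp p.2.2).and (p.2.2.imp p.2.1)))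
    refine Ent.and_intro (Ent.imp_intro ?_) (Ent.imp_intro ?_)
    · have h' := h.weaken (fun p : Sig × (Sig × Sig) => p.1)
      exact h'.and_snd.and_fst.mp (h'.and_fst.and_fst.mp (Ent.hyp _ _))
    · have h' := h.weaken (fun p : Sig × (Sig × Sig) => p.2.2)
      exact h'.and_fst.and_snd.mp (h'.and_snd.and_snd.mp (Ent.hyp _ _))

/-- Extensionality of a predicate on an object. -/
def ExtPred (U : Dst) (A : U.carrier → Sig) : Prop :=
  Ent (fun p : U.carrier × U.carrier => (A p.1).and (U.eq p.1 p.2)) (fun p => A p.2)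

theorem ExtPred.apply {U : Dst} {A : U.carrier → Sig} (hA : ExtPred U A) {I : Type}
    {χ : I → Sig} {x y : I → U.carrier} (h : Ent χ (fun i => A (x i)))
    (h' : Ent χ (fun i => U.eq (x i) (y i))) : Ent χ (fun i => A (y i)) := by
  have k := Ent.reindex hA (fun i => (x i, y i))
  exact (h.and_intro h').trans k

/-- The characteristic map of an extensional predicate. -/
def chi (U : Dst) (A : U.carrier → Sig) (hA : ExtPred U A) : FunRel U omega where
  rel u s := (U.eq u u).and (((A u).imp s).and (s.imp (A u)))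
  strict := by
    have h := Ent.refl (fun p : U.carrier × Sig =>
      (U.eq p.1 p.1).and (((A p.1).imp p.2).and (p.2.imp (A p.1))))
    exact h.and_fst.and_intro ((Ent.imp_intro (Ent.hyp _ _)).and_intro
      (Ent.imp_intro (Ent.hyp _ _)))
  ext := by
    let C : (U.carrier × U.carrier) × (Sig × Sig) → Sig := fun p =>
      ((U.eq p.1.1 p.1.1).and (((A p.1.1).imp p.2.1).and (p.2.1.imp (A p.1.1)))).and
        ((U.eq p.1.1 p.1.2).and ((p.2.1.imp p.2.2).and (p.2.2.imp p.2.1)))
    have h : Ent C C := Ent.refl C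
    refine Ent.and_intro (U.right h.and_snd.and_fst) (Ent.and_intro ?_ ?_)
    · apply Ent.imp_intro
      have h' := h.weaken (fun p : (U.carrier × U.carrier) × (Sig × Sig) => A p.1.2)
      exact h'.and_snd.and_snd.and_fst.mp (h'.and_fst.and_snd.and_fst.mp
        (hA.apply (Ent.hyp C _) (U.symm' h'.and_snd.and_fst)))
    · apply Ent.imp_intro
      have h' := h.weaken (fun p : (U.carrier × U.carrier) × (Sig × Sig) => p.2.2)
      exact hA.apply (h'.and_fst.and_snd.and_snd.mp
        (h'.and_snd.and_snd.and_snd.mp (Ent.hyp C _))) h'.and_snd.and_fst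
  single := by
    let C : U.carrier × (Sig × Sig) → Sig := fun p =>
      ((U.eq p.1 p.1).and (((A p.1).imp p.2.1).and (p.2.1.imp (A p.1)))).and
        ((U.eq p.1 p.1).and (((A p.1).imp p.2.2).and (p.2.2.imp (A p.1))))
    have h : Ent C C := Ent.refl C
    refine Ent.and_intro (Ent.imp_intro ?_) (Ent.imp_intro ?_)
    · have h' := h.weaken (fun p : U.carrier × (Sig × Sig) => p.2.1)
      exact h'.and_snd.and_snd.and_fst.mp (h'.and_fst.and_snd.and_snd.mp (Ent.hyp C _))
    · have h' := h.weaken (fun p : U.carrier × (Sig × Sig) => p.2.2)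
      exact h'.and_fst.and_snd.and_fst.mp (h'.and_snd.and_snd.and_snd.mp (Ent.hyp C _))
  total := Ent.ex_witness A ((Ent.refl _).and_intro
    ((Ent.imp_intro (Ent.hyp _ _)).and_intro (Ent.imp_intro (Ent.hyp _ _))))

theorem extPred_top (U : Dst) : ExtPred U (fun _ => Sig.top) := Ent.top_intro _

theorem ent_of_chi_eq {U : Dst} {A : U.carrier → Sig} {hA : ExtPred U A}
    (h : (chi U A hA).hom = (chi U (fun _ => Sig.top) (extPred_top U)).hom) :
    Ent (fun u : U.carrier => U.eq u u) A := by
  have h1 := (FunRel.hom_eq_iff.1 h.symm).reindex (fun u : U.carrier => (u, Sig.top))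
  have h2 : Ent (fun u : U.carrier => U.eq u u)
      (fun u => (chi U (fun _ => Sig.top) (extPred_top U)).rel u Sig.top) :=
    (Ent.refl _).and_intro ((Ent.imp_intro (Ent.hyp _ _)).and_intro
      (Ent.imp_intro (Ent.hyp _ _)))
  exact (h2.trans h1).and_snd.and_snd.mp (Ent.top_intro _)

theorem comp_chi_eq {U V : Dst} {A : U.carrier → Sig} {hA : ExtPred U A} {P : FunRel V U}
    (h : Ent (fun p : V.carrier × U.carrier => P.rel p.1 p.2) (fun p => A p.2)) :
    P.hom ≫ (chi U A hA).hom = P.hom ≫ (chi U (fun _ => Sig.top) (extPred_top U)).hom := by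
  rw [FunRel.hom_comp, FunRel.hom_comp, FunRel.hom_eq_iff]
  refine Ent.ex_cases (Ent.refl _) ?_
  have h1 := Ent.newhyp (fun p : V.carrier × Sig => (P.comp (chi U A hA)).rel p.1 p.2)
    (fun p u => (P.rel p.1 u).and ((chi U A hA).rel u p.2))
  refine Ent.ex_witness (fun p => p.2) (h1.and_fst.and_intro (h1.and_snd.and_fst.and_intro
    (Ent.and_intro ?_ ?_)))
  · apply Ent.imp_intro
    apply Ent.weaken
    exact h1.and_snd.and_snd.and_fst.mp (h1.and_fst.trans
      (h.reindex (fun p : (V.carrier × Sig) × U.carrier => (p.1.1, p.2))))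
  · exact Ent.imp_intro (Ent.top_intro _)

theorem ent_of_epi {U V : Dst} {A : U.carrier → Sig} (hA : ExtPred U A) {P : FunRel V U}
    (hP : Epi P.hom)
    (h : Ent (fun p : V.carrier × U.carrier => P.rel p.1 p.2) (fun p => A p.2)) :
    Ent (fun u : U.carrier => U.eq u u) A := by
  apply ent_of_chi_eq (hA := hA)
  rw [← cancel_epi P.hom]
  exact comp_chi_eq h

/-! ## Objects `{(u, m) | B(u, m)}` -/

/-- Extensionality of a relation between an object and a set. -/
def ExtRel (U : Dst) (W : Type) (B : U.carrier → W → Sig) : Prop :=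
  Ent (fun p : (U.carrier × U.carrier) × (W × W) =>
    (B p.1.1 p.2.1).and ((U.eq p.1.1 p.1.2).and (tv (p.2.1 = p.2.2)))) (fun p => B p.1.2 p.2.2)

theorem ExtRel.apply {U : Dst} {W : Type} {B : U.carrier → W → Sig} (hB : ExtRel U W B)
    {I : Type} {χ : I → Sig} {x y : I → U.carrier} {m m' : I → W}
    (h : Ent χ (fun i => B (x i) (m i))) (h' : Ent χ (fun i => U.eq (x i) (y i)))
    (h'' : Ent χ (fun i => tv (m i = m' i))) : Ent χ (fun i => B (y i) (m' i)) := by
  have k := Ent.reindex hB (fun i => ((x i, y i), (m i, m' i)))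
  exact (h.and_intro (h'.and_intro h'')).trans k

/-- The object `{(u, m) ∈ U × ∇W | B(u, m)}`. -/
def sub (U : Dst) (W : Type) (B : U.carrier → W → Sig) (hB : ExtRel U W B) : Dst where
  carrier := U.carrier × W
  eq p q := (U.eq p.1 q.1).and ((tv (p.2 = q.2)).and (B p.1 p.2))
  symm := by
    let C : (U.carrier × W) × (U.carrier × W) → Sig := fun r =>
      (U.eq r.1.1 r.2.1).and ((tv (r.1.2 = r.2.2)).and (B r.1.1 r.1.2))
    have h : Ent C C := Ent.refl C
    exact (U.symm' h.and_fst).and_intro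
      ((h.and_snd.and_fst.trans (Ent.tv_mono (fun _ e => e.symm))).and_intro
        (hB.apply h.and_snd.and_snd h.and_fst h.and_snd.and_fst))
  trans := by
    let C : (U.carrier × W) × ((U.carrier × W) × (U.carrier × W)) → Sig := fun r =>
      ((U.eq r.1.1 r.2.1.1).and ((tv (r.1.2 = r.2.1.2)).and (B r.1.1 r.1.2))).and
        ((U.eq r.2.1.1 r.2.2.1).and ((tv (r.2.1.2 = r.2.2.2)).and (B r.2.1.1 r.2.1.2)))
    have h : Ent C C := Ent.refl C
    exact (U.trans' h.and_fst.and_fst h.and_snd.and_fst).and_intro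
      (((Ent.tv_and h.and_fst.and_snd.and_fst h.and_snd.and_snd.and_fst).trans
        (Ent.tv_mono (fun _ e => e.1.trans e.2))).and_intro h.and_fst.and_snd.and_snd)

/-- The projection `{(u, m) | B(u, m)} → U`. -/
def proj (U : Dst) (W : Type) (B : U.carrier → W → Sig) (hB : ExtRel U W B) :
    FunRel (sub U W B hB) U where
  rel p u := (U.eq p.1 u).and (B p.1 p.2)
  strict := by
    have h := Ent.refl (fun r : (U.carrier × W) × U.carrier =>
      (U.eq r.1.1 r.2).and (B r.1.1 r.1.2))
    exact ((U.left h.and_fst).and_intro ((Ent.tv_intro _ (fun _ => rfl)).and_intro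
      h.and_snd)).and_intro (U.right h.and_fst)
  ext := by
    let C : ((U.carrier × W) × (U.carrier × W)) × (U.carrier × U.carrier) → Sig := fun r =>
      ((U.eq r.1.1.1 r.2.1).and (B r.1.1.1 r.1.1.2)).and
        (((U.eq r.1.1.1 r.1.2.1).and ((tv (r.1.1.2 = r.1.2.2)).and (B r.1.1.1 r.1.1.2))).and
          (U.eq r.2.1 r.2.2))
    have h : Ent C C := Ent.refl C
    exact (U.trans' (U.symm' h.and_snd.and_fst.and_fst)
      (U.trans' h.and_fst.and_fst h.and_snd.and_snd)).and_intro
      (hB.apply h.and_fst.and_snd h.and_snd.and_fst.and_fst h.and_snd.and_fst.and_snd.and_fst)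
  single := by
    have h := Ent.refl (fun r : (U.carrier × W) × (U.carrier × U.carrier) =>
      ((U.eq r.1.1 r.2.1).and (B r.1.1 r.1.2)).and ((U.eq r.1.1 r.2.2).and (B r.1.1 r.1.2)))
    exact U.trans' (U.symm' h.and_fst.and_fst) h.and_snd.and_fst
  total := by
    have h := Ent.refl (fun r : U.carrier × W =>
      (U.eq r.1 r.1).and ((tv (r.2 = r.2)).and (B r.1 r.2)))
    exact Ent.ex_witness (fun r => r.1) (h.and_fst.and_intro h.and_snd.and_snd)

theorem proj_test {U : Dst} {W : Type} {B : U.carrier → W → Sig} {hB : ExtRel U W B} {Z : Dst}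
    {f g : FunRel U Z} (h : (proj U W B hB).hom ≫ f.hom = (proj U W B hB).hom ≫ g.hom)
    {I : Type} {χ : I → Sig} {u : I → U.carrier} {m : I → W} {z : I → Z.carrier}
    (h1 : Ent χ (fun i => B (u i) (m i))) (h2 : Ent χ (fun i => f.rel (u i) (z i))) :
    Ent χ (fun i => g.rel (u i) (z i)) := by
  rw [FunRel.hom_comp, FunRel.hom_comp, FunRel.hom_eq_iff] at h
  have h3 : Ent χ (fun i => ((proj U W B hB).comp f).rel (u i, m i) (z i)) :=
    Ent.ex_witness u (((f.strict_left h2).and_intro h1).and_intro h2)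
  have h4 := h3.trans (h.reindex (fun i => ((u i, m i), z i)))
  refine Ent.ex_cases h4 ?_
  have h5 := Ent.newhyp χ (fun i (u' : U.carrier) =>
    ((proj U W B hB).rel (u i, m i) u').and (g.rel u' (z i)))
  exact g.ext_left h5.and_snd (U.symm' h5.and_fst.and_fst)

end Pool.Agent.Lib.MP_3e25b1_lc
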