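import Pool.Agent.Lib.MP_3e25b1_lc.Quant

/-!
# The truth values `tv P` of meta-level propositions

`tv P` is `(∅, {0}, {(∅, 0)})` if `P` holds and `(∅, {0}, ∅)` (falsity) otherwise.
-/

set_option autoImplicit false

namespace Pool.Agent.Lib.MP_3e25b1_lc

theorem tv_false : tv False = Sig.bot := by
  simp [tv, Sig.bot]

theorem mem_star_empty {a : ℕ} (h : a ∈ star ∅) : a = mk [] := by
  have : elts a = [] := by
    rw [List.eq_nil_iff_forall_not_mem]
    intro x hx
    exact (h x hx).elim
  rw [← mk_elts a, this]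

/-- `tv P` for true `P` is entailed by truth, so that (with `Ent.top_intro`) it is
equivalent to truth. -/
theorem Ent.tv_intro {I : Type} (χ : I → Sig) {P : I → Prop} (h : ∀ i, P i) :
    Ent χ (fun i => tv (P i)) := by
  refine ent_intro_total (fun _ => mk []) (fun _ _ => mk []) (Computable.const _)
    (Computable.const _) ?_
  intro i a _
  refine ⟨nil_mem_star _, fun b hb => ⟨nil_mem_star _, fun _ => ⟨h i, nil_mem_star _, hb⟩⟩⟩

theorem Ent.tv_reflect {I : Type} {P : I → Prop}
    (h : Ent (fun _ => Sig.top) (fun i => tv (P i))) (i : I) : P i := by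
  obtain ⟨F, N, _, _, H⟩ := h.elim
  obtain ⟨a', _, _, h2⟩ := H i (mk []) (nil_mem_star _)
  obtain ⟨s, _, hs', h3⟩ := h2 0 rfl
  have : s = mk [] := mem_star_empty hs'
  subst this
  exact (h3 (by intro c hc; simp at hc)).1

theorem Ent.tv_mono {I : Type} {P Q : I → Prop} (h : ∀ i, P i → Q i) :
    Ent (fun i => tv (P i)) (fun i => tv (Q i)) := by
  refine ent_intro_total (fun a => a) (fun _ b => mk [b]) Computable.id
    (single_computable Computable.snd) ?_
  intro i a ha
  refine ⟨ha, fun b hb => ⟨by rw [single_mem_star]; exact hb, fun hc => ?_⟩⟩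
  obtain ⟨hP, h1, h2⟩ := hc b (mem_single.2 rfl)
  exact ⟨h i hP, h1, h2⟩

theorem append_computable {α : Type} [Primcodable α] {f g : α → ℕ} (hf : Computable f)
    (hg : Computable g) : Computable (fun a => mk (elts (f a) ++ elts (g a))) :=
  mk_computable.comp (Computable.list_append.comp (elts_computable.comp hf)
    (elts_computable.comp hg))

theorem append_mem_star {X : Set ℕ} {a b : ℕ} (ha : a ∈ star X) (hb : b ∈ star X) :
    mk (elts a ++ elts b) ∈ star X := by
  intro x hx
  rw [elts_mk, List.mem_append] at hx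
  exact hx.elim (ha x) (hb x)

theorem Ent.tv_and {I : Type} {χ : I → Sig} {P Q : I → Prop}
    (h : Ent χ (fun i => tv (P i))) (h' : Ent χ (fun i => tv (Q i))) :
    Ent χ (fun i => tv (P i ∧ Q i)) := by
  obtain ⟨F, N, _, hN, H⟩ := h.elim
  obtain ⟨F', N', _, hN', H'⟩ := h'.elim
  refine ent_intro (fun _ => Part.some (mk []))
    (fun a b => (N a b).bind fun s => (N' a b).map fun t => mk (elts s ++ elts t))
    (Computable.const _).partrec ?_ ?_
  · refine Partrec.bind hN ?_
    refine Partrec.map (hN'.comp (Computable.fst.comp Computable.fst)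
      (Computable.snd.comp Computable.fst)) ?_
    exact append_computable (Computable.snd.comp Computable.fst) Computable.snd
  · intro i a ha
    obtain ⟨x, _, _, h1⟩ := H i a ha
    obtain ⟨y, _, _, h2⟩ := H' i a ha
    refine ⟨_, Part.mem_some _, nil_mem_star _, fun b hb => ?_⟩
    obtain ⟨s, hs, hs', h3⟩ := h1 b hb
    obtain ⟨t, ht, ht', h4⟩ := h2 b hb
    refine ⟨_, Part.mem_bind hs (Part.mem_map _ ht), append_mem_star hs' ht', fun hc => ?_⟩
    refine ⟨⟨(h3 fun c hcs => hc c ?_).1, (h4 fun c hcs => hc c ?_).1⟩, nil_mem_star _, hb⟩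
    · rw [elts_mk, List.mem_append]; exact Or.inl hcs
    · rw [elts_mk, List.mem_append]; exact Or.inr hcs

theorem Ent.tv_or {I : Type} {χ : I → Sig} {P Q : I → Prop}
    (h : Ent (fun i => tv (P i)) χ) (h' : Ent (fun i => tv (Q i)) χ) :
    Ent (fun i => tv (P i ∨ Q i)) χ := by
  obtain ⟨F, N, hF, _, H⟩ := h.elim
  obtain ⟨F', N', hF', _, H'⟩ := h'.elim
  refine ent_intro (fun a => (F a).bind fun s => (F' a).map fun t => mk (elts s ++ elts t))
    (fun _ _ => Part.some (mk [0])) ?_ (Computable.const _).partrec ?_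
  · refine Partrec.bind hF ?_
    refine Partrec.map (hF'.comp Computable.fst) ?_
    exact append_computable (Computable.snd.comp Computable.fst) Computable.snd
  · intro i a ha
    obtain ⟨x, hx, hx', h1⟩ := H i a ha
    obtain ⟨y, hy, hy', h2⟩ := H' i a ha
    have hm := append_mem_star hx' hy'
    refine ⟨_, Part.mem_bind hx (Part.mem_map _ hy), hm, fun b hb => ?_⟩
    refine ⟨_, Part.mem_some _, by rw [single_mem_star]; rfl, fun hc => ?_⟩
    obtain ⟨hPQ, _, _⟩ := hc 0 (mem_single.2 rfl)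
    rcases hPQ with hP | hQ
    · obtain ⟨s, _, hs', h3⟩ := h1 b hb
      refine (χ i).up hm (fun z hz => ?_) (h3 fun c hcs => ⟨hP, ha, hs' c hcs⟩)
      rw [elts_mk, List.mem_append]; exact Or.inl hz
    · obtain ⟨s, _, hs', h3⟩ := h2 b hb
      refine (χ i).up hm (fun z hz => ?_) (h3 fun c hcs => ⟨hQ, ha, hs' c hcs⟩)
      rw [elts_mk, List.mem_append]; exact Or.inr hz

theorem Ent.tv_imp {I : Type} {χ : I → Sig} {P Q : I → Prop}
    (h : Ent (fun i => (χ i).and (tv (P i))) (fun i => tv (Q i))) :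
    Ent χ (fun i => tv (P i → Q i)) := by
  obtain ⟨F, N, _, hN, H⟩ := h.elim
  refine ent_intro (fun _ => Part.some (mk []))
    (fun a b => (N (join a (mk [])) b).map fun s => part 0 s)
    (Computable.const _).partrec ?_ ?_
  · refine Partrec.map ?_ ?_
    · exact hN.comp (join_computable.comp Computable.fst (Computable.const _)) Computable.snd
    · exact part_computable.comp (Computable.const 0) Computable.snd
  · intro i a ha
    have hj : join a (mk []) ∈ star (sumS (χ i).pos (tv (P i)).pos) :=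
      join_mem_star.2 ⟨ha, nil_mem_star _⟩
    obtain ⟨x, _, _, h1⟩ := H i _ hj
    refine ⟨_, Part.mem_some _, nil_mem_star _, fun b hb => ?_⟩
    obtain ⟨s, hs, hs', h3⟩ := h1 b hb
    refine ⟨_, Part.mem_map _ hs, part_zero_mem_star hs', fun hc => ?_⟩
    refine ⟨fun hP => (h3 fun c hcs => ⟨hj, ?_⟩).1, nil_mem_star _, hb⟩
    rcases hs' c hcs with ⟨h0, _⟩ | ⟨h1, h1'⟩
    · left
      refine ⟨h0, ?_⟩
      rw [part_join_zero]
      apply hc
      rw [mem_part, ← h0, Nat.pair_unpair]
      exact hcs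
    · right
      refine ⟨h1, ?_⟩
      rw [part_join_one]
      exact ⟨hP, nil_mem_star _, h1'⟩

theorem Ent.tv_all {I J : Type} {χ : I → Sig} {P : I → J → Prop}
    (h : Ent (fun p : I × J => χ p.1) (fun p => tv (P p.1 p.2))) :
    Ent χ (fun i => tv (∀ j, P i j)) := by
  rcases isEmpty_or_nonempty J with hJ | ⟨⟨j0⟩⟩
  · exact Ent.tv_intro χ (fun i j => hJ.elim j)
  · obtain ⟨F, N, _, hN, H⟩ := h.elim
    refine ent_intro (fun _ => Part.some (mk [])) N (Computable.const _).partrec hN ?_
    intro i a ha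
    refine ⟨_, Part.mem_some _, nil_mem_star _, fun b hb => ?_⟩
    obtain ⟨_, _, _, h1⟩ := H (i, j0) a ha
    obtain ⟨s, hs, hs', _⟩ := h1 b hb
    refine ⟨s, hs, hs', fun hc => ⟨fun j => ?_, nil_mem_star _, hb⟩⟩
    obtain ⟨_, _, _, h4⟩ := H (i, j) a ha
    obtain ⟨s', hs1, _, h5⟩ := h4 b hb
    have := Part.mem_unique hs hs1
    subst this
    exact (h5 hc).1

theorem Ent.tv_ex {I J : Type} {χ : I → Sig} {P : I → J → Prop}
    (h : Ent (fun p : I × J => tv (P p.1 p.2)) (fun p => χ p.1)) :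
    Ent (fun i => tv (∃ j, P i j)) χ := by
  rcases isEmpty_or_nonempty J with hJ | ⟨⟨j0⟩⟩
  · have : (fun i => tv (∃ j, P i j)) = fun _ => Sig.bot := by
      funext i
      rw [← tv_false]
      congr 1
      simp
    rw [this]
    exact Ent.bot_elim χ
  · obtain ⟨F, N, hF, _, H⟩ := h.elim
    refine ent_intro F (fun _ _ => Part.some (mk [0])) hF (Computable.const _).partrec ?_
    intro i a ha
    obtain ⟨a', ha', ha'', _⟩ := H (i, j0) a ha
    refine ⟨a', ha', ha'', fun b hb => ?_⟩
    refine ⟨_, Part.mem_some _, by rw [single_mem_star]; rfl, fun hc => ?_⟩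
    obtain ⟨⟨j, hj⟩, _, _⟩ := hc 0 (mem_single.2 rfl)
    obtain ⟨a2, ha2, _, h1⟩ := H (i, j) a ha
    have := Part.mem_unique ha' ha2
    subst this
    obtain ⟨s, _, hs', h3⟩ := h1 b hb
    exact h3 fun c hcs => ⟨hj, ha, hs' c hcs⟩

end Pool.Agent.Lib.MP_3e25b1_lc
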