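import Pool.Agent.Lib.MP_3e25b1_lc.Cat

/-!
# Morphisms of the `D_st`-topos and their representatives
-/

set_option autoImplicit false

namespace Pool.Agent.Lib.MP_3e25b1_lc

open CategoryTheory

theorem FunRel.exists_rep {X Y : Dst} (f : X ⟶ Y) : ∃ F : FunRel X Y, F.hom = f :=
  Quotient.exists_rep f

theorem FunRel.hom_comp {X Y Z : Dst} (F : FunRel X Y) (G : FunRel Y Z) :
    F.hom ≫ G.hom = (F.comp G).hom := rfl

theorem FunRel.hom_id (X : Dst) : 𝟙 X = (FunRel.id X).hom := rfl

theorem FunRel.hom_eq_iff {X Y : Dst} {F G : FunRel X Y} : F.hom = G.hom ↔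
    Ent (fun p : X.carrier × Y.carrier => F.rel p.1 p.2) (fun p => G.rel p.1 p.2) := by
  constructor
  · intro h
    exact (Quotient.exact h).1
  · intro h
    exact Quotient.sound (FunRel.equiv_of_ent h)

end Pool.Agent.Lib.MP_3e25b1_lc
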